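import Pool.Agent.Work.MP_c348a7_pr.Blocks

/-!
# Components, their types, and matching of components
-/

namespace Pool.Agent.Work.MP_c348a7_pr

open Finset

/-! ### Matching -/

lemma exists_matching_aux {α β : Type*} [DecidableEq α] [DecidableEq β] [Nonempty β]
    (A : Finset α) (B : Finset β) :
    ∃ (M : Finset α) (f : α → β), M ⊆ A ∧ Set.InjOn f M ∧ (∀ a ∈ M, f a ∈ B) ∧
      (A \ M).card = A.card - B.card ∧ (B \ M.image f).card = B.card - A.card := by
  classical
  obtain ⟨M, hMA, hM⟩ := Finset.exists_subset_card_eq (min_le_left A.card B.card)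
  obtain ⟨M', hMB, hM'⟩ := Finset.exists_subset_card_eq (min_le_right A.card B.card)
  let e : M ≃ M' := Finset.equivOfCardEq (hM.trans hM'.symm)
  let f : α → β := fun a => if h : a ∈ M then (e ⟨a, h⟩ : β) else Classical.arbitrary β
  have hf : ∀ a (h : a ∈ M), f a = (e ⟨a, h⟩ : β) := fun a h => dif_pos h
  have hinj : Set.InjOn f M := by
    intro a ha b hb hab
    rw [hf a ha, hf b hb] at hab
    have := e.injective (Subtype.ext hab)
    exact congrArg Subtype.val this
  have himg : M.image f ⊆ M' := by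
    intro b hb
    obtain ⟨a, ha, rfl⟩ := Finset.mem_image.mp hb
    rw [hf a ha]
    exact (e ⟨a, ha⟩).2
  have hcard : (M.image f).card = M.card := Finset.card_image_of_injOn hinj
  refine ⟨M, f, hMA, hinj, fun a ha => hMB (himg (Finset.mem_image_of_mem f ha)), ?_, ?_⟩
  · rw [Finset.card_sdiff_of_subset hMA, hM]; omega
  · rw [Finset.card_sdiff_of_subset (himg.trans hMB), hcard, hM]; omega

lemma exists_matching {α β T : Type*} [DecidableEq α] [DecidableEq β] [DecidableEq T] [Nonempty β]
    (A : Finset α) (B : Finset β) (ta : α → T) (tb : β → T) :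
    ∃ (M : Finset α) (f : α → β), M ⊆ A ∧ Set.InjOn f M ∧ (∀ a ∈ M, f a ∈ B ∧ tb (f a) = ta a) ∧
      ∀ τ, ((A \ M).filter (fun a => ta a = τ)).card ≤
          (A.filter (fun a => ta a = τ)).card - (B.filter (fun b => tb b = τ)).card ∧
        ((B \ M.image f).filter (fun b => tb b = τ)).card ≤
          (B.filter (fun b => tb b = τ)).card - (A.filter (fun a => ta a = τ)).card := by
  classical
  choose M f h1 h2 h3 h4 h5 using fun τ : T =>
    exists_matching_aux (A.filter (fun a => ta a = τ)) (B.filter (fun b => tb b = τ))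
  have hmem : ∀ a, a ∈ A.filter (fun a => a ∈ M (ta a)) ↔ a ∈ M (ta a) := by
    intro a
    rw [Finset.mem_filter]
    exact ⟨fun h => h.2, fun h => ⟨(Finset.mem_filter.mp (h1 _ h)).1, h⟩⟩
  have hcls : ∀ τ a, a ∈ M τ → ta a = τ := fun τ a h => (Finset.mem_filter.mp (h1 τ h)).2
  have htb : ∀ a, a ∈ M (ta a) → f (ta a) a ∈ B ∧ tb (f (ta a) a) = ta a := fun a h =>
    Finset.mem_filter.mp (h3 _ a h)
  refine ⟨A.filter (fun a => a ∈ M (ta a)), fun a => f (ta a) a, Finset.filter_subset _ _, ?_, ?_, ?_⟩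
  · intro a ha b hb hab
    rw [Finset.mem_coe, hmem] at ha hb
    have e1 := (htb a ha).2
    have e2 := (htb b hb).2
    have hab' : f (ta a) a = f (ta b) b := hab
    have e3 : ta a = ta b := by rw [← e1, ← e2, hab']
    rw [← e3] at hb hab'
    exact h2 (ta a) ha hb hab'
  · intro a ha
    rw [hmem] at ha
    exact htb a ha
  · intro τ
    constructor
    · rw [← h4 τ]
      refine Finset.card_le_card fun a ha => ?_
      rw [Finset.mem_filter, Finset.mem_sdiff, hmem] at ha
      rw [Finset.mem_sdiff, Finset.mem_filter]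
      obtain ⟨⟨ha1, ha2⟩, rfl⟩ := ha
      exact ⟨⟨ha1, rfl⟩, ha2⟩
    · rw [← h5 τ]
      refine Finset.card_le_card fun b hb => ?_
      rw [Finset.mem_filter, Finset.mem_sdiff] at hb
      obtain ⟨⟨hb1, hb2⟩, rfl⟩ := hb
      rw [Finset.mem_sdiff, Finset.mem_filter]
      refine ⟨⟨hb1, rfl⟩, fun h => hb2 ?_⟩
      obtain ⟨a, ha, hab⟩ := Finset.mem_image.mp h
      have hta : ta a = tb b := hcls _ _ ha
      refine Finset.mem_image.mpr ⟨a, ?_, ?_⟩
      · rw [hmem, hta]; exact ha
      · rw [hta]; exact hab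

lemma exists_extension {α β : Type*} [Fintype α] [Fintype β]
    (hcard : Fintype.card α ≤ Fintype.card β) (S : Finset α) (φ : α → β) (hφ : Set.InjOn φ S) :
    ∃ ψ : α ↪ β, ∀ a ∈ S, ψ a = φ a := by
  classical
  have h1 : Fintype.card {a // a ∉ S} ≤ Fintype.card {b // b ∉ S.image φ} := by
    rw [Fintype.card_subtype_compl, Fintype.card_subtype_compl, Fintype.card_coe, Fintype.card_coe,
      Finset.card_image_of_injOn hφ]
    omega
  obtain ⟨e⟩ := Function.Embedding.nonempty_of_card_le h1
  refine ⟨⟨fun a => if h : a ∈ S then φ a else (e ⟨a, h⟩ : β), ?_⟩, ?_⟩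
  · intro a b hab
    dsimp only at hab
    by_cases ha : a ∈ S <;> by_cases hb : b ∈ S
    · rw [dif_pos ha, dif_pos hb] at hab
      exact hφ ha hb hab
    · rw [dif_pos ha, dif_neg hb] at hab
      exact absurd (hab ▸ Finset.mem_image_of_mem φ ha) (e ⟨b, hb⟩).2
    · rw [dif_neg ha, dif_pos hb] at hab
      exact absurd (hab ▸ Finset.mem_image_of_mem φ hb) (e ⟨a, ha⟩).2
    · rw [dif_neg ha, dif_neg hb] at hab
      have := e.injective (Subtype.ext hab)
      exact congrArg Subtype.val this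
  · intro a ha
    exact dif_pos ha

/-! ### Components -/

open Classical in
/-- the vertices reachable from `x` -/
noncomputable def comp {N : ℕ} (G : SimpleGraph (Fin N)) (x : Fin N) : Finset (Fin N) :=
  Finset.univ.filter (fun y => G.Reachable x y)

/-- the vertex sets of the connected components -/
noncomputable def comps {N : ℕ} (G : SimpleGraph (Fin N)) : Finset (Finset (Fin N)) :=
  Finset.univ.image (comp G)

/-- the graph induced on a set of vertices, relabelled in increasing order -/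
noncomputable def typ {N : ℕ} (G : SimpleGraph (Fin N)) (A : Finset (Fin N)) :
    Σ k : ℕ, SimpleGraph (Fin k) :=
  ⟨A.card, G.comap (A.orderEmbOfFin rfl)⟩

open Classical in
/-- the number of components of a given type -/
noncomputable def cnt {N : ℕ} (G : SimpleGraph (Fin N)) (τ : Σ k : ℕ, SimpleGraph (Fin k)) : ℕ :=
  ((comps G).filter (fun A => typ G A = τ)).card

/-- the number of ordered adjacent pairs inside components with more than `K` vertices -/
noncomputable def big {N : ℕ} (G : SimpleGraph (Fin N)) (K : ℕ) : ℕ :=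
  ((adjPairs G).filter (fun p => K < (comp G p.1).card)).card

/-- types with at most `K` vertices -/
noncomputable def types (K : ℕ) : Finset (Σ k : ℕ, SimpleGraph (Fin k)) :=
  (Finset.range (K + 1)).sigma (fun _ => Finset.univ)

lemma mem_comp {N : ℕ} {G : SimpleGraph (Fin N)} {x y : Fin N} : y ∈ comp G x ↔ G.Reachable x y := by
  simp [comp]

lemma self_mem_comp {N : ℕ} (G : SimpleGraph (Fin N)) (x : Fin N) : x ∈ comp G x :=
  mem_comp.mpr (SimpleGraph.Reachable.refl x)

lemma comp_eq_of_mem {N : ℕ} {G : SimpleGraph (Fin N)} {x y : Fin N} (h : y ∈ comp G x) :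
    comp G y = comp G x := by
  ext z
  rw [mem_comp] at h
  rw [mem_comp, mem_comp]
  exact ⟨fun h' => h.trans h', fun h' => h.symm.trans h'⟩

lemma comp_mem_comps {N : ℕ} (G : SimpleGraph (Fin N)) (x : Fin N) : comp G x ∈ comps G :=
  Finset.mem_image_of_mem _ (Finset.mem_univ _)

lemma comp_eq_of_mem_comps {N : ℕ} {G : SimpleGraph (Fin N)} {A : Finset (Fin N)} (hA : A ∈ comps G)
    {x : Fin N} (hx : x ∈ A) : comp G x = A := by
  obtain ⟨y, _, rfl⟩ := Finset.mem_image.mp hA
  exact comp_eq_of_mem hx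

lemma mem_types {K : ℕ} {τ : Σ k : ℕ, SimpleGraph (Fin k)} : τ ∈ types K ↔ τ.1 ≤ K := by
  unfold types
  rw [Finset.mem_sigma, Finset.mem_range]
  constructor
  · rintro ⟨h, _⟩; omega
  · intro h; exact ⟨by omega, Finset.mem_univ _⟩

lemma typ_eq {N k : ℕ} (G : SimpleGraph (Fin N)) (A : Finset (Fin N)) (h : A.card = k) :
    typ G A = ⟨k, G.comap (A.orderEmbOfFin h)⟩ := by
  subst h
  rfl

lemma exists_iso_of_typ {M N : ℕ} {G : SimpleGraph (Fin N)} {H : SimpleGraph (Fin M)}
    {A : Finset (Fin M)} {B : Finset (Fin N)} (h : typ G B = typ H A) (hN : 0 < N) :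
    ∃ e : Fin M → Fin N, Set.InjOn e A ∧ (∀ x ∈ A, e x ∈ B) ∧ (∀ y ∈ B, ∃ x ∈ A, e x = y) ∧
      ∀ x ∈ A, ∀ y ∈ A, (H.Adj x y ↔ G.Adj (e x) (e y)) := by
  classical
  have hcard : B.card = A.card := congrArg Sigma.fst h
  rw [typ_eq G B hcard, typ_eq H A rfl] at h
  have hadj : G.comap (B.orderEmbOfFin hcard) = H.comap (A.orderEmbOfFin rfl) := by
    exact eq_of_heq (Sigma.mk.inj_iff.mp h).2
  let ι : Fin M → Fin N := fun x => if hx : x ∈ A then
    B.orderEmbOfFin hcard ((A.orderIsoOfFin rfl).symm ⟨x, hx⟩) else ⟨0, hN⟩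
  have hι : ∀ x (hx : x ∈ A), ι x = B.orderEmbOfFin hcard ((A.orderIsoOfFin rfl).symm ⟨x, hx⟩) :=
    fun x hx => dif_pos hx
  have hback : ∀ x (hx : x ∈ A), A.orderEmbOfFin rfl ((A.orderIsoOfFin rfl).symm ⟨x, hx⟩) = x := by
    intro x hx
    rw [← Finset.coe_orderIsoOfFin_apply]
    simp
  refine ⟨ι, ?_, ?_, ?_, ?_⟩
  · intro x hx y hy hxy
    rw [hι x hx, hι y hy] at hxy
    have h1 := (B.orderEmbOfFin hcard).injective hxy
    rw [← hback x hx, ← hback y hy, h1]
  · intro x hx
    rw [hι x hx]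
    exact Finset.orderEmbOfFin_mem _ _ _
  · intro y hy
    obtain ⟨i, hi⟩ : ∃ i, B.orderEmbOfFin hcard i = y := by
      have : y ∈ Set.range (B.orderEmbOfFin hcard) := by
        rw [Finset.range_orderEmbOfFin]; exact hy
      exact this
    refine ⟨A.orderEmbOfFin rfl i, Finset.orderEmbOfFin_mem _ _ _, ?_⟩
    rw [hι _ (Finset.orderEmbOfFin_mem _ _ _), ← hi]
    congr 1
    rw [OrderIso.symm_apply_eq]
    apply Subtype.ext
    rw [Finset.coe_orderIsoOfFin_apply]
  · intro x hx y hy
    rw [hι x hx, hι y hy]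
    have h1 : (H.comap (A.orderEmbOfFin rfl)).Adj ((A.orderIsoOfFin rfl).symm ⟨x, hx⟩)
        ((A.orderIsoOfFin rfl).symm ⟨y, hy⟩) ↔ H.Adj x y := by
      rw [SimpleGraph.comap_adj, hback x hx, hback y hy]
    rw [← h1, ← hadj, SimpleGraph.comap_adj]

open Classical in
lemma card_fiber_types {α : Type*} {K : ℕ} (U : Finset α) (t : α → Σ k : ℕ, SimpleGraph (Fin k))
    (hU : ∀ a ∈ U, (t a).1 ≤ K) :
    U.card = ∑ τ ∈ types K, (U.filter (fun a => t a = τ)).card := by
  refine Finset.card_eq_sum_card_fiberwise (f := t) (t := types K) ?_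
  intro a ha
  exact Finset.mem_coe.mpr (mem_types.mpr (hU a ha))

/-- **Matching the components of `G` with those of `q` copies of `H`.** -/
lemma exists_block_embedding {M N q : ℕ} (hq : q * M ≤ N) (hN : 0 < N) (G : SimpleGraph (Fin N))
    (H : SimpleGraph (Fin M)) (K : ℕ) :
    ∃ ψ : Fin q × Fin M ↪ Fin N, defect G H ψ ≤ big G K + q * big H K +
      K ^ 2 * ∑ τ ∈ types K, ((cnt G τ - q * cnt H τ) + (q * cnt H τ - cnt G τ)) := by
  classical
  set 𝒜 : Finset (Fin q × Finset (Fin M)) := Finset.univ ×ˢ comps H with h𝒜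
  set ta : Fin q × Finset (Fin M) → Σ k : ℕ, SimpleGraph (Fin k) := fun a => typ H a.2 with hta
  obtain ⟨S, f, hS, hinj, hf, hcount⟩ := exists_matching 𝒜 (comps G) ta (typ G)
  have hcntA : ∀ τ, (𝒜.filter (fun a => ta a = τ)).card = q * cnt H τ := by
    intro τ
    have : 𝒜.filter (fun a => ta a = τ) =
        Finset.univ ×ˢ (comps H).filter (fun A => typ H A = τ) := by
      ext ⟨i, A⟩
      simp [h𝒜, hta]
    rw [this, Finset.card_product, Finset.card_univ, Fintype.card_fin]
    unfold cnt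
    congr 2
  have hcntB : ∀ τ, ((comps G).filter (fun b => typ G b = τ)).card = cnt G τ := by
    intro τ
    unfold cnt
    congr
  -- isomorphisms
  have hiso : ∀ a : Fin q × Finset (Fin M), ∃ e : Fin M → Fin N, a ∈ S →
      Set.InjOn e a.2 ∧ (∀ x ∈ a.2, e x ∈ f a) ∧ (∀ y ∈ f a, ∃ x ∈ a.2, e x = y) ∧
      ∀ x ∈ a.2, ∀ y ∈ a.2, (H.Adj x y ↔ G.Adj (e x) (e y)) := by
    intro a
    by_cases ha : a ∈ S
    · obtain ⟨e, he⟩ := exists_iso_of_typ (hf a ha).2 hN
      exact ⟨e, fun _ => he⟩
    · exact ⟨fun _ => ⟨0, hN⟩, fun h => absurd h ha⟩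
  choose e he using hiso
  set φ : Fin q × Fin M → Fin N := fun p => e (p.1, comp H p.2) p.2 with hφ
  set D : Finset (Fin q × Fin M) := Finset.univ.filter (fun p => (p.1, comp H p.2) ∈ S) with hD
  have hmemD : ∀ p, p ∈ D ↔ (p.1, comp H p.2) ∈ S := by intro p; simp [hD]
  have hφinj : Set.InjOn φ D := by
    rintro ⟨i, x⟩ hx ⟨j, y⟩ hy hxy
    rw [Finset.mem_coe, hmemD] at hx hy
    have h1 := (he _ hx).2.1 x (self_mem_comp H x)
    have h2 := (he _ hy).2.1 y (self_mem_comp H y)
    have hxy' : e (i, comp H x) x = e (j, comp H y) y := hxy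
    have hc1 := comp_eq_of_mem_comps (hf _ hx).1 h1
    have hc2 := comp_eq_of_mem_comps (hf _ hy).1 h2
    have h3 : f (i, comp H x) = f (j, comp H y) := by rw [← hc1, ← hc2, hxy']
    have h4 := hinj hx hy h3
    rw [← h4] at hxy' hy
    have hy' : y ∈ comp H x := by
      have h7 : comp H x = comp H y := congrArg Prod.snd h4
      rw [h7]; exact self_mem_comp H y
    have h5 := (he _ hx).1 (self_mem_comp H x) hy' hxy'
    have h6 : i = j := congrArg Prod.fst h4
    rw [Prod.mk.injEq]
    exact ⟨h6, h5⟩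
  obtain ⟨ψ, hψ⟩ := exists_extension (by simpa using hq) D φ hφinj
  refine ⟨ψ, ?_⟩
  -- values of ψ on matched components
  have hψval : ∀ (i : Fin q) (A : Finset (Fin M)), (i, A) ∈ S → ∀ x ∈ A, ψ (i, x) = e (i, A) x := by
    intro i A hiA x hx
    have hA : A ∈ comps H := (Finset.mem_product.mp (hS hiA)).2
    have hc := comp_eq_of_mem_comps hA hx
    rw [hψ (i, x) ((hmemD _).mpr (by rw [hc]; exact hiA)), hφ]
    simp only [hc]
  set UG : Finset (Finset (Fin N)) := (comps G \ S.image f).filter (fun B => B.card ≤ K) with hUG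
  set UH : Finset (Fin q × Finset (Fin M)) := (𝒜 \ S).filter (fun a => a.2.card ≤ K) with hUH
  have hUGcard : UG.card ≤ ∑ τ ∈ types K, (cnt G τ - q * cnt H τ) := by
    rw [card_fiber_types UG (typ G) (K := K) fun B hB => (Finset.mem_filter.mp hB).2]
    refine Finset.sum_le_sum fun τ _ => ?_
    rw [← hcntA τ, ← hcntB τ]
    refine le_trans (Finset.card_le_card ?_) (hcount τ).2
    intro B hB
    rw [Finset.mem_filter] at hB ⊢
    exact ⟨(Finset.mem_filter.mp hB.1).1, hB.2⟩
  have hUHcard : UH.card ≤ ∑ τ ∈ types K, (q * cnt H τ - cnt G τ) := by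
    rw [card_fiber_types UH ta (K := K) fun B hB => (Finset.mem_filter.mp hB).2]
    refine Finset.sum_le_sum fun τ _ => ?_
    rw [← hcntA τ, ← hcntB τ]
    refine le_trans (Finset.card_le_card ?_) (hcount τ).1
    intro B hB
    rw [Finset.mem_filter] at hB ⊢
    exact ⟨(Finset.mem_filter.mp hB.1).1, hB.2⟩
  -- first part of the defect
  have hpart1 : (adjPairs G \ blockPairs H ψ).card ≤ big G K + K ^ 2 * UG.card := by
    have hsub : adjPairs G \ blockPairs H ψ ⊆
        (adjPairs G).filter (fun p => K < (comp G p.1).card) ∪ UG.biUnion (fun B => B ×ˢ B) := by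
      rintro ⟨x, y⟩ hp
      rw [Finset.mem_sdiff] at hp
      obtain ⟨hp1, hp2⟩ := hp
      rw [Finset.mem_union]
      by_cases hK : K < (comp G x).card
      · exact Or.inl (Finset.mem_filter.mpr ⟨hp1, hK⟩)
      · right
        rw [Finset.mem_biUnion]
        have hxy : G.Adj x y := (Finset.mem_filter.mp hp1).2
        have hy : y ∈ comp G x := mem_comp.mpr hxy.reachable
        refine ⟨comp G x, ?_, Finset.mem_product.mpr ⟨self_mem_comp G x, hy⟩⟩
        rw [hUG, Finset.mem_filter, Finset.mem_sdiff]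
        refine ⟨⟨comp_mem_comps G x, fun himg => hp2 ?_⟩, not_lt.mp hK⟩
        obtain ⟨⟨i, A⟩, hiA, hfi⟩ := Finset.mem_image.mp himg
        obtain ⟨_, _, hsurj, hadj⟩ := he _ hiA
        obtain ⟨u, hu, hux⟩ := hsurj x (by rw [hfi]; exact self_mem_comp G x)
        obtain ⟨v, hv, hvy⟩ := hsurj y (by rw [hfi]; exact hy)
        have hHuv : H.Adj u v := by
          rw [hadj u hu v hv, hux, hvy]; exact hxy
        unfold blockPairs
        rw [Finset.mem_image]
        refine ⟨(i, (u, v)), ?_, ?_⟩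
        · rw [Finset.mem_product]
          exact ⟨Finset.mem_univ _, Finset.mem_filter.mpr ⟨Finset.mem_univ _, hHuv⟩⟩
        · dsimp only
          rw [hψval i A hiA u hu, hψval i A hiA v hv, hux, hvy]
    refine (Finset.card_le_card hsub).trans ((Finset.card_union_le _ _).trans ?_)
    refine Nat.add_le_add (le_of_eq rfl) ?_
    refine Finset.card_biUnion_le.trans ?_
    calc ∑ B ∈ UG, (B ×ˢ B).card ≤ ∑ B ∈ UG, K ^ 2 := by
          refine Finset.sum_le_sum fun B hB => ?_
          rw [Finset.card_product, sq]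
          have := (Finset.mem_filter.mp hB).2
          exact Nat.mul_le_mul this this
      _ = K ^ 2 * UG.card := by rw [Finset.sum_const, smul_eq_mul, mul_comm]
  have hpart2 : (blockPairs H ψ \ adjPairs G).card ≤ q * big H K + K ^ 2 * UH.card := by
    have hsub : blockPairs H ψ \ adjPairs G ⊆
        ((Finset.univ ×ˢ (adjPairs H).filter (fun p => K < (comp H p.1).card)) ∪
          UH.biUnion (fun a => {a.1} ×ˢ (a.2 ×ˢ a.2))).image
          (fun a : Fin q × (Fin M × Fin M) => (ψ (a.1, a.2.1), ψ (a.1, a.2.2))) := by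
      intro p hp
      rw [Finset.mem_sdiff] at hp
      obtain ⟨hp1, hp2⟩ := hp
      unfold blockPairs at hp1
      rw [Finset.mem_image] at hp1
      obtain ⟨⟨i, u, v⟩, hm, rfl⟩ := hp1
      rw [Finset.mem_product] at hm
      have huv : H.Adj u v := (Finset.mem_filter.mp hm.2).2
      have hv : v ∈ comp H u := mem_comp.mpr huv.reachable
      rw [Finset.mem_image]
      refine ⟨(i, u, v), ?_, rfl⟩
      rw [Finset.mem_union]
      by_cases hK : K < (comp H u).card
      · left
        exact Finset.mem_product.mpr ⟨Finset.mem_univ _, Finset.mem_filter.mpr ⟨hm.2, hK⟩⟩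
      · right
        rw [Finset.mem_biUnion]
        refine ⟨(i, comp H u), ?_, ?_⟩
        · rw [hUH, Finset.mem_filter, Finset.mem_sdiff]
          refine ⟨⟨Finset.mem_product.mpr ⟨Finset.mem_univ _, comp_mem_comps H u⟩, fun hS' => hp2 ?_⟩,
            not_lt.mp hK⟩
          unfold adjPairs
          rw [Finset.mem_filter]
          refine ⟨Finset.mem_univ _, ?_⟩
          dsimp only
          rw [hψval i _ hS' u (self_mem_comp H u), hψval i _ hS' v hv]
          exact ((he _ hS').2.2.2 u (self_mem_comp H u) v hv).mp huv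
        · rw [Finset.mem_product, Finset.mem_product]
          exact ⟨Finset.mem_singleton.mpr rfl, self_mem_comp H u, hv⟩
    refine (Finset.card_le_card hsub).trans (Finset.card_image_le.trans
      ((Finset.card_union_le _ _).trans ?_))
    refine Nat.add_le_add ?_ ?_
    · rw [Finset.card_product, Finset.card_univ, Fintype.card_fin]
      exact le_of_eq rfl
    · refine Finset.card_biUnion_le.trans ?_
      calc ∑ a ∈ UH, ({a.1} ×ˢ (a.2 ×ˢ a.2)).card ≤ ∑ a ∈ UH, K ^ 2 := by
            refine Finset.sum_le_sum fun a ha => ?_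
            rw [Finset.card_product, Finset.card_product, Finset.card_singleton, one_mul, sq]
            have := (Finset.mem_filter.mp ha).2
            exact Nat.mul_le_mul this this
        _ = K ^ 2 * UH.card := by rw [Finset.sum_const, smul_eq_mul, mul_comm]
  unfold defect
  calc (adjPairs G \ blockPairs H ψ).card + (blockPairs H ψ \ adjPairs G).card
      ≤ (big G K + K ^ 2 * UG.card) + (q * big H K + K ^ 2 * UH.card) := Nat.add_le_add hpart1 hpart2
    _ = big G K + q * big H K + K ^ 2 * (UG.card + UH.card) := by ring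
    _ ≤ big G K + q * big H K +
      K ^ 2 * ∑ τ ∈ types K, ((cnt G τ - q * cnt H τ) + (q * cnt H τ - cnt G τ)) := by
        rw [Finset.sum_add_distrib]
        gcongr

end Pool.Agent.Work.MP_c348a7_pr
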