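import Pool.Agent.Work.MP_c348a7_pr.Criterion
import Pool.Agent.Work.MP_c348a7_pr.Matching

/-!
# LD-convergence from the statistics of small components
-/

namespace Pool.Agent.Work.MP_c348a7_pr

open MeasureTheory Filter Topology
open scoped ENNReal NNReal

lemma card_adjPairs_le {N : ℕ} (G : SimpleGraph (Fin N)) (K : ℕ) :
    (adjPairs G).card ≤ big G K + K * N := by
  classical
  have h1 : (adjPairs G).card = ((adjPairs G).filter (fun p => K < (comp G p.1).card)).card +
      ((adjPairs G).filter (fun p => ¬ K < (comp G p.1).card)).card :=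
    (Finset.card_filter_add_card_filter_not _).symm
  rw [h1]
  refine Nat.add_le_add (le_of_eq rfl) ?_
  have h2 : (adjPairs G).filter (fun p => ¬ K < (comp G p.1).card) ⊆
      (Finset.univ.filter (fun x : Fin N => (comp G x).card ≤ K)).biUnion
        (fun x => {x} ×ˢ comp G x) := by
    rintro ⟨x, y⟩ hp
    rw [Finset.mem_filter] at hp
    rw [Finset.mem_biUnion]
    refine ⟨x, Finset.mem_filter.mpr ⟨Finset.mem_univ _, not_lt.mp hp.2⟩, ?_⟩
    have hxy : G.Adj x y := (Finset.mem_filter.mp hp.1).2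
    exact Finset.mem_product.mpr ⟨Finset.mem_singleton.mpr rfl, mem_comp.mpr hxy.reachable⟩
  refine (Finset.card_le_card h2).trans (Finset.card_biUnion_le.trans ?_)
  calc ∑ x ∈ Finset.univ.filter (fun x : Fin N => (comp G x).card ≤ K), ({x} ×ˢ comp G x).card
      ≤ ∑ x ∈ Finset.univ.filter (fun x : Fin N => (comp G x).card ≤ K), K := by
        refine Finset.sum_le_sum fun x hx => ?_
        rw [Finset.card_product, Finset.card_singleton, one_mul]
        exact (Finset.mem_filter.mp hx).2
    _ = K * (Finset.univ.filter (fun x : Fin N => (comp G x).card ≤ K)).card := by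
        rw [Finset.sum_const, smul_eq_mul, mul_comm]
    _ ≤ K * N := by
        gcongr
        refine (Finset.card_le_univ _).trans (le_of_eq ?_)
        exact Fintype.card_fin N

/-- **LD-convergence from component statistics.**  If the density of the components of every type
converges and few edges lie in large components, the sequence is LD-convergent. -/
theorem ldConvergent_of_stats (N : ℕ → ℕ) (hN : Tendsto N atTop atTop)
    (G : ∀ n, SimpleGraph (Fin (N n))) (θ : (Σ k : ℕ, SimpleGraph (Fin k)) → ℝ)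
    (h1 : ∀ τ, Tendsto (fun n => (cnt (G n) τ : ℝ) / N n) atTop (𝓝 (θ τ)))
    (h2 : ∀ ε : ℝ, 0 < ε → ∃ K : ℕ, ∀ᶠ n in atTop, (big (G n) K : ℝ) ≤ ε * N n) :
    LDConvergent N G := by
  obtain ⟨K₁, hK₁⟩ := h2 1 one_pos
  refine ldConvergent_of_selfSimilar N hN G (1 + K₁) ?_ ?_
  · filter_upwards [hK₁] with n hn
    have h3 : ((adjPairs (G n)).card : ℝ) ≤ big (G n) K₁ + K₁ * N n := by
      exact_mod_cast card_adjPairs_le (G n) K₁
    push_cast
    linarith
  · intro ε hε
    obtain ⟨K, hK⟩ := h2 (ε / 8) (by positivity)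
    set S : ℝ := ((types K).card : ℝ) with hS
    set Θ : ℝ := 1 + ∑ τ ∈ types K, |θ τ| with hΘ
    have hΘ1 : 1 ≤ Θ := by
      have : 0 ≤ ∑ τ ∈ types K, |θ τ| := Finset.sum_nonneg fun _ _ => abs_nonneg _
      rw [hΘ]; linarith
    have hS0 : 0 ≤ S := by rw [hS]; positivity
    have hK0 : (0 : ℝ) ≤ K ^ 2 := by positivity
    set η : ℝ := ε / (16 * (K ^ 2 + 1) * (S + 1)) with hη
    set η' : ℝ := ε / (8 * (K ^ 2 + 1) * Θ) with hη'
    have hη0 : 0 < η := by positivity
    have hη'0 : 0 < η' := by positivity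
    have hη'ε : η' ≤ ε := by
      rw [hη', div_le_iff₀ (by positivity)]
      have : 1 ≤ 8 * ((K : ℝ) ^ 2 + 1) * Θ := by nlinarith
      nlinarith
    have hstat : ∀ᶠ n in atTop, ∀ τ ∈ types K, |(cnt (G n) τ : ℝ) - θ τ * N n| ≤ η * N n := by
      rw [Filter.eventually_all_finset]
      intro τ _
      have h3 := (h1 τ).eventually (Metric.closedBall_mem_nhds (θ τ) hη0)
      filter_upwards [h3, hN.eventually_gt_atTop 0] with n hn hNn
      have hNR : (0 : ℝ) < N n := by exact_mod_cast hNn
      rw [Real.dist_eq] at hn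
      have h4 : (cnt (G n) τ : ℝ) - θ τ * N n = ((cnt (G n) τ : ℝ) / N n - θ τ) * N n := by
        field_simp
      rw [h4, abs_mul, abs_of_pos hNR]
      gcongr
    filter_upwards [hK, hstat, hN.eventually_gt_atTop 0] with m hKm hstatm hMpos
    have hMR : (0 : ℝ) < N m := by exact_mod_cast hMpos
    have hlarge : ∀ᶠ n in atTop, (N m : ℝ) ≤ η' * N n := by
      have : Tendsto (fun n => η' * (N n : ℝ)) atTop atTop :=
        Tendsto.const_mul_atTop hη'0 (tendsto_natCast_atTop_atTop.comp hN)
      exact this.eventually_ge_atTop _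
    filter_upwards [hK, hstat, hN.eventually_gt_atTop 0, hlarge] with n hKn hstatn hNpos hn
    have hNR : (0 : ℝ) < N n := by exact_mod_cast hNpos
    obtain ⟨q, hq⟩ : ∃ q, q = N n / N m := ⟨_, rfl⟩
    have hqle : q * N m ≤ N n := by rw [hq]; exact Nat.div_mul_le_self _ _
    obtain ⟨ψ, hψ⟩ := exists_block_embedding hqle hNpos (G n) (G m) K
    have hqR : (q : ℝ) * N m ≤ N n := by exact_mod_cast hqle
    have hrem : (N n : ℝ) - q * N m ≤ N m := by
      have h5 : N n < (q + 1) * N m := by
        have h6 := Nat.div_add_mod (N n) (N m)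
        have h7 := Nat.mod_lt (N n) hMpos
        rw [hq]
        calc N n = N m * (N n / N m) + N n % N m := h6.symm
          _ < N m * (N n / N m) + N m := by omega
          _ = (N n / N m + 1) * N m := by ring
      have h8 : (N n : ℝ) < (q + 1) * N m := by exact_mod_cast h5
      linarith
    refine ⟨q, ψ, ?_, ?_⟩
    · calc (N n : ℝ) - q * N m ≤ N m := hrem
        _ ≤ η' * N n := hn
        _ ≤ ε * N n := by gcongr
    · have hψR : (defect (G n) (G m) ψ : ℝ) ≤ big (G n) K + q * big (G m) K +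
          K ^ 2 * ∑ τ ∈ types K, (((cnt (G n) τ - q * cnt (G m) τ : ℕ) : ℝ) +
            ((q * cnt (G m) τ - cnt (G n) τ : ℕ) : ℝ)) := by
        exact_mod_cast hψ
      have hterm : ∀ τ ∈ types K, (((cnt (G n) τ - q * cnt (G m) τ : ℕ) : ℝ) +
            ((q * cnt (G m) τ - cnt (G n) τ : ℕ) : ℝ)) ≤ 2 * η * N n + |θ τ| * N m := by
        intro τ hτ
        have e1 : (((cnt (G n) τ - q * cnt (G m) τ : ℕ) : ℝ) +
            ((q * cnt (G m) τ - cnt (G n) τ : ℕ) : ℝ)) = |(cnt (G n) τ : ℝ) - q * cnt (G m) τ| := by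
          rcases le_total (cnt (G n) τ) (q * cnt (G m) τ) with h | h
          · have h' : (cnt (G n) τ : ℝ) ≤ q * cnt (G m) τ := by exact_mod_cast h
            rw [Nat.sub_eq_zero_of_le h, Nat.cast_sub h, abs_of_nonpos (by linarith)]
            push_cast; ring
          · have h' : (q : ℝ) * cnt (G m) τ ≤ cnt (G n) τ := by exact_mod_cast h
            rw [Nat.sub_eq_zero_of_le h, Nat.cast_sub h, abs_of_nonneg (by linarith)]
            push_cast; ring
        rw [e1]
        have a1 := hstatn τ hτ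
        have a2 := hstatm τ hτ
        have a3 : |θ τ * ((N n : ℝ) - q * N m)| ≤ |θ τ| * N m := by
          rw [abs_mul, abs_of_nonneg (by linarith : (0 : ℝ) ≤ N n - q * N m)]
          gcongr
        have a4 : |(q : ℝ) * (θ τ * N m - cnt (G m) τ)| ≤ η * N n := by
          rw [abs_mul, abs_of_nonneg (Nat.cast_nonneg q), abs_sub_comm]
          calc (q : ℝ) * |(cnt (G m) τ : ℝ) - θ τ * N m| ≤ q * (η * N m) := by gcongr
            _ = η * (q * N m) := by ring
            _ ≤ η * N n := by gcongr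
        have a5 : (cnt (G n) τ : ℝ) - q * cnt (G m) τ = ((cnt (G n) τ : ℝ) - θ τ * N n) +
            θ τ * ((N n : ℝ) - q * N m) + q * (θ τ * N m - cnt (G m) τ) := by ring
        rw [a5]
        have a6 := abs_add_three ((cnt (G n) τ : ℝ) - θ τ * N n) (θ τ * ((N n : ℝ) - q * N m))
          (q * (θ τ * N m - cnt (G m) τ))
        linarith
      have hsum : ∑ τ ∈ types K, (((cnt (G n) τ - q * cnt (G m) τ : ℕ) : ℝ) +
            ((q * cnt (G m) τ - cnt (G n) τ : ℕ) : ℝ)) ≤ 2 * η * S * N n + Θ * N m := by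
        refine (Finset.sum_le_sum hterm).trans ?_
        rw [Finset.sum_add_distrib, Finset.sum_const, nsmul_eq_mul, ← Finset.sum_mul, hΘ]
        nlinarith
      have hb1 : (big (G n) K : ℝ) ≤ ε / 8 * N n := hKn
      have hb2 : (q : ℝ) * big (G m) K ≤ ε / 8 * N n := by
        calc (q : ℝ) * big (G m) K ≤ q * (ε / 8 * N m) := by gcongr
          _ = ε / 8 * (q * N m) := by ring
          _ ≤ ε / 8 * N n := by gcongr
      have hb3 : (K : ℝ) ^ 2 * (2 * η * S * N n) ≤ ε / 8 * N n := by
        have : (K : ℝ) ^ 2 * (2 * η * S) ≤ ε / 8 := by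
          have e2 : (K : ℝ) ^ 2 * (2 * η * S) = ε / 8 * ((K ^ 2 / (K ^ 2 + 1)) * (S / (S + 1))) := by
            rw [hη]; field_simp; ring
          rw [e2]
          have e3 : (K : ℝ) ^ 2 / (K ^ 2 + 1) ≤ 1 := by rw [div_le_one (by positivity)]; linarith
          have e4 : S / (S + 1) ≤ 1 := by rw [div_le_one (by positivity)]; linarith
          have e5 : (K : ℝ) ^ 2 / (K ^ 2 + 1) * (S / (S + 1)) ≤ 1 * 1 := by gcongr
          nlinarith
        nlinarith
      have hb4 : (K : ℝ) ^ 2 * (Θ * N m) ≤ ε / 8 * N n := by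
        calc (K : ℝ) ^ 2 * (Θ * N m) ≤ K ^ 2 * (Θ * (η' * N n)) := by gcongr
          _ = (K ^ 2 / (K ^ 2 + 1)) * (ε / 8 * N n) := by rw [hη']; field_simp
          _ ≤ 1 * (ε / 8 * N n) := by
              gcongr
              rw [div_le_one (by positivity)]; linarith
          _ = ε / 8 * N n := one_mul _
      have hb5 := mul_le_mul_of_nonneg_left hsum hK0
      have hb6 : (K : ℝ) ^ 2 * (2 * η * S * N n + Θ * N m) =
          K ^ 2 * (2 * η * S * N n) + K ^ 2 * (Θ * N m) := by ring
      have hpos : 0 ≤ ε * N n := by positivity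
      linarith

end Pool.Agent.Work.MP_c348a7_pr
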