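import Pool.Agent.Work.MP_c348a7_pr.Tight
import Pool.Agent.Work.MP_c348a7_pr.Stats

/-!
# Almost sure statements
-/

namespace Pool.Agent.Work.MP_c348a7_pr

open Filter Topology MeasureTheory
open scoped ENNReal

/-- the edge probability `c / n` (truncated to `[0,1]`) -/
noncomputable def edgeProb (c : ℝ) (n : ℕ) : unitInterval := Set.projIcc (0 : ℝ) 1 zero_le_one (c / n)

/-- the law of a sequence of independent binomial random graphs `G(n, c/n)` -/
noncomputable def seqLaw (c : ℝ) : Measure (∀ n : ℕ, SimpleGraph (Fin n)) :=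
  Measure.infinitePi fun n : ℕ => SimpleGraph.binomialRandom (Fin n) (edgeProb c n)

lemma edgeProb_eventually {c : ℝ} (hc : 0 < c) : ∀ᶠ n : ℕ in atTop, ((edgeProb c n : unitInterval) : ℝ) = c / n := by
  have hlarge : ∀ᶠ n : ℕ in atTop, c < (n : ℝ) := tendsto_natCast_atTop_atTop.eventually_gt_atTop c
  filter_upwards [hlarge] with n hn
  have hnR : (0 : ℝ) < n := hc.trans hn
  unfold edgeProb
  rw [Set.projIcc_of_mem zero_le_one ⟨by positivity, (div_le_one hnR).mpr hn.le⟩]

/-- **Concentration**, almost sure form. -/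
lemma ae_tendsto {c : ℝ} (hc : 0 < c) (F : ∀ n : ℕ, SimpleGraph (Fin n) → ℝ) (D : ℝ) (hD : 0 ≤ D)
    (hF : ∀ n, ∀ S : Finset (Sym2 (Fin n)), ∀ e ∈ allEdges n,
      |F n (gr (insert e S)) - F n (gr S)| ≤ D) :
    ∀ᵐ G ∂(seqLaw c), Tendsto (fun n : ℕ =>
      (F n (G n) - bern (allEdges n) (edgeProb c n : ℝ) (fun S => F n (gr S))) / n) atTop (𝓝 0) := by
  classical
  set M : ℕ → ℝ := fun n => bern (allEdges n) (edgeProb c n : ℝ) (fun S => F n (gr S)) with hM
  have key : ∀ j : ℕ, ∀ᵐ G ∂(seqLaw c), ∀ᶠ n : ℕ in atTop,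
      ¬ ((1 / ((j : ℝ) + 1)) * n ≤ |F n (G n) - M n|) := by
    intro j
    set ε : ℝ := 1 / ((j : ℝ) + 1) with hε
    have hε0 : 0 < ε := by positivity
    set t : ℝ := min (1 / (D + 1)) (ε / (c * (D ^ 2 + 1))) with ht
    have ht0 : 0 < t := lt_min (by positivity) (by positivity)
    have htD : t * D ≤ 1 := by
      have h1 : t ≤ 1 / (D + 1) := min_le_left _ _
      calc t * D ≤ 1 / (D + 1) * D := by gcongr
        _ ≤ 1 := by rw [div_mul_eq_mul_div, one_mul, div_le_one (by positivity)]; linarith
    have htc : c * (t * D ^ 2) ≤ ε := by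
      have h1 : t ≤ ε / (c * (D ^ 2 + 1)) := min_le_right _ _
      calc c * (t * D ^ 2) ≤ c * (t * (D ^ 2 + 1)) := by gcongr; linarith
        _ ≤ c * (ε / (c * (D ^ 2 + 1)) * (D ^ 2 + 1)) := by gcongr
        _ = ε := by field_simp
    have hbound : ∀ᶠ n : ℕ in atTop, (SimpleGraph.binomialRandom (Fin n) (edgeProb c n)).real
        {G | ε * n ≤ |F n G - M n|} ≤ 2 * Real.exp (-(t * ε / 2) * n) := by
      filter_upwards [edgeProb_eventually hc, eventually_gt_atTop 0] with n hn hn0
      have hnR : (0 : ℝ) < n := by exact_mod_cast hn0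
      rw [binomial_real_eq]
      have h1 := bern_concentration (E := allEdges n) (p := (edgeProb c n : ℝ))
        (edgeProb c n).2.1 (edgeProb c n).2.2 (D := D) (t := t) (a := ε * n) ht0.le htD
        (fun S => F n (gr S)) (fun S _ e he _ => hF n S e he)
      have h2 : bern (allEdges n) (edgeProb c n : ℝ)
          (fun S => if gr S ∈ {G | ε * n ≤ |F n G - M n|} then (1 : ℝ) else 0) =
          bern (allEdges n) (edgeProb c n : ℝ) (fun S => if ε * n ≤ |F n (gr S) -
            bern (allEdges n) (edgeProb c n : ℝ) (fun S => F n (gr S))| then (1 : ℝ) else 0) := by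
        refine bern_congr fun S _ => ?_
        rfl
      rw [h2]
      refine h1.trans ?_
      gcongr
      rw [card_allEdges, hn, Nat.cast_choose_two]
      have h3 : (n : ℝ) * (n - 1) / 2 * (c / n * (t * D) ^ 2) ≤ n * (t * ε) / 2 := by
        have h4 : (n : ℝ) * (n - 1) / 2 * (c / n * (t * D) ^ 2) =
            (n - 1) / 2 * (t * (c * (t * D ^ 2))) := by field_simp
        rw [h4]
        have h5 : 0 ≤ t * (c * (t * D ^ 2)) := by positivity
        calc ((n : ℝ) - 1) / 2 * (t * (c * (t * D ^ 2))) ≤ n / 2 * (t * (c * (t * D ^ 2))) := by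
              gcongr; linarith
          _ ≤ n / 2 * (t * ε) := by gcongr
          _ = n * (t * ε) / 2 := by ring
      have h6 : t * (ε * n) = n * (t * ε) := by ring
      have h7 : -(t * ε / 2) * n = n * (t * ε) / 2 - n * (t * ε) := by ring
      rw [h6, h7]
      linarith
    have hsum : (∑' n : ℕ, (seqLaw c) {G | ε * n ≤ |F n (G n) - M n|}) ≠ ∞ := by
      have hmeas : ∀ n : ℕ, (seqLaw c) {G | ε * n ≤ |F n (G n) - M n|} =
          (SimpleGraph.binomialRandom (Fin n) (edgeProb c n)) {G | ε * n ≤ |F n G - M n|} := by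
        intro n
        have := measurableSingletonClass_simpleGraph n
        have h1 := (measurePreserving_eval_infinitePi
          (fun n : ℕ => SimpleGraph.binomialRandom (Fin n) (edgeProb c n)) n).measure_preimage
          (s := {G | ε * n ≤ |F n G - M n|}) (Set.toFinite _).measurableSet.nullMeasurableSet
        rw [← h1]
        rfl
      obtain ⟨n₀, hn₀⟩ := eventually_atTop.mp hbound
      have hsummable : Summable (fun n : ℕ => 2 * Real.exp (-(t * ε / 2) * n)) := by
        refine Summable.mul_left 2 ?_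
        have : (fun n : ℕ => Real.exp (-(t * ε / 2) * n)) = fun n : ℕ => (Real.exp (-(t * ε / 2))) ^ n := by
          funext n
          rw [← Real.exp_nat_mul]; ring_nf
        rw [this]
        refine summable_geometric_of_lt_one (Real.exp_pos _).le ?_
        rw [Real.exp_lt_one_iff]
        have : 0 < t * ε / 2 := by positivity
        linarith
      have hle : ∀ n : ℕ, (seqLaw c) {G | ε * n ≤ |F n (G n) - M n|} ≤
          ENNReal.ofReal (2 * Real.exp (-(t * ε / 2) * n)) + (if n < n₀ then 1 else 0) := by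
        intro n
        rw [hmeas n]
        by_cases hn : n < n₀
        · rw [if_pos hn]
          exact prob_le_one.trans le_add_self
        · rw [if_neg hn, add_zero]
          have h1 := hn₀ n (not_lt.mp hn)
          rw [← ofReal_measureReal]
          exact ENNReal.ofReal_le_ofReal h1
      refine ne_top_of_le_ne_top ?_ (ENNReal.tsum_le_tsum hle)
      rw [ENNReal.tsum_add]
      refine ENNReal.add_ne_top.mpr ⟨?_, ?_⟩
      · rw [← ENNReal.ofReal_tsum_of_nonneg (fun n => by positivity) hsummable]
        exact ENNReal.ofReal_ne_top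
      · rw [tsum_eq_sum (s := Finset.range n₀)]
        · refine ENNReal.sum_ne_top.mpr fun n _ => ?_
          split_ifs <;> simp
        · intro n hn
          rw [Finset.mem_range] at hn
          exact if_neg hn
    exact ae_eventually_notMem hsum
  rw [← ae_all_iff] at key
  filter_upwards [key] with G hG
  rw [Metric.tendsto_atTop]
  intro ε hε
  obtain ⟨j, hj⟩ := exists_nat_one_div_lt hε
  obtain ⟨n₁, hn₁⟩ := eventually_atTop.mp (hG j)
  refine ⟨n₁ + 1, fun n hn => ?_⟩
  have h1 := hn₁ n (by omega)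
  have hnR : (0 : ℝ) < n := by
    have : 0 < n := by omega
    exact_mod_cast this
  rw [not_le] at h1
  rw [Real.dist_eq, sub_zero, abs_div, abs_of_pos hnR, div_lt_iff₀ hnR]
  exact h1.trans (by gcongr)

end Pool.Agent.Work.MP_c348a7_pr
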