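import Mathlib

/-!
# Random subsets of a finite set: elementary calculus
-/

namespace Pool.Agent.Work.MP_c348a7_pr

open Finset

set_option linter.unusedSectionVars false

variable {α : Type*} [DecidableEq α]

/-- expectation of `f S` when `S` is a random subset of `E` with inclusion probability `p` -/
noncomputable def bern (E : Finset α) (p : ℝ) (f : Finset α → ℝ) : ℝ :=
  ∑ S ∈ E.powerset, p ^ S.card * (1 - p) ^ (E.card - S.card) * f S

lemma bern_congr {E : Finset α} {p : ℝ} {f g : Finset α → ℝ} (h : ∀ S ⊆ E, f S = g S) :
    bern E p f = bern E p g := by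
  unfold bern
  exact Finset.sum_congr rfl fun S hS => by rw [h S (Finset.mem_powerset.mp hS)]

lemma bern_empty (p : ℝ) (f : Finset α → ℝ) : bern ∅ p f = f ∅ := by
  simp [bern]

lemma bern_insert {E : Finset α} {e : α} (he : e ∉ E) (p : ℝ) (f : Finset α → ℝ) :
    bern (insert e E) p f = p * bern E p (fun S => f (insert e S)) + (1 - p) * bern E p f := by
  unfold bern
  rw [Finset.sum_powerset_insert he, add_comm, Finset.mul_sum, Finset.mul_sum,
    Finset.card_insert_of_notMem he]
  congr 1
  · refine Finset.sum_congr rfl fun S hS => ?_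
    have heS : e ∉ S := fun h => he (Finset.mem_powerset.mp hS h)
    rw [Finset.card_insert_of_notMem heS, Nat.add_sub_add_right, pow_succ]
    ring
  · refine Finset.sum_congr rfl fun S hS => ?_
    have hle : S.card ≤ E.card := Finset.card_le_card (Finset.mem_powerset.mp hS)
    rw [Nat.succ_sub hle, pow_succ]
    ring

lemma bern_const (E : Finset α) (p c : ℝ) : bern E p (fun _ => c) = c := by
  induction E using Finset.induction_on with
  | empty => exact bern_empty p _
  | insert e E he ih => rw [bern_insert he, ih]; ring

lemma bern_add (E : Finset α) (p : ℝ) (f g : Finset α → ℝ) :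
    bern E p (fun S => f S + g S) = bern E p f + bern E p g := by
  unfold bern
  rw [← Finset.sum_add_distrib]
  exact Finset.sum_congr rfl fun S _ => by ring

lemma bern_mul (E : Finset α) (p c : ℝ) (f : Finset α → ℝ) :
    bern E p (fun S => c * f S) = c * bern E p f := by
  unfold bern
  rw [Finset.mul_sum]
  exact Finset.sum_congr rfl fun S _ => by ring

lemma bern_sum {ι : Type*} (s : Finset ι) (E : Finset α) (p : ℝ) (f : ι → Finset α → ℝ) :
    bern E p (fun S => ∑ i ∈ s, f i S) = ∑ i ∈ s, bern E p (f i) := by
  unfold bern
  rw [Finset.sum_comm]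
  exact Finset.sum_congr rfl fun S _ => by rw [Finset.mul_sum]

lemma bern_mono {E : Finset α} {p : ℝ} (hp0 : 0 ≤ p) (hp1 : p ≤ 1) {f g : Finset α → ℝ}
    (h : ∀ S ⊆ E, f S ≤ g S) : bern E p f ≤ bern E p g := by
  unfold bern
  refine Finset.sum_le_sum fun S hS => ?_
  have : 0 ≤ 1 - p := by linarith
  exact mul_le_mul_of_nonneg_left (h S (Finset.mem_powerset.mp hS)) (by positivity)

lemma bern_nonneg {E : Finset α} {p : ℝ} (hp0 : 0 ≤ p) (hp1 : p ≤ 1) {f : Finset α → ℝ}
    (h : ∀ S ⊆ E, 0 ≤ f S) : 0 ≤ bern E p f := by
  rw [← bern_const E p 0]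
  exact bern_mono hp0 hp1 h

/-- marginals -/
lemma bern_inter {E T : Finset α} (hT : T ⊆ E) (p : ℝ) (f : Finset α → ℝ) :
    bern E p (fun S => f (S ∩ T)) = bern T p f := by
  induction E using Finset.induction_on generalizing T f with
  | empty =>
    have : T = ∅ := Finset.subset_empty.mp hT
    subst this
    rw [bern_empty, bern_empty]; simp
  | insert e E he ih =>
    rw [bern_insert he]
    by_cases heT : e ∈ T
    · have hT' : T.erase e ⊆ E := by
        intro x hx
        rw [Finset.mem_erase] at hx
        exact (Finset.mem_insert.mp (hT hx.2)).resolve_left hx.1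
      have h1 : bern E p (fun S => f (insert e S ∩ T)) =
          bern E p (fun S => (fun S' => f (insert e S')) (S ∩ T.erase e)) := by
        refine bern_congr fun S hS => ?_
        have heS : e ∉ S := fun h => he (hS h)
        congr 1
        ext x
        simp only [Finset.mem_inter, Finset.mem_insert, Finset.mem_erase]
        constructor
        · rintro ⟨rfl | h, h'⟩
          · exact Or.inl rfl
          · by_cases hx : x = e
            · exact Or.inl hx
            · exact Or.inr ⟨h, hx, h'⟩
        · rintro (rfl | ⟨h, h', h''⟩)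
          · exact ⟨Or.inl rfl, heT⟩
          · exact ⟨Or.inr h, h''⟩
      have h2 : bern E p (fun S => f (S ∩ T)) = bern E p (fun S => f (S ∩ T.erase e)) := by
        refine bern_congr fun S hS => ?_
        have heS : e ∉ S := fun h => he (hS h)
        congr 1
        ext x
        simp only [Finset.mem_inter, Finset.mem_erase]
        constructor
        · rintro ⟨h, h'⟩
          exact ⟨h, fun hx => heS (hx ▸ h), h'⟩
        · rintro ⟨h, _, h'⟩
          exact ⟨h, h'⟩
      rw [h1, h2, ih hT' (fun S' => f (insert e S')), ih hT' f]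
      conv_rhs => rw [← Finset.insert_erase heT, bern_insert (Finset.notMem_erase e T)]
    · have hT' : T ⊆ E := fun x hx =>
        (Finset.mem_insert.mp (hT hx)).resolve_left (fun h => heT (h ▸ hx))
      have h1 : bern E p (fun S => f (insert e S ∩ T)) = bern E p (fun S => f (S ∩ T)) := by
        refine bern_congr fun S _ => ?_
        rw [Finset.insert_inter_of_notMem heT]
      rw [h1, ih hT' f]
      ring

lemma bern_single {T A : Finset α} (hA : A ⊆ T) (p : ℝ) :
    bern T p (fun S => if S = A then 1 else 0) = p ^ A.card * (1 - p) ^ (T.card - A.card) := by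
  unfold bern
  rw [Finset.sum_eq_single_of_mem A (Finset.mem_powerset.mpr hA)]
  · simp
  · intro B _ hBA
    simp [hBA]

/-- conditioning on one element -/
lemma bern_mem {E : Finset α} {e : α} (he : e ∈ E) (p : ℝ) (f : Finset α → ℝ) :
    bern E p (fun S => if e ∈ S then f S else 0) = p * bern E p (fun S => f (insert e S)) := by
  have hE : E = insert e (E.erase e) := (Finset.insert_erase he).symm
  have hne : e ∉ E.erase e := Finset.notMem_erase e E
  rw [hE, bern_insert hne, bern_insert hne]
  have h1 : bern (E.erase e) p (fun S => if e ∈ insert e S then f (insert e S) else 0) =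
      bern (E.erase e) p (fun S => f (insert e S)) := by
    refine bern_congr fun S _ => ?_
    rw [if_pos (Finset.mem_insert_self e S)]
  have h2 : bern (E.erase e) p (fun S => if e ∈ S then f S else 0) = 0 := by
    refine (bern_congr fun S hS => ?_).trans (bern_const (E.erase e) p 0)
    exact if_neg (fun h => hne (hS h))
  have h3 : bern (E.erase e) p (fun S => f (insert e (insert e S))) =
      bern (E.erase e) p (fun S => f (insert e S)) := by
    refine bern_congr fun S _ => ?_
    rw [Finset.insert_idem]
  rw [h1, h2, h3]
  ring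

/-- **Exponential moments** of functions with bounded differences. -/
lemma bern_mgf {E : Finset α} {p : ℝ} (hp0 : 0 ≤ p) (hp1 : p ≤ 1) {D t : ℝ}
    (ht : |t| * D ≤ 1) (f : Finset α → ℝ)
    (hf : ∀ S ⊆ E, ∀ e ∈ E, e ∉ S → |f (insert e S) - f S| ≤ D) :
    bern E p (fun S => Real.exp (t * (f S - bern E p f))) ≤
      Real.exp (E.card * (p * (|t| * D) ^ 2)) := by
  induction E using Finset.induction_on generalizing f with
  | empty => rw [bern_empty, bern_empty]; simp
  | insert e E he ih =>
    set g : Finset α → ℝ := fun S => p * f (insert e S) + (1 - p) * f S with hg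
    have hM : bern (insert e E) p f = bern E p g := by
      rw [bern_insert he, hg, bern_add, bern_mul, bern_mul]
    have hgD : ∀ S ⊆ E, ∀ e' ∈ E, e' ∉ S → |g (insert e' S) - g S| ≤ D := by
      intro S hS e' he' he'S
      have hee' : e' ≠ e := fun h => he (h ▸ he')
      have h1 := hf (insert e S) (Finset.insert_subset_insert e hS) e' (Finset.mem_insert_of_mem he')
        (by simp [hee', he'S])
      have h2 := hf S (hS.trans (Finset.subset_insert e E)) e' (Finset.mem_insert_of_mem he') he'S
      have h3 : g (insert e' S) - g S = p * (f (insert e' (insert e S)) - f (insert e S)) +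
          (1 - p) * (f (insert e' S) - f S) := by
        rw [hg]
        simp only
        rw [Finset.insert_comm e e' S]
        ring
      rw [h3]
      calc |p * (f (insert e' (insert e S)) - f (insert e S)) + (1 - p) * (f (insert e' S) - f S)|
          ≤ |p * (f (insert e' (insert e S)) - f (insert e S))| +
            |(1 - p) * (f (insert e' S) - f S)| := abs_add_le _ _
        _ = p * |f (insert e' (insert e S)) - f (insert e S)| + (1 - p) * |f (insert e' S) - f S| := by
            rw [abs_mul, abs_mul, abs_of_nonneg hp0, abs_of_nonneg (by linarith : 0 ≤ 1 - p)]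
        _ ≤ p * D + (1 - p) * D := by
            have : 0 ≤ 1 - p := by linarith
            gcongr
        _ = D := by ring
    have ih' := ih g hgD
    rw [hM, bern_insert he, ← bern_mul, ← bern_mul, ← bern_add]
    have hpt : ∀ S ⊆ E, p * Real.exp (t * (f (insert e S) - bern E p g)) +
        (1 - p) * Real.exp (t * (f S - bern E p g)) ≤
        Real.exp (p * (|t| * D) ^ 2) * Real.exp (t * (g S - bern E p g)) := by
      intro S hS
      set y : ℝ := t * (f (insert e S) - f S) with hy
      have heS : e ∉ S := fun h => he (hS h)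
      have hyD : |y| ≤ |t| * D := by
        rw [hy, abs_mul]
        exact mul_le_mul_of_nonneg_left
          (hf S (hS.trans (Finset.subset_insert e E)) e (Finset.mem_insert_self e E) heS) (abs_nonneg _)
      have hy1 : |y| ≤ 1 := hyD.trans ht
      have e1 : t * (f (insert e S) - bern E p g) = (1 - p) * y + t * (g S - bern E p g) := by
        rw [hy, hg]; ring
      have e2 : t * (f S - bern E p g) = -(p * y) + t * (g S - bern E p g) := by
        rw [hy, hg]; ring
      rw [e1, e2, Real.exp_add, Real.exp_add]
      have hq : 0 ≤ 1 - p := by linarith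
      have b1 : Real.exp ((1 - p) * y) ≤ 1 + (1 - p) * y + ((1 - p) * y) ^ 2 := by
        have := Real.abs_exp_sub_one_sub_id_le (x := (1 - p) * y) (by
          rw [abs_mul, abs_of_nonneg hq]
          nlinarith [abs_nonneg y])
        have := (abs_le.mp this).2
        linarith
      have b2 : Real.exp (-(p * y)) ≤ 1 + -(p * y) + (p * y) ^ 2 := by
        have := Real.abs_exp_sub_one_sub_id_le (x := -(p * y)) (by
          rw [abs_neg, abs_mul, abs_of_nonneg hp0]
          nlinarith [abs_nonneg y])
        have := (abs_le.mp this).2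
        have h5 : (-(p * y)) ^ 2 = (p * y) ^ 2 := by ring
        linarith
      have b3 : p * Real.exp ((1 - p) * y) + (1 - p) * Real.exp (-(p * y)) ≤
          Real.exp (p * (|t| * D) ^ 2) := by
        calc p * Real.exp ((1 - p) * y) + (1 - p) * Real.exp (-(p * y))
            ≤ p * (1 + (1 - p) * y + ((1 - p) * y) ^ 2) + (1 - p) * (1 + -(p * y) + (p * y) ^ 2) := by
              gcongr
          _ = 1 + p * (1 - p) * y ^ 2 := by ring
          _ ≤ 1 + p * (|t| * D) ^ 2 := by
              have h6 : y ^ 2 ≤ (|t| * D) ^ 2 := by
                rw [← sq_abs y]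
                exact pow_le_pow_left₀ (abs_nonneg _) hyD 2
              have h7 : p * (1 - p) * y ^ 2 ≤ p * y ^ 2 := by nlinarith [sq_nonneg y, mul_nonneg hp0 hp0, mul_nonneg (mul_nonneg hp0 hp0) (sq_nonneg y)]
              have h8 : p * y ^ 2 ≤ p * (|t| * D) ^ 2 := mul_le_mul_of_nonneg_left h6 hp0
              linarith
          _ ≤ Real.exp (p * (|t| * D) ^ 2) := by
              have := Real.add_one_le_exp (p * (|t| * D) ^ 2)
              linarith
      calc p * (Real.exp ((1 - p) * y) * Real.exp (t * (g S - bern E p g))) +
          (1 - p) * (Real.exp (-(p * y)) * Real.exp (t * (g S - bern E p g)))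
          = (p * Real.exp ((1 - p) * y) + (1 - p) * Real.exp (-(p * y))) *
            Real.exp (t * (g S - bern E p g)) := by ring
        _ ≤ Real.exp (p * (|t| * D) ^ 2) * Real.exp (t * (g S - bern E p g)) := by
            gcongr
    refine (bern_mono hp0 hp1 hpt).trans ?_
    rw [bern_mul, Finset.card_insert_of_notMem he]
    calc Real.exp (p * (|t| * D) ^ 2) * bern E p (fun S => Real.exp (t * (g S - bern E p g)))
        ≤ Real.exp (p * (|t| * D) ^ 2) * Real.exp (E.card * (p * (|t| * D) ^ 2)) := by gcongr
      _ = Real.exp ((E.card + 1 : ℕ) * (p * (|t| * D) ^ 2)) := by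
          rw [← Real.exp_add]
          push_cast
          ring_nf

/-- **Concentration** of functions with bounded differences. -/
lemma bern_concentration {E : Finset α} {p : ℝ} (hp0 : 0 ≤ p) (hp1 : p ≤ 1) {D t a : ℝ}
    (ht0 : 0 ≤ t) (ht : t * D ≤ 1) (f : Finset α → ℝ)
    (hf : ∀ S ⊆ E, ∀ e ∈ E, e ∉ S → |f (insert e S) - f S| ≤ D) :
    bern E p (fun S => if a ≤ |f S - bern E p f| then 1 else 0) ≤
      2 * Real.exp (E.card * (p * (t * D) ^ 2) - t * a) := by
  have h1 := bern_mgf hp0 hp1 (D := D) (t := t) (by rwa [abs_of_nonneg ht0]) f hf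
  have h2 := bern_mgf hp0 hp1 (D := D) (t := -t) (by rwa [abs_neg, abs_of_nonneg ht0]) f hf
  rw [abs_of_nonneg ht0] at h1
  rw [abs_neg, abs_of_nonneg ht0] at h2
  have hpt : ∀ S ⊆ E, (if a ≤ |f S - bern E p f| then (1 : ℝ) else 0) ≤
      Real.exp (-(t * a)) * Real.exp (t * (f S - bern E p f)) +
      Real.exp (-(t * a)) * Real.exp (-t * (f S - bern E p f)) := by
    intro S _
    by_cases h : a ≤ |f S - bern E p f|
    · rw [if_pos h, ← Real.exp_add, ← Real.exp_add]
      rcases le_total 0 (f S - bern E p f) with hs | hs
      · rw [abs_of_nonneg hs] at h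
        have h3 : 1 ≤ Real.exp (-(t * a) + t * (f S - bern E p f)) := by
          apply Real.one_le_exp
          nlinarith
        have := Real.exp_pos (-(t * a) + -t * (f S - bern E p f))
        linarith
      · rw [abs_of_nonpos hs] at h
        have h3 : 1 ≤ Real.exp (-(t * a) + -t * (f S - bern E p f)) := by
          apply Real.one_le_exp
          nlinarith
        have := Real.exp_pos (-(t * a) + t * (f S - bern E p f))
        linarith
    · rw [if_neg h]; positivity
  refine (bern_mono hp0 hp1 hpt).trans ?_
  rw [bern_add, bern_mul, bern_mul]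
  have h4 : Real.exp (E.card * (p * (t * D) ^ 2) - t * a) =
      Real.exp (-(t * a)) * Real.exp (E.card * (p * (t * D) ^ 2)) := by
    rw [← Real.exp_add]; ring_nf
  rw [h4]
  have h5 : 0 < Real.exp (-(t * a)) := Real.exp_pos _
  nlinarith

end Pool.Agent.Work.MP_c348a7_pr
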