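import Pool.Agent.Work.MP_c348a7_pr.Defs

/-!
# Blocks of vertices: independence and convexity
-/

namespace Pool.Agent.Work.MP_c348a7_pr

open MeasureTheory Filter Topology Set
open scoped ENNReal NNReal BoundedContinuousFunction

/-- the uniform measure on colourings -/
noncomputable abbrev cm (N : ℕ) : Measure (Fin N → unitInterval) :=
  Measure.pi fun _ : Fin N => (volume : Measure unitInterval)

lemma map_blocks {N q M : ℕ} (ψ : Fin q × Fin M ↪ Fin N) :
    Measure.pi (fun _ : Fin q => cm M) =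
      (cm N).map (fun (σ : Fin N → unitInterval) (i : Fin q) (v : Fin M) => σ (ψ (i, v))) := by
  classical
  have hT : Measurable (fun (σ : Fin N → unitInterval) (i : Fin q) (v : Fin M) => σ (ψ (i, v))) := by
    refine measurable_pi_lambda _ fun i => measurable_pi_lambda _ fun v => measurable_pi_apply _
  refine Measure.pi_eq_generateFrom (C := fun _ => pi univ '' pi univ fun _ : Fin M =>
    { s : Set unitInterval | MeasurableSet s }) (fun _ => generateFrom_pi) (fun _ => isPiSystem_pi)
    (fun _ => Measure.FiniteSpanningSetsIn.pi fun _ => (volume : Measure unitInterval).toFiniteSpanningSetsIn) ?_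
  intro s hs
  choose t ht hts using hs
  have hts' : s = fun i => pi univ (t i) := by funext i; exact (hts i).symm
  subst hts'
  have hmeas : ∀ i v, MeasurableSet (t i v) := fun i v => ht i v (mem_univ _)
  rw [Measure.map_apply hT]
  · have hpre : (fun (σ : Fin N → unitInterval) (i : Fin q) (v : Fin M) => σ (ψ (i, v))) ⁻¹'
        (pi univ fun i => pi univ (t i)) =
        pi univ (fun x : Fin N => if h : ∃ p, ψ p = x then t h.choose.1 h.choose.2 else univ) := by
      ext σ
      simp only [mem_preimage, mem_univ_pi]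
      constructor
      · intro h x
        by_cases hx : ∃ p, ψ p = x
        · rw [dif_pos hx]
          have h1 := h hx.choose.1 hx.choose.2
          rwa [Prod.mk.eta, hx.choose_spec] at h1
        · rw [dif_neg hx]; exact mem_univ _
      · intro h i v
        have h1 := h (ψ (i, v))
        have hx : ∃ p, ψ p = ψ (i, v) := ⟨(i, v), rfl⟩
        rw [dif_pos hx] at h1
        have h2 : hx.choose = (i, v) := ψ.injective hx.choose_spec
        rw [h2] at h1
        exact h1
    rw [hpre, Measure.pi_pi]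
    have h3 : ∀ i : Fin q, (cm M) (pi univ (t i)) = ∏ v, (volume : Measure unitInterval) (t i v) := by
      intro i
      rw [Measure.pi_pi]
    rw [Finset.prod_congr rfl fun i _ => h3 i, ← Fintype.prod_prod_type'
      (f := fun i v => (volume : Measure unitInterval) (t i v))]
    have hsplit : ∏ x : Fin N, (volume : Measure unitInterval)
        (if h : ∃ p, ψ p = x then t h.choose.1 h.choose.2 else univ) =
        ∏ x ∈ Finset.univ.map ψ, (volume : Measure unitInterval)
        (if h : ∃ p, ψ p = x then t h.choose.1 h.choose.2 else univ) := by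
      symm
      refine Finset.prod_subset (Finset.subset_univ _) ?_
      intro x _ hx
      have hx' : ¬ ∃ p, ψ p = x := by
        rintro ⟨p, rfl⟩
        exact hx (Finset.mem_map_of_mem _ (Finset.mem_univ _))
      rw [dif_neg hx', measure_univ]
    rw [hsplit, Finset.prod_map]
    refine Finset.prod_congr rfl fun p _ => ?_
    have hx : ∃ p', ψ p' = ψ p := ⟨p, rfl⟩
    rw [dif_pos hx]
    have h2 : hx.choose = p := ψ.injective hx.choose_spec
    rw [h2]
  · exact MeasurableSet.univ_pi fun i => MeasurableSet.univ_pi fun v => hmeas i v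

lemma pi_blocks {N q M : ℕ} (ψ : Fin q × Fin M ↪ Fin N) (B : Set (Fin M → unitInterval))
    (hB : MeasurableSet B) :
    (cm N) {σ | ∀ i, (fun v => σ (ψ (i, v))) ∈ B} = ((cm M) B) ^ q := by
  have hT : Measurable (fun (σ : Fin N → unitInterval) (i : Fin q) (v : Fin M) => σ (ψ (i, v))) := by
    refine measurable_pi_lambda _ fun i => measurable_pi_lambda _ fun v => measurable_pi_apply _
  have h1 := congrArg (fun μ => μ (pi univ fun _ : Fin q => B)) (map_blocks ψ)
  simp only [Measure.pi_pi, Finset.prod_const, Finset.card_univ, Fintype.card_fin] at h1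
  rw [h1, Measure.map_apply hT (MeasurableSet.univ_pi fun _ => hB)]
  congr 1
  ext σ
  simp

open Classical in
/-- ordered pairs of adjacent vertices -/
noncomputable def adjPairs {N : ℕ} (G : SimpleGraph (Fin N)) : Finset (Fin N × Fin N) :=
  Finset.univ.filter (fun p => G.Adj p.1 p.2)

open Classical in
/-- ordered pairs of adjacent vertices of the copies of `H` placed on the blocks -/
noncomputable def blockPairs {M N q : ℕ} (H : SimpleGraph (Fin M)) (ψ : Fin q × Fin M ↪ Fin N) :
    Finset (Fin N × Fin N) :=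
  (Finset.univ ×ˢ adjPairs H).image
    (fun a : Fin q × (Fin M × Fin M) => (ψ (a.1, a.2.1), ψ (a.1, a.2.2)))

open Classical in
/-- number of ordered pairs on which `G` differs from the copies of `H` on the blocks -/
noncomputable def defect {M N q : ℕ} (G : SimpleGraph (Fin N)) (H : SimpleGraph (Fin M))
    (ψ : Fin q × Fin M ↪ Fin N) : ℕ :=
  (adjPairs G \ blockPairs H ψ).card + (blockPairs H ψ \ adjPairs G).card

lemma vf_block {M N q : ℕ} (hM : 0 < M) (hq : 0 < q) (ψ : Fin q × Fin M ↪ Fin N)
    (f : unitInterval → ℝ) (C : ℝ) (hf0 : ∀ x, 0 ≤ f x) (hfC : ∀ x, f x ≤ C)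
    (σ : Fin N → unitInterval) :
    |vf f σ - (q : ℝ)⁻¹ * ∑ i, vf f (fun v => σ (ψ (i, v)))| ≤
      C * (((N : ℝ) - q * M) / N) := by
  have hqM : q * M ≤ N := by
    have := Fintype.card_le_of_embedding ψ
    simpa using this
  have hN : 0 < N := lt_of_lt_of_le (Nat.mul_pos hq hM) hqM
  have hMR : (0 : ℝ) < M := by exact_mod_cast hM
  have hqR : (0 : ℝ) < q := by exact_mod_cast hq
  have hNR : (0 : ℝ) < N := by exact_mod_cast hN
  have hqMR : (q : ℝ) * M ≤ N := by exact_mod_cast hqM
  set S : ℝ := ∑ p : Fin q × Fin M, f (σ (ψ p)) with hS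
  set R : ℝ := ∑ x ∈ (Finset.univ.map ψ)ᶜ, f (σ x) with hR
  have h1 : ∑ u, f (σ u) = S + R := by
    rw [← Finset.sum_add_sum_compl (Finset.univ.map ψ), Finset.sum_map]
  have h2 : (q : ℝ)⁻¹ * ∑ i, vf f (fun v => σ (ψ (i, v))) = S / (q * M) := by
    unfold vf
    rw [hS, Fintype.sum_prod_type, ← Finset.mul_sum]
    field_simp
  have hS0 : 0 ≤ S := Finset.sum_nonneg fun _ _ => hf0 _
  have hSC : S ≤ C * (q * M) := by
    calc S ≤ ∑ p : Fin q × Fin M, C := Finset.sum_le_sum fun _ _ => hfC _
      _ = C * (q * M) := by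
        rw [Finset.sum_const, Finset.card_univ, Fintype.card_prod, Fintype.card_fin,
          Fintype.card_fin, nsmul_eq_mul]
        push_cast
        ring
  have hR0 : 0 ≤ R := Finset.sum_nonneg fun _ _ => hf0 _
  have hRC : R ≤ C * (N - q * M) := by
    calc R ≤ ∑ x ∈ (Finset.univ.map ψ)ᶜ, C := Finset.sum_le_sum fun _ _ => hfC _
      _ = C * (N - q * M) := by
        rw [Finset.sum_const, Finset.card_compl, Finset.card_map, Finset.card_univ,
          Fintype.card_prod, Fintype.card_fin, Fintype.card_fin, Fintype.card_fin, nsmul_eq_mul]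
        push_cast [Nat.cast_sub hqM]
        ring
  have h3 : vf f σ = (S + R) / N := by
    unfold vf
    rw [h1]; field_simp
  rw [h2, h3]
  have hC0 : 0 ≤ C := by
    have := (hf0 (σ ⟨0, hN⟩)).trans (hfC _)
    exact this
  have h4 : (S + R) / N - S / (q * M) = R / N - S * ((N - q * M) / (N * (q * M))) := by
    field_simp
    ring
  rw [h4]
  have h5 : 0 ≤ R / N := by positivity
  have h6 : R / N ≤ C * ((N - q * M) / N) := by
    rw [← mul_div_assoc]
    exact div_le_div_of_nonneg_right hRC hNR.le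
  have h7 : 0 ≤ S * ((N - q * M) / (N * (q * M))) := by
    have : 0 ≤ (N : ℝ) - q * M := by linarith
    positivity
  have h8 : S * ((N - q * M) / (N * (q * M))) ≤ C * ((N - q * M) / N) := by
    have hnn : 0 ≤ (N : ℝ) - q * M := by linarith
    calc S * ((N - q * M) / (N * (q * M))) ≤ (C * (q * M)) * ((N - q * M) / (N * (q * M))) := by
          gcongr
      _ = C * ((N - q * M) / N) := by field_simp
  rw [abs_le]
  constructor <;> linarith

lemma ef_block {M N q : ℕ} (hM : 0 < M) (hq : 0 < q) (G : SimpleGraph (Fin N))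
    (H : SimpleGraph (Fin M)) (ψ : Fin q × Fin M ↪ Fin N)
    (g : unitInterval × unitInterval → ℝ) (C : ℝ) (hg0 : ∀ x, 0 ≤ g x) (hgC : ∀ x, g x ≤ C)
    (σ : Fin N → unitInterval) :
    |ef G g σ - (q : ℝ)⁻¹ * ∑ i, ef H g (fun v => σ (ψ (i, v)))| ≤
      C * (defect G H ψ / N) + C * ((adjPairs H).card / M * (((N : ℝ) - q * M) / N)) := by
  classical
  have hqM : q * M ≤ N := by
    have := Fintype.card_le_of_embedding ψ
    simpa using this
  have hN : 0 < N := lt_of_lt_of_le (Nat.mul_pos hq hM) hqM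
  have hMR : (0 : ℝ) < M := by exact_mod_cast hM
  have hqR : (0 : ℝ) < q := by exact_mod_cast hq
  have hNR : (0 : ℝ) < N := by exact_mod_cast hN
  have hqMR : (q : ℝ) * M ≤ N := by exact_mod_cast hqM
  have hC0 : 0 ≤ C := (hg0 (σ ⟨0, hN⟩, σ ⟨0, hN⟩)).trans (hgC _)
  set F : Fin N × Fin N → ℝ := fun p => g (σ p.1, σ p.2) with hF
  have hF0 : ∀ p, 0 ≤ F p := fun p => hg0 _
  have hFC : ∀ p, F p ≤ C := fun p => hgC _
  set B := blockPairs H ψ with hB
  have hA : ef G g σ = (N : ℝ)⁻¹ * ∑ p ∈ adjPairs G, F p := by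
    unfold ef adjPairs
    rfl
  have hBsum : ∑ p ∈ B, F p = ∑ i : Fin q, ∑ p ∈ adjPairs H, g (σ (ψ (i, p.1)), σ (ψ (i, p.2))) := by
    rw [hB, blockPairs, Finset.sum_image]
    · rw [Finset.sum_product]
    · rintro ⟨i, u, v⟩ _ ⟨i', u', v'⟩ _ h
      simp only [Prod.mk.injEq, EmbeddingLike.apply_eq_iff_eq] at h
      obtain ⟨⟨h1, h2⟩, ⟨h3, h4⟩⟩ := h
      simp only [Prod.mk.injEq]
      exact ⟨h1, h2, h4⟩
  have h2 : (q : ℝ)⁻¹ * ∑ i, ef H g (fun v => σ (ψ (i, v))) = (∑ p ∈ B, F p) / (q * M) := by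
    rw [hBsum]
    have : ∀ i : Fin q, ef H g (fun v => σ (ψ (i, v))) =
        (M : ℝ)⁻¹ * ∑ p ∈ adjPairs H, g (σ (ψ (i, p.1)), σ (ψ (i, p.2))) := by
      intro i
      unfold ef adjPairs
      rfl
    rw [Finset.sum_congr rfl fun i _ => this i, ← Finset.mul_sum]
    field_simp
  set SA : ℝ := ∑ p ∈ adjPairs G, F p with hSA
  set SB : ℝ := ∑ p ∈ B, F p with hSB
  have hdiff : |SA - SB| ≤ C * defect G H ψ := by
    have e1 : SA = ∑ p ∈ adjPairs G \ B, F p + ∑ p ∈ adjPairs G ∩ B, F p := by
      rw [hSA, add_comm, Finset.sum_inter_add_sum_sdiff]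
    have e2 : SB = ∑ p ∈ B \ adjPairs G, F p + ∑ p ∈ adjPairs G ∩ B, F p := by
      rw [hSB, add_comm, Finset.inter_comm, Finset.sum_inter_add_sum_sdiff]
    have e3 : 0 ≤ ∑ p ∈ adjPairs G \ B, F p := Finset.sum_nonneg fun _ _ => hF0 _
    have e4 : 0 ≤ ∑ p ∈ B \ adjPairs G, F p := Finset.sum_nonneg fun _ _ => hF0 _
    have e5 : ∑ p ∈ adjPairs G \ B, F p ≤ C * (adjPairs G \ B).card := by
      calc _ ≤ ∑ p ∈ adjPairs G \ B, C := Finset.sum_le_sum fun _ _ => hFC _
        _ = _ := by rw [Finset.sum_const, nsmul_eq_mul]; ring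
    have e6 : ∑ p ∈ B \ adjPairs G, F p ≤ C * (B \ adjPairs G).card := by
      calc _ ≤ ∑ p ∈ B \ adjPairs G, C := Finset.sum_le_sum fun _ _ => hFC _
        _ = _ := by rw [Finset.sum_const, nsmul_eq_mul]; ring
    have e7 : C * defect G H ψ = C * (adjPairs G \ B).card + C * (B \ adjPairs G).card := by
      unfold defect; push_cast; ring
    have e8 : 0 ≤ C * (adjPairs G \ B).card := by positivity
    have e9 : 0 ≤ C * (B \ adjPairs G).card := by positivity
    rw [e7, e1, e2, abs_le]
    constructor <;> linarith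
  have hSB0 : 0 ≤ SB := Finset.sum_nonneg fun _ _ => hF0 _
  have hSBC : SB ≤ C * (q * (adjPairs H).card) := by
    calc SB ≤ ∑ p ∈ B, C := Finset.sum_le_sum fun _ _ => hFC _
      _ = C * B.card := by rw [Finset.sum_const, nsmul_eq_mul]; ring
      _ ≤ C * (q * (adjPairs H).card) := by
        gcongr
        have : B.card ≤ q * (adjPairs H).card := by
          rw [hB, blockPairs]
          refine Finset.card_image_le.trans (le_of_eq ?_)
          rw [Finset.card_product, Finset.card_univ, Fintype.card_fin]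
        exact_mod_cast this
  rw [hA, h2]
  have h4 : (N : ℝ)⁻¹ * SA - SB / (q * M) =
      (SA - SB) / N - SB * ((N - q * M) / (N * (q * M))) := by
    field_simp
    ring
  rw [h4]
  have hnn : 0 ≤ (N : ℝ) - q * M := by linarith
  have h6 : |(SA - SB) / N| ≤ C * (defect G H ψ / N) := by
    rw [abs_div, abs_of_pos hNR, ← mul_div_assoc]
    exact div_le_div_of_nonneg_right hdiff hNR.le
  have h7 : 0 ≤ SB * ((N - q * M) / (N * (q * M))) := by positivity
  have h8 : SB * ((N - q * M) / (N * (q * M))) ≤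
      C * ((adjPairs H).card / M * (((N : ℝ) - q * M) / N)) := by
    calc SB * ((N - q * M) / (N * (q * M))) ≤
        (C * (q * (adjPairs H).card)) * ((N - q * M) / (N * (q * M))) := by gcongr
      _ = C * ((adjPairs H).card / M * (((N : ℝ) - q * M) / N)) := by field_simp
  rw [abs_le] at h6 ⊢
  constructor
  · linarith [h6.1]
  · linarith [h6.2]

end Pool.Agent.Work.MP_c348a7_pr
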