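import Pool.Agent.Work.MP_c348a7_pr.Blocks

/-!
# Self-similar sequences of graphs are LD-convergent
-/

namespace Pool.Agent.Work.MP_c348a7_pr

open MeasureTheory Filter Topology Set
open scoped ENNReal NNReal BoundedContinuousFunction

/-- test neighbourhood -/
def testNhd (x : FiniteMeasure unitInterval × FiniteMeasure (unitInterval × unitInterval))
    (t₁ : Finset (unitInterval →ᵇ ℝ≥0)) (t₂ : Finset ((unitInterval × unitInterval) →ᵇ ℝ≥0))
    (δ : ℝ) : Set (FiniteMeasure unitInterval × FiniteMeasure (unitInterval × unitInterval)) :=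
  {y | (∀ f ∈ t₁, |(y.1.testAgainstNN f : ℝ) - x.1.testAgainstNN f| < δ) ∧
    ∀ g ∈ t₂, |(y.2.testAgainstNN g : ℝ) - x.2.testAgainstNN g| < δ}

lemma isOpen_testNhd (x : FiniteMeasure unitInterval × FiniteMeasure (unitInterval × unitInterval))
    (t₁ : Finset (unitInterval →ᵇ ℝ≥0)) (t₂ : Finset ((unitInterval × unitInterval) →ᵇ ℝ≥0))
    (δ : ℝ) : IsOpen (testNhd x t₁ t₂ δ) := by
  unfold testNhd
  rw [ofPred_and]
  refine IsOpen.inter ?_ ?_
  · have : {y : FiniteMeasure unitInterval × FiniteMeasure (unitInterval × unitInterval) |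
        ∀ f ∈ t₁, |(y.1.testAgainstNN f : ℝ) - x.1.testAgainstNN f| < δ} =
        ⋂ f ∈ t₁, {y | |(y.1.testAgainstNN f : ℝ) - x.1.testAgainstNN f| < δ} := by
      ext y; simp
    rw [this]
    refine isOpen_biInter_finset fun f _ => isOpen_lt ?_ continuous_const
    have h := FiniteMeasure.continuous_testAgainstNN_eval (Ω := unitInterval) f
    fun_prop
  · have : {y : FiniteMeasure unitInterval × FiniteMeasure (unitInterval × unitInterval) |
        ∀ g ∈ t₂, |(y.2.testAgainstNN g : ℝ) - x.2.testAgainstNN g| < δ} =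
        ⋂ g ∈ t₂, {y | |(y.2.testAgainstNN g : ℝ) - x.2.testAgainstNN g| < δ} := by
      ext y; simp
    rw [this]
    refine isOpen_biInter_finset fun f _ => isOpen_lt ?_ continuous_const
    have h := FiniteMeasure.continuous_testAgainstNN_eval (Ω := unitInterval × unitInterval) f
    fun_prop

lemma mem_testNhd (x : FiniteMeasure unitInterval × FiniteMeasure (unitInterval × unitInterval))
    (t₁ : Finset (unitInterval →ᵇ ℝ≥0)) (t₂ : Finset ((unitInterval × unitInterval) →ᵇ ℝ≥0))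
    {δ : ℝ} (hδ : 0 < δ) : x ∈ testNhd x t₁ t₂ δ := by
  refine ⟨fun f _ => ?_, fun g _ => ?_⟩ <;> simpa using hδ

lemma exists_testNhd (x : FiniteMeasure unitInterval × FiniteMeasure (unitInterval × unitInterval))
    {W : Set (FiniteMeasure unitInterval × FiniteMeasure (unitInterval × unitInterval))}
    (hW : IsOpen W) (hx : x ∈ W) : ∃ t₁ t₂ δ, 0 < δ ∧ testNhd x t₁ t₂ δ ⊆ W := by
  obtain ⟨W₁, h₁, W₂, h₂, h⟩ := mem_nhds_prod_iff.mp (hW.mem_nhds hx)
  obtain ⟨t₁, δ₁, hδ₁, ht₁⟩ := exists_test x.1 h₁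
  obtain ⟨t₂, δ₂, hδ₂, ht₂⟩ := exists_test x.2 h₂
  refine ⟨t₁, t₂, min δ₁ δ₂, lt_min hδ₁ hδ₂, fun y hy => h ?_⟩
  refine ⟨ht₁ _ fun f hf => (hy.1 f hf).trans_le (min_le_left _ _),
    ht₂ _ fun g hg => (hy.2 g hg).trans_le (min_le_right _ _)⟩

/-- colourings whose pair of measures is in a test neighbourhood -/
lemma mem_testNhd_iff {N : ℕ} (G : SimpleGraph (Fin N)) (σ : Fin N → unitInterval)
    (x : FiniteMeasure unitInterval × FiniteMeasure (unitInterval × unitInterval))
    (t₁ : Finset (unitInterval →ᵇ ℝ≥0)) (t₂ : Finset ((unitInterval × unitInterval) →ᵇ ℝ≥0))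
    (δ : ℝ) : (vertexMeasure σ, edgeMeasure G σ) ∈ testNhd x t₁ t₂ δ ↔
      (∀ f ∈ t₁, |vf (fun x => (f x : ℝ)) σ - x.1.testAgainstNN f| < δ) ∧
      ∀ g ∈ t₂, |ef G (fun x => (g x : ℝ)) σ - x.2.testAgainstNN g| < δ := by
  unfold testNhd
  simp only [mem_ofPred_eq, vertexMeasure_test, edgeMeasure_test]

lemma continuous_vf {N : ℕ} (f : unitInterval →ᵇ ℝ≥0) :
    Continuous (fun σ : Fin N → unitInterval => vf (fun x => (f x : ℝ)) σ) := by
  unfold vf
  fun_prop

lemma continuous_ef {N : ℕ} (G : SimpleGraph (Fin N)) (g : (unitInterval × unitInterval) →ᵇ ℝ≥0) :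
    Continuous (fun σ : Fin N → unitInterval => ef G (fun x => (g x : ℝ)) σ) := by
  unfold ef
  fun_prop

lemma measurableSet_testNhd {N : ℕ} (G : SimpleGraph (Fin N))
    (x : FiniteMeasure unitInterval × FiniteMeasure (unitInterval × unitInterval))
    (t₁ : Finset (unitInterval →ᵇ ℝ≥0)) (t₂ : Finset ((unitInterval × unitInterval) →ᵇ ℝ≥0))
    (δ : ℝ) : MeasurableSet {σ : Fin N → unitInterval |
      (vertexMeasure σ, edgeMeasure G σ) ∈ testNhd x t₁ t₂ δ} := by
  have h : {σ : Fin N → unitInterval | (vertexMeasure σ, edgeMeasure G σ) ∈ testNhd x t₁ t₂ δ} =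
      (⋂ f ∈ t₁, {σ | |vf (fun x => (f x : ℝ)) σ - x.1.testAgainstNN f| < δ}) ∩
      ⋂ g ∈ t₂, {σ | |ef G (fun x => (g x : ℝ)) σ - x.2.testAgainstNN g| < δ} := by
    ext σ
    simp only [mem_ofPred_eq, mem_testNhd_iff, mem_inter_iff, mem_iInter]
  rw [h]
  refine MeasurableSet.inter ?_ ?_
  · refine Finset.measurableSet_biInter _ fun f _ => IsOpen.measurableSet (isOpen_lt ?_ continuous_const)
    have := continuous_vf (N := N) f
    fun_prop
  · refine Finset.measurableSet_biInter _ fun f _ => IsOpen.measurableSet (isOpen_lt ?_ continuous_const)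
    have := continuous_ef G f
    fun_prop

/-- average of numbers close to `a` is close to `a` -/
lemma avg_close {q : ℕ} (hq : 0 < q) (a δ : ℝ) (b : Fin q → ℝ) (h : ∀ i, |b i - a| < δ) :
    |(q : ℝ)⁻¹ * ∑ i, b i - a| < δ := by
  have hqR : (0 : ℝ) < q := by exact_mod_cast hq
  have : Nonempty (Fin q) := ⟨⟨0, hq⟩⟩
  have h1 : (q : ℝ)⁻¹ * ∑ i, b i - a = (q : ℝ)⁻¹ * ∑ i, (b i - a) := by
    rw [Finset.sum_sub_distrib, Finset.sum_const, Finset.card_univ, Fintype.card_fin, nsmul_eq_mul]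
    field_simp
  rw [h1, abs_mul, abs_of_pos (inv_pos.mpr hqR)]
  have h2 : |∑ i, (b i - a)| < ∑ _i : Fin q, δ :=
    (Finset.abs_sum_le_sum_abs _ _).trans_lt
      (Finset.sum_lt_sum_of_nonempty Finset.univ_nonempty fun i _ => h i)
  rw [Finset.sum_const, Finset.card_univ, Fintype.card_fin, nsmul_eq_mul] at h2
  rw [inv_mul_lt_iff₀ hqR]
  exact h2

/-- the basic comparison of probabilities -/
lemma pow_le_colourLaw {M N q : ℕ} (hM : 0 < M) (hq : 0 < q) (G : SimpleGraph (Fin N))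
    (H : SimpleGraph (Fin M)) (ψ : Fin q × Fin M ↪ Fin N)
    (x : FiniteMeasure unitInterval × FiniteMeasure (unitInterval × unitInterval))
    (t₁ : Finset (unitInterval →ᵇ ℝ≥0)) (t₂ : Finset ((unitInterval × unitInterval) →ᵇ ℝ≥0))
    (δ C E ε : ℝ) (hC0 : 0 ≤ C) (hE0 : 0 ≤ E)
    (hC₁ : ∀ f ∈ t₁, ∀ z, (f z : ℝ) ≤ C) (hC₂ : ∀ g ∈ t₂, ∀ z, (g z : ℝ) ≤ C)
    (hE : ((adjPairs H).card : ℝ) ≤ E * M) (hε1 : (N : ℝ) - q * M ≤ ε * N)
    (hε2 : (defect G H ψ : ℝ) ≤ ε * N) (hε : C * (ε * (2 + E)) ≤ δ) :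
    (colourLaw H (testNhd x t₁ t₂ δ)) ^ q ≤ colourLaw G (testNhd x t₁ t₂ (2 * δ)) := by
  have hqM : q * M ≤ N := by
    have := Fintype.card_le_of_embedding ψ
    simpa using this
  have hN : 0 < N := lt_of_lt_of_le (Nat.mul_pos hq hM) hqM
  have hMR : (0 : ℝ) < M := by exact_mod_cast hM
  have hNR : (0 : ℝ) < N := by exact_mod_cast hN
  have hqMR : (q : ℝ) * M ≤ N := by exact_mod_cast hqM
  have hε0 : 0 ≤ ε := by
    by_contra hneg
    push Not at hneg
    have : ε * N < 0 := mul_neg_of_neg_of_pos hneg hNR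
    linarith
  have hr1 : ((N : ℝ) - q * M) / N ≤ ε := by rwa [div_le_iff₀ hNR]
  have hr1' : 0 ≤ ((N : ℝ) - q * M) / N := div_nonneg (by linarith) hNR.le
  have hr2 : (defect G H ψ : ℝ) / N ≤ ε := by rwa [div_le_iff₀ hNR]
  have hr3 : ((adjPairs H).card : ℝ) / M ≤ E := by rwa [div_le_iff₀ hMR]
  have hr3' : 0 ≤ ((adjPairs H).card : ℝ) / M := by positivity
  unfold colourLaw
  rw [← pi_blocks ψ _ (measurableSet_testNhd H x t₁ t₂ δ)]
  refine measure_mono fun σ hσ => ?_
  simp only [mem_ofPred_eq, mem_testNhd_iff] at hσ ⊢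
  refine ⟨fun f hf => ?_, fun g hg => ?_⟩
  · have h1 := vf_block hM hq ψ (fun x => (f x : ℝ)) C (fun z => NNReal.coe_nonneg _) (hC₁ f hf) σ
    have h2 := avg_close hq (x.1.testAgainstNN f : ℝ) δ _ (fun i => (hσ i).1 f hf)
    have h3 : C * (((N : ℝ) - q * M) / N) ≤ δ := by
      refine le_trans ?_ hε
      gcongr
      nlinarith
    have h4 := abs_sub_le (vf (fun x => (f x : ℝ)) σ)
      ((q : ℝ)⁻¹ * ∑ i, vf (fun x => (f x : ℝ)) (fun v => σ (ψ (i, v)))) (x.1.testAgainstNN f : ℝ)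
    linarith
  · have h1 := ef_block hM hq G H ψ (fun x => (g x : ℝ)) C (fun z => NNReal.coe_nonneg _) (hC₂ g hg) σ
    have h2 := avg_close hq (x.2.testAgainstNN g : ℝ) δ _ (fun i => (hσ i).2 g hg)
    have h3 : C * ((defect G H ψ : ℝ) / N) + C * ((adjPairs H).card / M * (((N : ℝ) - q * M) / N)) ≤ δ := by
      refine le_trans ?_ hε
      have h5 : ((adjPairs H).card : ℝ) / M * (((N : ℝ) - q * M) / N) ≤ E * ε := by gcongr
      have h6 : C * ((defect G H ψ : ℝ) / N) ≤ C * ε := by gcongr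
      have h7 : C * ((adjPairs H).card / M * (((N : ℝ) - q * M) / N)) ≤ C * (E * ε) := by gcongr
      nlinarith [mul_nonneg hC0 hε0]
    have h4 := abs_sub_le (ef G (fun x => (g x : ℝ)) σ)
      ((q : ℝ)⁻¹ * ∑ i, ef H (fun x => (g x : ℝ)) (fun v => σ (ψ (i, v)))) (x.2.testAgainstNN g : ℝ)
    linarith

lemma log_div_le {N M q : ℕ} (hM : 0 < M) (hN : 0 < N) (hqM : q * M ≤ N) {P R : ℝ≥0∞}
    (hP : P ≤ 1) (h : P ^ q ≤ R) :
    ENNReal.log P / (M : EReal) ≤ ENNReal.log R / (N : EReal) := by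
  have hM0 : (0 : EReal) < (M : EReal) := by exact_mod_cast hM
  have hMt : (M : EReal) ≠ ⊤ := EReal.natCast_ne_top M
  rcases eq_or_ne P 0 with rfl | hP0
  · rw [ENNReal.log_zero]
    have : (⊥ : EReal) / (M : EReal) = ⊥ := EReal.bot_div_of_pos_ne_top hM0 hMt
    rw [this]
    exact bot_le
  · have hPt : P ≠ ⊤ := ne_top_of_le_ne_top ENNReal.one_ne_top hP
    have h1 : ENNReal.log (P ^ q) / (N : EReal) ≤ ENNReal.log R / (N : EReal) :=
      EReal.div_le_div_right_of_nonneg (by positivity) (ENNReal.log_monotone h)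
    refine le_trans ?_ h1
    rw [ENNReal.log_pow]
    obtain ⟨a, ha⟩ : ∃ a : ℝ, ENNReal.log P = (a : EReal) := by
      refine ⟨(ENNReal.log P).toReal, (EReal.coe_toReal ?_ ?_).symm⟩
      · rw [Ne, ENNReal.log_eq_top_iff]; exact hPt
      · rw [Ne, ENNReal.log_eq_bot_iff]; exact hP0
    have ha0 : a ≤ 0 := by
      have : ENNReal.log P ≤ 0 := by
        rw [← ENNReal.log_one]; exact ENNReal.log_monotone hP
      rw [ha] at this
      exact_mod_cast this
    rw [ha]
    have hMR : (0 : ℝ) < M := by exact_mod_cast hM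
    have hNR : (0 : ℝ) < N := by exact_mod_cast hN
    have e1 : (a : EReal) / (M : EReal) = ((a / M : ℝ) : EReal) := rfl
    have e2 : ((q : EReal) * (a : EReal)) / (N : EReal) = ((q * a / N : ℝ) : EReal) := rfl
    rw [e1, e2]
    have : a / M ≤ q * a / N := by
      rw [div_le_div_iff₀ hMR hNR]
      have hq : (q : ℝ) * M ≤ N := by exact_mod_cast hqM
      nlinarith
    exact_mod_cast this

lemma vertexMeasure_mass {N : ℕ} (σ : Fin N → unitInterval) : (vertexMeasure σ).mass ≤ 1 := by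
  have h := vertexMeasure_test σ 1
  rw [FiniteMeasure.testAgainstNN_one] at h
  have h2 : ((vertexMeasure σ).mass : ℝ) ≤ 1 := by
    rw [h]
    unfold vf
    simp only [BoundedContinuousFunction.coe_one, Pi.one_apply, NNReal.coe_one, Finset.sum_const,
      Finset.card_univ, Fintype.card_fin, nsmul_eq_mul, mul_one]
    rcases Nat.eq_zero_or_pos N with rfl | hN
    · simp
    · rw [inv_mul_cancel₀]
      exact_mod_cast hN.ne'
  exact_mod_cast h2

lemma edgeMeasure_mass {N : ℕ} (G : SimpleGraph (Fin N)) (σ : Fin N → unitInterval) (E : ℝ≥0)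
    (hE : ((adjPairs G).card : ℝ) ≤ E * N) : (edgeMeasure G σ).mass ≤ E := by
  classical
  have h := edgeMeasure_test G σ 1
  rw [FiniteMeasure.testAgainstNN_one] at h
  have h2 : ((edgeMeasure G σ).mass : ℝ) ≤ E := by
    rw [h]
    have h3 : ef G (fun x => ((1 : (unitInterval × unitInterval) →ᵇ ℝ≥0) x : ℝ)) σ =
        (N : ℝ)⁻¹ * (adjPairs G).card := by
      unfold ef adjPairs
      simp only [BoundedContinuousFunction.coe_one, Pi.one_apply, NNReal.coe_one, Finset.sum_const,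
        nsmul_eq_mul, mul_one]
    rw [h3]
    rcases Nat.eq_zero_or_pos N with rfl | hN
    · simp
    · have hNR : (0 : ℝ) < N := by exact_mod_cast hN
      rw [inv_mul_le_iff₀ hNR, mul_comm]
      exact hE
  exact_mod_cast h2

/-- **Self-similar sequences are LD-convergent.**  If the graphs have a bounded average degree and,
for every `ε > 0`, for all large `m` and all `n` large in terms of `m`, the graph `G n` is obtained
up to `ε |V(G n)|` vertices and adjacency changes by placing disjoint copies of `G m`, then the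
sequence is LD-convergent. -/
theorem ldConvergent_of_selfSimilar (N : ℕ → ℕ) (hN : Tendsto N atTop atTop)
    (G : ∀ n, SimpleGraph (Fin (N n))) (E : ℝ≥0)
    (hE : ∀ᶠ n in atTop, ((adjPairs (G n)).card : ℝ) ≤ E * N n)
    (hss : ∀ ε : ℝ, 0 < ε → ∀ᶠ m in atTop, ∀ᶠ n in atTop,
      ∃ (q : ℕ) (ψ : Fin q × Fin (N m) ↪ Fin (N n)), ((N n : ℝ) - q * N m) ≤ ε * N n ∧
        (defect (G n) (G m) ψ : ℝ) ≤ ε * N n) :
    LDConvergent N G := by
  have hmono : ∀ n (A B : Set (FiniteMeasure unitInterval ×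
      FiniteMeasure (unitInterval × unitInterval))), A ⊆ B →
      colourLaw (G n) A ≤ colourLaw (G n) B := fun n A B h => measure_mono fun σ hσ => h hσ
  have hone : ∀ n (A : Set (FiniteMeasure unitInterval ×
      FiniteMeasure (unitInterval × unitInterval))), colourLaw (G n) A ≤ 1 := fun n A => prob_le_one
  refine exists_ldp_of_local (P := fun n => colourLaw (G n)) hN hmono
    (fun n A B => ?_) (fun n => ?_) hone
    ({ρ | ρ.mass ≤ 1} ×ˢ {μ | μ.mass ≤ E}) ?_ ?_ ?_
  · refine le_trans (measure_mono ?_) (measure_union_le _ _)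
    intro σ hσ
    exact hσ
  · change (cm (N n)) ∅ = 0
    exact measure_empty
  · exact (isCompact_setOfPred_finiteMeasure_le_of_compactSpace _ 1).prod
      (isCompact_setOfPred_finiteMeasure_le_of_compactSpace _ E)
  · filter_upwards [hE] with n hn
    have : {σ : Fin (N n) → unitInterval | (vertexMeasure σ, edgeMeasure (G n) σ) ∈
        ({ρ | ρ.mass ≤ 1} ×ˢ {μ | μ.mass ≤ E} : Set (FiniteMeasure unitInterval ×
      FiniteMeasure (unitInterval × unitInterval)))ᶜ} = ∅ := by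
      rw [eq_empty_iff_forall_notMem]
      intro σ hσ
      exact hσ ⟨vertexMeasure_mass σ, edgeMeasure_mass (G n) σ E hn⟩
    unfold colourLaw
    rw [this, measure_empty]
  · intro x W hW hxW
    obtain ⟨t₁, t₂, δ, hδ, hsub⟩ := exists_testNhd x hW hxW
    refine ⟨testNhd x t₁ t₂ (δ / 2), isOpen_testNhd _ _ _ _, mem_testNhd _ _ _ (by linarith), ?_⟩
    set C : ℝ := 1 + (∑ f ∈ t₁, dist f 0 + ∑ g ∈ t₂, dist g 0) with hC
    have hn1 : 0 ≤ ∑ f ∈ t₁, dist f 0 := Finset.sum_nonneg fun _ _ => dist_nonneg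
    have hn2 : 0 ≤ ∑ g ∈ t₂, dist g 0 := Finset.sum_nonneg fun _ _ => dist_nonneg
    have hC1 : 1 ≤ C := by rw [hC]; linarith
    have hC0 : 0 < C := by linarith
    have hC₁ : ∀ f ∈ t₁, ∀ z, (f z : ℝ) ≤ C := by
      intro f hf z
      have h1 : (f z : ℝ) ≤ dist f 0 := by
        have := BoundedContinuousFunction.NNReal.upper_bound f z
        rw [← coe_nndist]
        exact_mod_cast this
      have h2 : dist f 0 ≤ ∑ f ∈ t₁, dist f 0 := Finset.single_le_sum (f := fun f => dist f 0) (fun _ _ => dist_nonneg) hf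
      rw [hC]; linarith
    have hC₂ : ∀ g ∈ t₂, ∀ z, (g z : ℝ) ≤ C := by
      intro f hf z
      have h1 : (f z : ℝ) ≤ dist f 0 := by
        have := BoundedContinuousFunction.NNReal.upper_bound f z
        rw [← coe_nndist]
        exact_mod_cast this
      have h2 : dist f 0 ≤ ∑ f ∈ t₂, dist f 0 := Finset.single_le_sum (f := fun f => dist f 0) (fun _ _ => dist_nonneg) hf
      rw [hC]; linarith
    have hE0 : (0 : ℝ) ≤ E := E.coe_nonneg
    set ε : ℝ := min (1 / 2) (δ / 2 / (C * (2 + E))) with hε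
    have hεpos : 0 < ε := lt_min (by norm_num) (by positivity)
    have hε1 : ε ≤ 1 / 2 := min_le_left _ _
    have hε2 : C * (ε * (2 + E)) ≤ δ / 2 := by
      have h1 : ε ≤ δ / 2 / (C * (2 + E)) := min_le_right _ _
      have h2 : (0 : ℝ) < C * (2 + E) := by positivity
      rw [le_div_iff₀ h2] at h1
      linarith
    have hkey : ∀ᶠ m in atTop,
        ENNReal.log (colourLaw (G m) (testNhd x t₁ t₂ (δ / 2))) / (N m : EReal) ≤
          rinf N (fun n => colourLaw (G n)) W := by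
      filter_upwards [hss ε hεpos, hE, hN.eventually_gt_atTop 0] with m hm hEm hM
      unfold rinf
      refine le_liminf_of_le (by isBoundedDefault) ?_
      filter_upwards [hm, hN.eventually_gt_atTop 0] with n hn hNn
      obtain ⟨q, ψ, h1, h2⟩ := hn
      have hNR : (0 : ℝ) < N n := by exact_mod_cast hNn
      have hq : 0 < q := by
        rcases Nat.eq_zero_or_pos q with rfl | h
        · exfalso
          simp only [Nat.cast_zero, zero_mul, sub_zero] at h1
          nlinarith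
        · exact h
      have hqM : q * N m ≤ N n := by
        have := Fintype.card_le_of_embedding ψ
        simpa using this
      refine log_div_le hM hNn hqM (hone m _) ?_
      refine (pow_le_colourLaw hM hq (G n) (G m) ψ x t₁ t₂ (δ / 2) C E ε hC0.le hE0 hC₁ hC₂ hEm h1
        h2 hε2).trans (hmono n _ _ ?_)
      have : 2 * (δ / 2) = δ := by ring
      rw [this]
      exact hsub
    exact limsup_le_of_le (by isBoundedDefault) hkey

end Pool.Agent.Work.MP_c348a7_pr
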