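import Pool.Agent.Work.MP_c348a7_pr.LDP

/-!
# LD-convergence of sparse graphs: definitions and the weak topology
-/

namespace Pool.Agent.Work.MP_c348a7_pr

open MeasureTheory Filter Topology Set
open scoped ENNReal NNReal BoundedContinuousFunction

/-- The point mass at `x`, as a finite measure. -/
noncomputable def pointMass {Ω : Type*} [MeasurableSpace Ω] (x : Ω) : FiniteMeasure Ω :=
  ⟨Measure.dirac x, inferInstance⟩

/-- The random measure `ρ = (1/N) ∑_u δ_{σ(u)}` on `[0,1]` of a colouring `σ` of `N` vertices. -/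
noncomputable def vertexMeasure {N : ℕ} (σ : Fin N → unitInterval) : FiniteMeasure unitInterval :=
  (N : ℝ≥0)⁻¹ • ∑ u : Fin N, pointMass (σ u)

open Classical in
/-- The random measure `μ = (1/N) ∑_{(u,v) : u ∼ v} δ_{(σ(u), σ(v))}` on `[0,1]²`, the sum running
over ordered pairs of adjacent vertices. -/
noncomputable def edgeMeasure {N : ℕ} (G : SimpleGraph (Fin N)) (σ : Fin N → unitInterval) :
    FiniteMeasure (unitInterval × unitInterval) :=
  (N : ℝ≥0)⁻¹ • ∑ p ∈ Finset.univ.filter (fun p : Fin N × Fin N => G.Adj p.1 p.2),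
    pointMass (σ p.1, σ p.2)

/-- The probability that the pair `(ρ, μ)` lies in `A`, when the colours of the `N` vertices are
independent and uniform on `[0,1]`. -/
noncomputable def colourLaw {N : ℕ} (G : SimpleGraph (Fin N))
    (A : Set (FiniteMeasure unitInterval × FiniteMeasure (unitInterval × unitInterval))) : ℝ≥0∞ :=
  (Measure.pi fun _ : Fin N => (volume : Measure unitInterval)) {σ | (vertexMeasure σ, edgeMeasure G σ) ∈ A}

/-- LD-convergence of a sequence of graphs `G n` with `N n` vertices: the pairs `(ρ_n, μ_n)` satisfy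
a large deviation principle with speed `N n`, for the weak topology on finite measures. -/
def LDConvergent (N : ℕ → ℕ) (G : ∀ n, SimpleGraph (Fin (N n))) : Prop :=
  ∃ J : FiniteMeasure unitInterval × FiniteMeasure (unitInterval × unitInterval) → EReal, IsLDP N (fun n => colourLaw (G n)) J

/-! ### The weak topology -/

lemma exists_test {Ω : Type*} [MeasurableSpace Ω] [TopologicalSpace Ω] [OpensMeasurableSpace Ω]
    (x : FiniteMeasure Ω) {W : Set (FiniteMeasure Ω)} (hW : W ∈ 𝓝 x) :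
    ∃ (t : Finset (Ω →ᵇ ℝ≥0)) (δ : ℝ), 0 < δ ∧ ∀ y : FiniteMeasure Ω,
      (∀ f ∈ t, |(y.testAgainstNN f : ℝ) - x.testAgainstNN f| < δ) → y ∈ W := by
  classical
  have hind : IsInducing (fun (μ : FiniteMeasure Ω) (f : Ω →ᵇ ℝ≥0) => μ.testAgainstNN f) := by
    have h1 : IsInducing (FiniteMeasure.toWeakDualBCNN :
      FiniteMeasure Ω → WeakDual ℝ≥0 (Ω →ᵇ ℝ≥0)) := ⟨rfl⟩
    have h2 : IsInducing (fun (φ : WeakDual ℝ≥0 (Ω →ᵇ ℝ≥0)) (f : Ω →ᵇ ℝ≥0) => φ f) := ⟨rfl⟩
    exact h2.comp h1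
  rw [hind.nhds_eq_comap, mem_comap] at hW
  obtain ⟨V, hV, hVW⟩ := hW
  rw [nhds_pi, Filter.mem_pi] at hV
  obtain ⟨S, hS, t, ht, htV⟩ := hV
  have h1 : ∀ f : Ω →ᵇ ℝ≥0, ∃ δ : ℝ, 0 < δ ∧ ∀ a : ℝ≥0, |(a : ℝ) - x.testAgainstNN f| < δ → a ∈ t f := by
    intro f
    obtain ⟨δ, hδ, h⟩ := Metric.mem_nhds_iff.mp (ht f)
    refine ⟨δ, hδ, fun a ha => h ?_⟩
    rw [Metric.mem_ball, NNReal.dist_eq]
    exact ha
  choose δ hδ h using h1
  refine ⟨hS.toFinset, (insert 1 (hS.toFinset.image δ)).min' (Finset.insert_nonempty _ _), ?_, ?_⟩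
  · rw [Finset.lt_min'_iff]
    intro y hy
    rw [Finset.mem_insert, Finset.mem_image] at hy
    rcases hy with rfl | ⟨f, _, rfl⟩
    · norm_num
    · exact hδ f
  · intro y hy
    apply hVW
    apply htV
    intro f hf
    refine h f _ (lt_of_lt_of_le (hy f (hS.mem_toFinset.mpr hf)) ?_)
    exact Finset.min'_le _ _ (Finset.mem_insert_of_mem (Finset.mem_image_of_mem _ (hS.mem_toFinset.mpr hf)))

lemma pointMass_test {Ω : Type*} [MeasurableSpace Ω] [TopologicalSpace Ω] [OpensMeasurableSpace Ω]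
    {ι : Type*} (c : ℝ≥0) (s : Finset ι) (x : ι → Ω) (f : Ω →ᵇ ℝ≥0) :
    (c • ∑ i ∈ s, pointMass (x i)).testAgainstNN f = c * ∑ i ∈ s, f (x i) := by
  unfold FiniteMeasure.testAgainstNN
  rw [FiniteMeasure.toMeasure_smul, FiniteMeasure.toMeasure_sum]
  have h1 : ∫⁻ ω, (f ω : ℝ≥0∞) ∂(c • ∑ i ∈ s, (pointMass (x i) : Measure Ω)) =
      ((c * ∑ i ∈ s, f (x i) : ℝ≥0) : ℝ≥0∞) := by
    rw [lintegral_smul_measure, lintegral_finsetSum_measure]
    have h2 : ∀ i ∈ s, ∫⁻ ω, (f ω : ℝ≥0∞) ∂(pointMass (x i) : Measure Ω) = f (x i) := by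
      intro i _
      change ∫⁻ ω, (f ω : ℝ≥0∞) ∂(Measure.dirac (x i)) = f (x i)
      rw [lintegral_dirac']
      exact (f.continuous.measurable.coe_nnreal_ennreal)
    rw [Finset.sum_congr rfl h2]
    push_cast
    rfl
  rw [h1, ENNReal.toNNReal_coe]

/-- the vertex functional -/
noncomputable def vf {N : ℕ} (f : unitInterval → ℝ) (σ : Fin N → unitInterval) : ℝ := (N : ℝ)⁻¹ * ∑ u, f (σ u)

open Classical in
/-- the edge functional -/
noncomputable def ef {N : ℕ} (G : SimpleGraph (Fin N)) (g : unitInterval × unitInterval → ℝ) (σ : Fin N → unitInterval) : ℝ :=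
  (N : ℝ)⁻¹ * ∑ p ∈ Finset.univ.filter (fun p : Fin N × Fin N => G.Adj p.1 p.2), g (σ p.1, σ p.2)

lemma vertexMeasure_test {N : ℕ} (σ : Fin N → unitInterval) (f : unitInterval →ᵇ ℝ≥0) :
    ((vertexMeasure σ).testAgainstNN f : ℝ) = vf (fun x => (f x : ℝ)) σ := by
  unfold vertexMeasure vf
  rw [pointMass_test]
  push_cast
  rfl

lemma edgeMeasure_test {N : ℕ} (G : SimpleGraph (Fin N)) (σ : Fin N → unitInterval) (g : (unitInterval × unitInterval) →ᵇ ℝ≥0) :
    ((edgeMeasure G σ).testAgainstNN g : ℝ) = ef G (fun x => (g x : ℝ)) σ := by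
  classical
  unfold edgeMeasure ef
  rw [pointMass_test]
  push_cast
  rfl

end Pool.Agent.Work.MP_c348a7_pr
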