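import Pool.Agent.Work.MP_c348a7_pr.Bern
import Pool.Agent.Work.MP_c348a7_pr.Matching

/-!
# The binomial random graph as a random set of edges; bounded differences
-/

namespace Pool.Agent.Work.MP_c348a7_pr

open Finset MeasureTheory

open Classical in
/-- the possible edges -/
noncomputable def allEdges (n : ℕ) : Finset (Sym2 (Fin n)) :=
  Finset.univ.filter (fun e => ¬ e.IsDiag)

/-- the graph with edge set `S` -/
def gr {n : ℕ} (S : Finset (Sym2 (Fin n))) : SimpleGraph (Fin n) :=
  SimpleGraph.fromEdgeSet (S : Set (Sym2 (Fin n)))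

lemma gr_adj {n : ℕ} {S : Finset (Sym2 (Fin n))} {x y : Fin n} :
    (gr S).Adj x y ↔ s(x, y) ∈ S ∧ x ≠ y := by
  unfold gr
  rw [SimpleGraph.fromEdgeSet_adj]
  simp

lemma mem_allEdges {n : ℕ} {e : Sym2 (Fin n)} : e ∈ allEdges n ↔ ¬ e.IsDiag := by
  simp [allEdges]

lemma card_allEdges (n : ℕ) : (allEdges n).card = n.choose 2 := by
  classical
  have h := Sym2.card_subtype_not_diag (α := Fin n)
  rw [Fintype.card_fin] at h
  rw [← h, Fintype.card_subtype]
  unfold allEdges
  congr

lemma coe_edgeSet_gr {n : ℕ} {S : Finset (Sym2 (Fin n))} (hS : S ⊆ allEdges n) :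
    (gr S).edgeSet = (S : Set (Sym2 (Fin n))) := by
  unfold gr
  rw [SimpleGraph.edgeSet_fromEdgeSet]
  ext e
  simp only [Set.mem_sdiff, Finset.mem_coe]
  constructor
  · exact fun h => h.1
  · intro h
    exact ⟨h, mem_allEdges.mp (hS h)⟩

lemma measurableSingletonClass_simpleGraph (n : ℕ) :
    MeasurableSingletonClass (SimpleGraph (Fin n)) := by
  refine ⟨fun G => ?_⟩
  have h : ({G} : Set (SimpleGraph (Fin n))) = SimpleGraph.Adj ⁻¹' {G.Adj} := by
    ext G'
    simp only [Set.mem_singleton_iff, Set.mem_preimage]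
    constructor
    · rintro rfl; rfl
    · intro h; exact SimpleGraph.ext h
  rw [h]
  exact SimpleGraph.measurable_adj (measurableSet_singleton _)

open Classical in
lemma binomial_real_eq (n : ℕ) (p : unitInterval) (A : Set (SimpleGraph (Fin n))) :
    (SimpleGraph.binomialRandom (Fin n) p).real A =
      bern (allEdges n) (p : ℝ) (fun S => if gr S ∈ A then 1 else 0) := by
  have := measurableSingletonClass_simpleGraph n
  have hsing : ∀ G : SimpleGraph (Fin n), (SimpleGraph.binomialRandom (Fin n) p).real {G} =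
      (p : ℝ) ^ G.edgeFinset.card * (1 - (p : ℝ)) ^ (n.choose 2 - G.edgeFinset.card) := by
    intro G
    rw [measureReal_def, SimpleGraph.binomialRandom_singleton, Nat.card_eq_fintype_card,
      Fintype.card_fin]
    have h1 : G.edgeSet.ncard = G.edgeFinset.card := by
      rw [← SimpleGraph.coe_edgeFinset, Set.ncard_coe_finset]
    rw [h1, ENNReal.toReal_mul, ENNReal.toReal_pow, ENNReal.toReal_pow]
    rfl
  have hA : (SimpleGraph.binomialRandom (Fin n) p).real A =
      ∑ G ∈ Finset.univ.filter (fun G => G ∈ A), (SimpleGraph.binomialRandom (Fin n) p).real {G} := by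
    rw [sum_measureReal_singleton]
    congr 1
    ext G
    simp
  rw [hA]
  unfold bern
  simp only [mul_ite, mul_one, mul_zero]
  rw [← Finset.sum_filter]
  refine Finset.sum_nbij' (fun G => G.edgeFinset) (fun S => gr S) ?_ ?_ ?_ ?_ ?_
  · intro G hG
    rw [Finset.mem_filter] at hG ⊢
    refine ⟨?_, ?_⟩
    · rw [Finset.mem_powerset]
      intro e he
      rw [mem_allEdges]
      exact G.not_isDiag_of_mem_edgeFinset he
    · have : gr G.edgeFinset = G := by
        unfold gr
        rw [SimpleGraph.coe_edgeFinset, SimpleGraph.fromEdgeSet_edgeSet]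
      rw [this]; exact hG.2
  · intro S hS
    rw [Finset.mem_filter] at hS ⊢
    exact ⟨Finset.mem_univ _, hS.2⟩
  · intro G _
    unfold gr
    rw [SimpleGraph.coe_edgeFinset, SimpleGraph.fromEdgeSet_edgeSet]
  · intro S hS
    rw [Finset.mem_filter, Finset.mem_powerset] at hS
    apply Finset.coe_injective
    rw [SimpleGraph.coe_edgeFinset, coe_edgeSet_gr hS.1]
  · intro G _
    rw [hsing, card_allEdges]

/-! ### Adding one edge -/

section AddEdge

variable {n : ℕ} {G G' : SimpleGraph (Fin n)} {u v : Fin n}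

/-- `G'` is `G` with the edge `uv` added -/
def Added (G G' : SimpleGraph (Fin n)) (u v : Fin n) : Prop :=
  u ≠ v ∧ ∀ x y, G'.Adj x y ↔ G.Adj x y ∨ (x = u ∧ y = v) ∨ (x = v ∧ y = u)

lemma Added.le (h : Added G G' u v) : G ≤ G' := fun x y hxy => (h.2 x y).mpr (Or.inl hxy)

lemma Added.comp_subset (h : Added G G' u v) (x : Fin n) : comp G x ⊆ comp G' x := by
  intro y hy
  rw [mem_comp] at hy ⊢
  exact hy.mono h.le

/-- reachability in `G'` from a vertex outside the components of `u` and `v` -/
lemma Added.comp_eq (h : Added G G' u v) {x : Fin n} (hu : x ∉ comp G u) (hv : x ∉ comp G v) :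
    comp G' x = comp G x := by
  refine Finset.Subset.antisymm ?_ (h.comp_subset x)
  intro y hy
  rw [mem_comp] at hy ⊢
  obtain ⟨w⟩ := hy
  induction w with
  | nil => exact SimpleGraph.Reachable.refl _
  | @cons a b c hab _ ih =>
    have hab' : G.Adj a b := by
      rcases (h.2 a b).mp hab with h1 | ⟨rfl, _⟩ | ⟨rfl, _⟩
      · exact h1
      · exact absurd (self_mem_comp G a) hu
      · exact absurd (self_mem_comp G a) hv
    have hu' : b ∉ comp G u := by
      intro hb
      rw [mem_comp] at hb hu
      exact hu (hb.trans hab'.symm.reachable)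
    have hv' : b ∉ comp G v := by
      intro hb
      rw [mem_comp] at hb hv
      exact hv (hb.trans hab'.symm.reachable)
    exact hab'.reachable.trans (ih hu' hv')

/-- vertices of the new component -/
lemma Added.comp_union (h : Added G G' u v) {x y : Fin n} (hx : x ∈ comp G u ∨ x ∈ comp G v)
    (hy : y ∈ comp G' x) : y ∈ comp G u ∨ y ∈ comp G v := by
  by_contra hcon
  push Not at hcon
  have h1 := h.comp_eq hcon.1 hcon.2
  have h2 : x ∈ comp G' y := by
    rw [mem_comp] at hy ⊢
    exact hy.symm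
  rw [h1, mem_comp] at h2
  rcases hx with hx | hx
  · rw [mem_comp] at hx
    exact hcon.1 (mem_comp.mpr (hx.trans h2.symm))
  · rw [mem_comp] at hx
    exact hcon.2 (mem_comp.mpr (hx.trans h2.symm))

lemma Added.reach (h : Added G G' u v) {x : Fin n} (hx : x ∈ comp G u ∨ x ∈ comp G v) :
    comp G' x = comp G' u := by
  apply comp_eq_of_mem
  rw [mem_comp]
  rcases hx with hx | hx
  · rw [mem_comp] at hx
    exact hx.mono h.le
  · rw [mem_comp] at hx
    have huv : G'.Adj u v := (h.2 u v).mpr (Or.inr (Or.inl ⟨rfl, rfl⟩))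
    exact huv.reachable.trans (hx.mono h.le)

lemma Added.typ_eq (h : Added G G' u v) {A : Finset (Fin n)} (hu : u ∉ A) (hv : v ∉ A) :
    typ G' A = typ G A := by
  unfold typ
  congr 1
  ext i j
  simp only [SimpleGraph.comap_adj]
  rw [h.2]
  constructor
  · rintro (h1 | ⟨h1, _⟩ | ⟨h1, _⟩)
    · exact h1
    · exact absurd (h1 ▸ Finset.orderEmbOfFin_mem _ _ _) hu
    · exact absurd (h1 ▸ Finset.orderEmbOfFin_mem _ _ _) hv
  · exact Or.inl

lemma Added.cnt_le (h : Added G G' u v) (τ : Σ k : ℕ, SimpleGraph (Fin k)) :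
    cnt G' τ ≤ cnt G τ + 1 := by
  classical
  unfold cnt
  have hsub : (comps G').filter (fun A => typ G' A = τ) ⊆
      insert (comp G' u) ((comps G).filter (fun A => typ G A = τ)) := by
    intro A hA
    rw [Finset.mem_filter] at hA
    obtain ⟨hA1, hA2⟩ := hA
    obtain ⟨x, _, rfl⟩ := Finset.mem_image.mp hA1
    rw [Finset.mem_insert]
    by_cases hx : x ∈ comp G u ∨ x ∈ comp G v
    · exact Or.inl (h.reach hx)
    · right
      push Not at hx
      have h1 := h.comp_eq hx.1 hx.2
      rw [h1] at hA2 ⊢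
      have hu : u ∉ comp G x := fun hh => hx.1 (by rw [mem_comp] at hh ⊢; exact hh.symm)
      have hv : v ∉ comp G x := fun hh => hx.2 (by rw [mem_comp] at hh ⊢; exact hh.symm)
      rw [h.typ_eq hu hv] at hA2
      exact Finset.mem_filter.mpr ⟨comp_mem_comps G x, hA2⟩
  refine (Finset.card_le_card hsub).trans ?_
  exact Finset.card_insert_le _ _

lemma Added.cnt_ge (h : Added G G' u v) (τ : Σ k : ℕ, SimpleGraph (Fin k)) :
    cnt G τ ≤ cnt G' τ + 2 := by
  classical
  unfold cnt
  have hsub : (comps G).filter (fun A => typ G A = τ) ⊆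
      insert (comp G u) (insert (comp G v) ((comps G').filter (fun A => typ G' A = τ))) := by
    intro A hA
    rw [Finset.mem_filter] at hA
    obtain ⟨hA1, hA2⟩ := hA
    obtain ⟨x, _, rfl⟩ := Finset.mem_image.mp hA1
    rw [Finset.mem_insert, Finset.mem_insert]
    by_cases hxu : x ∈ comp G u
    · exact Or.inl (comp_eq_of_mem hxu)
    by_cases hxv : x ∈ comp G v
    · exact Or.inr (Or.inl (comp_eq_of_mem hxv))
    right; right
    have h1 := h.comp_eq hxu hxv
    have hu : u ∉ comp G x := fun hh => hxu (by rw [mem_comp] at hh ⊢; exact hh.symm)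
    have hv : v ∉ comp G x := fun hh => hxv (by rw [mem_comp] at hh ⊢; exact hh.symm)
    rw [Finset.mem_filter, h.typ_eq hu hv]
    exact ⟨h1 ▸ comp_mem_comps G' x, hA2⟩
  refine (Finset.card_le_card hsub).trans ((Finset.card_insert_le _ _).trans ?_)
  have := Finset.card_insert_le (comp G v) ((comps G').filter (fun A => typ G' A = τ))
  omega

lemma Added.big_ge (h : Added G G' u v) (K : ℕ) : big G K ≤ big G' K := by
  classical
  unfold big
  refine Finset.card_le_card ?_
  intro p hp
  unfold adjPairs at hp ⊢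
  rw [Finset.mem_filter, Finset.mem_filter] at hp ⊢
  exact ⟨⟨Finset.mem_univ _, h.le hp.1.2⟩,
    hp.2.trans_le (Finset.card_le_card (h.comp_subset p.1))⟩

lemma Added.big_le (h : Added G G' u v) (K : ℕ) : big G' K ≤ big G K + (2 + 2 * K ^ 2) := by
  classical
  set X : Finset (Fin n) := (if (comp G u).card ≤ K then comp G u else ∅) ∪
    (if (comp G v).card ≤ K then comp G v else ∅) with hX
  have hXcard : X.card ≤ 2 * K := by
    refine (Finset.card_union_le _ _).trans ?_
    have h1 : (if (comp G u).card ≤ K then comp G u else ∅).card ≤ K := by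
      split_ifs with hh
      · exact hh
      · simp
    have h2 : (if (comp G v).card ≤ K then comp G v else ∅).card ≤ K := by
      split_ifs with hh
      · exact hh
      · simp
    omega
  have hXcomp : ∀ x ∈ X, (comp G x).card ≤ K := by
    intro x hx
    rw [hX, Finset.mem_union] at hx
    rcases hx with hx | hx
    · split_ifs at hx with hh
      · rw [comp_eq_of_mem hx]; exact hh
      · simp at hx
    · split_ifs at hx with hh
      · rw [comp_eq_of_mem hx]; exact hh
      · simp at hx
  have hsub : (adjPairs G').filter (fun p => K < (comp G' p.1).card) ⊆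
      (adjPairs G).filter (fun p => K < (comp G p.1).card) ∪
      ({(u, v), (v, u)} ∪ X.biUnion (fun x => {x} ×ˢ comp G x)) := by
    rintro ⟨x, y⟩ hp
    unfold adjPairs at hp ⊢
    rw [Finset.mem_filter, Finset.mem_filter] at hp
    obtain ⟨⟨_, hxy⟩, hK⟩ := hp
    rw [Finset.mem_union, Finset.mem_union]
    rcases (h.2 x y).mp hxy with h1 | ⟨rfl, rfl⟩ | ⟨rfl, rfl⟩
    · by_cases hKG : K < (comp G x).card
      · left
        exact Finset.mem_filter.mpr ⟨Finset.mem_filter.mpr ⟨Finset.mem_univ _, h1⟩, hKG⟩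
      · right; right
        have hne : comp G' x ≠ comp G x := by
          intro heq
          have : K < (comp G' x).card := hK
          rw [heq] at this
          exact hKG this
        have hx : x ∈ comp G u ∨ x ∈ comp G v := by
          by_contra hcon
          push Not at hcon
          exact hne (h.comp_eq hcon.1 hcon.2)
        rw [Finset.mem_biUnion]
        refine ⟨x, ?_, Finset.mem_product.mpr ⟨Finset.mem_singleton.mpr rfl, mem_comp.mpr h1.reachable⟩⟩
        rw [hX, Finset.mem_union]
        rcases hx with hx | hx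
        · left
          have : (comp G u).card ≤ K := by rw [← comp_eq_of_mem hx]; exact not_lt.mp hKG
          rw [if_pos this]; exact hx
        · right
          have : (comp G v).card ≤ K := by rw [← comp_eq_of_mem hx]; exact not_lt.mp hKG
          rw [if_pos this]; exact hx
    · right; left; simp
    · right; left; simp
  unfold big
  refine (Finset.card_le_card hsub).trans ((Finset.card_union_le _ _).trans ?_)
  refine Nat.add_le_add (le_of_eq rfl) ((Finset.card_union_le _ _).trans ?_)
  refine Nat.add_le_add Finset.card_le_two (Finset.card_biUnion_le.trans ?_)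
  calc ∑ x ∈ X, ({x} ×ˢ comp G x).card ≤ ∑ x ∈ X, K := by
        refine Finset.sum_le_sum fun x hx => ?_
        rw [Finset.card_product, Finset.card_singleton, one_mul]
        exact hXcomp x hx
    _ = X.card * K := by rw [Finset.sum_const, smul_eq_mul]
    _ ≤ (2 * K) * K := Nat.mul_le_mul_right K hXcard
    _ = 2 * K ^ 2 := by ring

end AddEdge

lemma added_gr {n : ℕ} {S : Finset (Sym2 (Fin n))} {u v : Fin n} (huv : u ≠ v)
    [DecidableEq (Sym2 (Fin n))] : Added (gr S) (gr (insert s(u, v) S)) u v := by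
  refine ⟨huv, fun x y => ?_⟩
  rw [gr_adj, gr_adj, Finset.mem_insert]
  constructor
  · rintro ⟨h1 | h1, h2⟩
    · right
      rw [Sym2.eq_iff] at h1
      exact h1
    · exact Or.inl ⟨h1, h2⟩
  · rintro (⟨h1, h2⟩ | ⟨rfl, rfl⟩ | ⟨rfl, rfl⟩)
    · exact ⟨Or.inr h1, h2⟩
    · exact ⟨Or.inl rfl, huv⟩
    · exact ⟨Or.inl Sym2.eq_swap, huv.symm⟩

lemma cnt_lipschitz {n : ℕ} (τ : Σ k : ℕ, SimpleGraph (Fin k)) [DecidableEq (Sym2 (Fin n))]
    (S : Finset (Sym2 (Fin n))) (e : Sym2 (Fin n)) (he : e ∈ allEdges n) :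
    |(cnt (gr (insert e S)) τ : ℝ) - cnt (gr S) τ| ≤ 2 := by
  induction e using Sym2.ind with
  | _ u v =>
    rw [mem_allEdges, Sym2.mk_isDiag_iff] at he
    have h := added_gr (S := S) he
    have h1 : (cnt (gr (insert s(u, v) S)) τ : ℝ) ≤ cnt (gr S) τ + 1 := by exact_mod_cast h.cnt_le τ
    have h2 : (cnt (gr S) τ : ℝ) ≤ cnt (gr (insert s(u, v) S)) τ + 2 := by exact_mod_cast h.cnt_ge τ
    rw [abs_le]
    constructor <;> linarith

lemma big_lipschitz {n : ℕ} (K : ℕ) [DecidableEq (Sym2 (Fin n))]
    (S : Finset (Sym2 (Fin n))) (e : Sym2 (Fin n)) (he : e ∈ allEdges n) :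
    |(big (gr (insert e S)) K : ℝ) - big (gr S) K| ≤ 2 + 2 * K ^ 2 := by
  induction e using Sym2.ind with
  | _ u v =>
    rw [mem_allEdges, Sym2.mk_isDiag_iff] at he
    have h := added_gr (S := S) he
    have h1 : (big (gr (insert s(u, v) S)) K : ℝ) ≤ big (gr S) K + (2 + 2 * K ^ 2) := by
      exact_mod_cast h.big_le K
    have h2 : (big (gr S) K : ℝ) ≤ big (gr (insert s(u, v) S)) K := by exact_mod_cast h.big_ge K
    have h3 : (0 : ℝ) ≤ 2 + 2 * K ^ 2 := by positivity
    rw [abs_le]
    constructor <;> linarith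

end Pool.Agent.Work.MP_c348a7_pr
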