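import Mathlib

/-!
# Large deviation principles from local estimates

`IsLDP s P J`: the set functions `P n` satisfy the large deviation principle with speed `s n` and
rate function `J`.
-/

namespace Pool.Agent.Work.MP_c348a7_pr

open Filter Topology Set
open scoped ENNReal

/-- `IsLDP s P J` : the large deviation principle with speed `s n` and rate function `J`, for
random elements of `X` with law `P n` (so `P n A` is the probability that the `n`-th random element
lies in `A`).  The rate function is lower semicontinuous with values in `[0, ∞]`. -/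
structure IsLDP {X : Type*} [TopologicalSpace X] (s : ℕ → ℕ) (P : ℕ → Set X → ℝ≥0∞)
    (J : X → EReal) : Prop where
  nonneg : ∀ x, 0 ≤ J x
  lsc : LowerSemicontinuous J
  lower : ∀ O : Set X, IsOpen O →
    -(⨅ x ∈ O, J x) ≤ liminf (fun n => ENNReal.log (P n O) / (s n : EReal)) atTop
  upper : ∀ F : Set X, IsClosed F →
    limsup (fun n => ENNReal.log (P n F) / (s n : EReal)) atTop ≤ -(⨅ x ∈ F, J x)

section

variable {X : Type*} (s : ℕ → ℕ) (P : ℕ → Set X → ℝ≥0∞)

/-- upper exponential rate of a set -/
noncomputable def rsup (A : Set X) : EReal :=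
  limsup (fun n => ENNReal.log (P n A) / (s n : EReal)) atTop

/-- lower exponential rate of a set -/
noncomputable def rinf (A : Set X) : EReal :=
  liminf (fun n => ENNReal.log (P n A) / (s n : EReal)) atTop

variable {s P}

lemma rsup_mono (hmono : ∀ n A B, A ⊆ B → P n A ≤ P n B) {A B : Set X} (h : A ⊆ B) :
    rsup s P A ≤ rsup s P B := by
  refine limsup_le_limsup (Eventually.of_forall fun n => ?_)
  exact EReal.div_le_div_right_of_nonneg (by positivity) (ENNReal.log_monotone (hmono n A B h))

lemma rinf_mono (hmono : ∀ n A B, A ⊆ B → P n A ≤ P n B) {A B : Set X} (h : A ⊆ B) :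
    rinf s P A ≤ rinf s P B := by
  refine liminf_le_liminf (Eventually.of_forall fun n => ?_)
  exact EReal.div_le_div_right_of_nonneg (by positivity) (ENNReal.log_monotone (hmono n A B h))

lemma rsup_nonpos (hone : ∀ n A, P n A ≤ 1) (A : Set X) : rsup s P A ≤ 0 := by
  have : rsup s P A ≤ limsup (fun _ : ℕ => (0 : EReal)) atTop := by
    refine limsup_le_limsup (Eventually.of_forall fun n => ?_)
    have h : ENNReal.log (P n A) ≤ 0 := by
      rw [← ENNReal.log_one]; exact ENNReal.log_monotone (hone n A)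
    calc ENNReal.log (P n A) / (s n : EReal) ≤ 0 / (s n : EReal) :=
          EReal.div_le_div_right_of_nonneg (by positivity) h
      _ = 0 := by simp
  simpa using this

/-- eventual exponential bound from a bound on the rate -/
lemma eventually_le_of_rsup_lt (hs : Tendsto s atTop atTop) {A : Set X} {a : ℝ}
    (h : rsup s P A < (a : EReal)) : ∀ᶠ n in atTop, P n A ≤ ENNReal.ofReal (Real.exp (a * s n)) := by
  have h1 := eventually_lt_of_limsup_lt h
  filter_upwards [h1, hs.eventually_gt_atTop 0] with n hn hpos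
  have hs0 : (0 : EReal) < (s n : EReal) := by exact_mod_cast hpos
  have hst : (s n : EReal) ≠ ⊤ := EReal.natCast_ne_top (s n)
  have h2 : ENNReal.log (P n A) ≤ (a : EReal) * (s n : EReal) := by
    have := hn.le
    rwa [EReal.div_le_iff_le_mul hs0 hst, mul_comm] at this
  have h3 : ENNReal.log (P n A) ≤ ENNReal.log (ENNReal.ofReal (Real.exp (a * s n))) := by
    refine h2.trans (le_of_eq ?_)
    rw [ENNReal.log_ofReal_of_pos (Real.exp_pos _), Real.log_exp]
    push_cast
    rfl
  exact ENNReal.log_le_log_iff.mp h3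

lemma rsup_le_of_eventually (hs : Tendsto s atTop atTop) {A : Set X} {a : ℝ}
    (h : ∀ᶠ n in atTop, P n A ≤ ENNReal.ofReal (Real.exp (a * s n))) : rsup s P A ≤ (a : EReal) := by
  have : rsup s P A ≤ limsup (fun _ : ℕ => (a : EReal)) atTop := by
    refine limsup_le_limsup ?_
    filter_upwards [h, hs.eventually_gt_atTop 0] with n hn hpos
    have hs0 : (0 : EReal) < (s n : EReal) := by exact_mod_cast hpos
    have hst : (s n : EReal) ≠ ⊤ := EReal.natCast_ne_top (s n)
    rw [EReal.div_le_iff_le_mul hs0 hst]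
    refine (ENNReal.log_monotone hn).trans (le_of_eq ?_)
    rw [ENNReal.log_ofReal_of_pos (Real.exp_pos _), Real.log_exp, mul_comm]
    push_cast
    rfl
  simpa using this

/-- `A` is exponentially small with some rate strictly below `a` -/
def Small (s : ℕ → ℕ) (P : ℕ → Set X → ℝ≥0∞) (a : ℝ) (A : Set X) : Prop :=
  ∃ b : ℝ, b < a ∧ ∀ᶠ n in atTop, P n A ≤ ENNReal.ofReal (Real.exp (b * s n))

lemma Small.mono (hmono : ∀ n A B, A ⊆ B → P n A ≤ P n B) {a : ℝ} {A B : Set X} (hAB : A ⊆ B)
    (h : Small s P a B) : Small s P a A := by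
  obtain ⟨b, hb, h⟩ := h
  exact ⟨b, hb, h.mono fun n hn => (hmono n A B hAB).trans hn⟩

lemma Small.union (hs : Tendsto s atTop atTop) (hunion : ∀ n A B, P n (A ∪ B) ≤ P n A + P n B)
    {a : ℝ} {A B : Set X} (hA : Small s P a A) (hB : Small s P a B) : Small s P a (A ∪ B) := by
  obtain ⟨b, hb, hA⟩ := hA
  obtain ⟨c, hc, hB⟩ := hB
  have hm : max b c < a := max_lt hb hc
  obtain ⟨d, hd1, hd2⟩ := exists_between hm
  refine ⟨d, hd2, ?_⟩
  have hgrow : ∀ᶠ n in atTop, Real.log 2 ≤ (d - max b c) * s n := by
    have h1 : Tendsto (fun n => (d - max b c) * (s n : ℝ)) atTop atTop :=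
      Tendsto.const_mul_atTop (by linarith) (tendsto_natCast_atTop_atTop.comp hs)
    exact h1.eventually_ge_atTop _
  filter_upwards [hA, hB, hgrow] with n h1 h2 h3
  calc P n (A ∪ B) ≤ P n A + P n B := hunion n A B
    _ ≤ ENNReal.ofReal (Real.exp (max b c * s n)) + ENNReal.ofReal (Real.exp (max b c * s n)) := by
        gcongr
        · refine h1.trans (ENNReal.ofReal_le_ofReal (Real.exp_le_exp.mpr ?_))
          exact mul_le_mul_of_nonneg_right (le_max_left _ _) (Nat.cast_nonneg _)
        · refine h2.trans (ENNReal.ofReal_le_ofReal (Real.exp_le_exp.mpr ?_))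
          exact mul_le_mul_of_nonneg_right (le_max_right _ _) (Nat.cast_nonneg _)
    _ = ENNReal.ofReal (Real.exp (Real.log 2 + max b c * s n)) := by
        rw [← ENNReal.ofReal_add (Real.exp_pos _).le (Real.exp_pos _).le, Real.exp_add,
          Real.exp_log (by norm_num)]
        ring_nf
    _ ≤ ENNReal.ofReal (Real.exp (d * s n)) := by
        refine ENNReal.ofReal_le_ofReal (Real.exp_le_exp.mpr ?_)
        nlinarith

end

section

variable {X : Type*} [TopologicalSpace X] (s : ℕ → ℕ) (P : ℕ → Set X → ℝ≥0∞)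

/-- candidate rate function -/
noncomputable def rate (x : X) : EReal := -(⨅ (W : Set X) (_ : IsOpen W ∧ x ∈ W), rsup s P W)

variable {s P}

lemma rate_lt {x : X} {a : EReal} (h : -a < rate s P x) :
    ∃ W, IsOpen W ∧ x ∈ W ∧ rsup s P W < a := by
  unfold rate at h
  rw [EReal.neg_lt_neg_iff] at h
  obtain ⟨W, hW⟩ := iInf_lt_iff.mp h
  obtain ⟨⟨h1, h2⟩, h3⟩ := iInf_lt_iff.mp hW
  exact ⟨W, h1, h2, h3⟩

lemma neg_rsup_le_rate {x : X} {W : Set X} (hW : IsOpen W) (hx : x ∈ W) :
    -rsup s P W ≤ rate s P x := by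
  unfold rate
  rw [EReal.neg_le_neg_iff]
  exact iInf₂_le W ⟨hW, hx⟩

/-- **A large deviation principle from local estimates.**  If the random elements live in a
compact set and, for every point `x` and every open `W ∋ x`, some open `U ∋ x` has upper
exponential rate at most the lower exponential rate of `W`, then there is a large deviation
principle. -/
theorem exists_ldp_of_local (hs : Tendsto s atTop atTop)
    (hmono : ∀ n A B, A ⊆ B → P n A ≤ P n B)
    (hunion : ∀ n A B, P n (A ∪ B) ≤ P n A + P n B) (hempty : ∀ n, P n ∅ = 0)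
    (hone : ∀ n A, P n A ≤ 1)
    (K : Set X) (hK : IsCompact K) (hPK : ∀ᶠ n in atTop, P n Kᶜ = 0)
    (hloc : ∀ x, ∀ W, IsOpen W → x ∈ W → ∃ U, IsOpen U ∧ x ∈ U ∧ rsup s P U ≤ rinf s P W) :
    ∃ J : X → EReal, IsLDP s P J := by
  refine ⟨rate s P, ?_, ?_, ?_, ?_⟩
  · intro x
    refine le_trans ?_ (neg_rsup_le_rate isOpen_univ (mem_univ x))
    rw [EReal.le_neg, neg_zero]
    exact rsup_nonpos hone _
  · intro x a ha
    obtain ⟨W, hW, hx, h⟩ := rate_lt (s := s) (P := P) (x := x) (a := -a) (by simpa using ha)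
    filter_upwards [hW.mem_nhds hx] with y hy
    refine lt_of_lt_of_le ?_ (neg_rsup_le_rate hW hy)
    rwa [EReal.lt_neg_comm]
  · intro O hO
    rw [EReal.neg_le]
    refine le_iInf₂ fun x hx => ?_
    obtain ⟨U, hU, hxU, h⟩ := hloc x O hO hx
    refine le_trans ?_ (neg_rsup_le_rate hU hxU)
    exact EReal.neg_le_neg_iff.mpr h
  · intro F hF
    refine EReal.le_of_forall_lt_iff_le.mp fun a ha => ?_
    change rsup s P F ≤ (a : EReal)
    have hsmall : Small s P a (K ∩ F) := by
      refine (hK.inter_right hF).induction_on (p := Small s P a) ?_ ?_ ?_ ?_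
      · refine ⟨a - 1, by linarith, Eventually.of_forall fun n => ?_⟩
        rw [hempty]; exact zero_le
      · intro A B hAB hB
        exact hB.mono hmono hAB
      · intro A B hA hB
        exact hA.union hs hunion hB
      · intro x hx
        have h1 : -(a : EReal) < rate s P x := by
          have h2 : (⨅ y ∈ F, rate s P y) ≤ rate s P x := iInf₂_le x hx.2
          refine lt_of_lt_of_le ?_ h2
          rwa [EReal.neg_lt_comm]
        obtain ⟨W, hW, hxW, h⟩ := rate_lt h1
        refine ⟨W, mem_nhdsWithin_of_mem_nhds (hW.mem_nhds hxW), ?_⟩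
        obtain ⟨b, hb1, hb2⟩ := EReal.lt_iff_exists_real_btwn.mp h
        exact ⟨b, by exact_mod_cast hb2, eventually_le_of_rsup_lt hs hb1⟩
    have hKc : Small s P a Kᶜ := by
      refine ⟨a - 1, by linarith, ?_⟩
      filter_upwards [hPK] with n hn
      rw [hn]; exact zero_le
    have hF' : Small s P a F := by
      refine Small.mono hmono ?_ (hsmall.union hs hunion hKc)
      intro x hx
      by_cases h : x ∈ K
      · exact Or.inl ⟨h, hx⟩
      · exact Or.inr h
    obtain ⟨b, hb, h⟩ := hF'
    exact (rsup_le_of_eventually hs h).trans (by exact_mod_cast hb.le)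

end

end Pool.Agent.Work.MP_c348a7_pr
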