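import Pool.Agent.Work.MP_c348a7_pr.Mean

/-!
# The limiting density of the components of a given type
-/

namespace Pool.Agent.Work.MP_c348a7_pr

open Filter Topology

/-- the limiting density of the components of type `τ` in `G(n, c/n)` -/
noncomputable def dens (c : ℝ) (τ : Σ k : ℕ, SimpleGraph (Fin k)) : ℝ :=
  open Classical in
  if τ.2.Connected ∧ τ.2.edgeSet.ncard + 1 = τ.1 then
    c ^ τ.2.edgeSet.ncard * Real.exp (-(c * τ.1)) / (τ.1.factorial : ℝ) else 0

lemma tendsto_choose_div_pow (k : ℕ) :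
    Tendsto (fun n : ℕ => (n.choose k : ℝ) / (n : ℝ) ^ k) atTop (𝓝 (1 / (k.factorial : ℝ))) := by
  have h := ProbabilityTheory.tendsto_choose_mul_pow_atTop (p := fun n : ℕ => 1 / (n : ℝ)) (r := 1) k ?_
  · rw [one_pow] at h
    refine h.congr fun n => ?_
    rw [one_div, inv_pow, div_eq_mul_inv]
  · refine tendsto_const_nhds.congr' ?_
    filter_upwards [eventually_gt_atTop 0] with n hn
    have : (n : ℝ) ≠ 0 := by exact_mod_cast hn.ne'
    field_simp

lemma exponent_eventually (k e : ℕ) (hk : 0 < k) :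
    ∀ᶠ n : ℕ in atTop, ((n.choose 2 - (n - k).choose 2 - e : ℕ) : ℝ) =
      k * n - (k * (k + 1) / 2 + e) := by
  have hbig : ∀ᶠ n : ℕ in atTop, (k * (k + 1) / 2 + e : ℝ) ≤ (k : ℝ) * n := by
    have : Tendsto (fun n : ℕ => (k : ℝ) * n) atTop atTop :=
      Tendsto.const_mul_atTop (by exact_mod_cast hk) tendsto_natCast_atTop_atTop
    exact this.eventually_ge_atTop _
  filter_upwards [hbig, eventually_ge_atTop k] with n hn hnk
  have h1 : (n - k).choose 2 ≤ n.choose 2 := Nat.choose_le_choose 2 (Nat.sub_le n k)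
  have h2 : ((n.choose 2 - (n - k).choose 2 : ℕ) : ℝ) = k * n - k * (k + 1) / 2 := by
    rw [Nat.cast_sub h1, Nat.cast_choose_two, Nat.cast_choose_two, Nat.cast_sub hnk]
    ring
  have h3 : e ≤ n.choose 2 - (n - k).choose 2 := by
    have : (e : ℝ) ≤ ((n.choose 2 - (n - k).choose 2 : ℕ) : ℝ) := by rw [h2]; linarith
    exact_mod_cast this
  rw [Nat.cast_sub h3, h2]
  ring

lemma tendsto_pow_exp (c : ℝ) (k e : ℕ) (hk : 0 < k) :
    Tendsto (fun n : ℕ => (1 - c / n) ^ (n.choose 2 - (n - k).choose 2 - e)) atTop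
      (𝓝 (Real.exp (-(c * k)))) := by
  have h1 : Tendsto (fun n : ℕ => (n : ℝ) * Real.log (1 + (-c) / n)) atTop (𝓝 (-c)) :=
    (Real.tendsto_mul_log_one_add_div_atTop (-c)).comp tendsto_natCast_atTop_atTop
  have h2 : Tendsto (fun n : ℕ => ((n.choose 2 - (n - k).choose 2 - e : ℕ) : ℝ) / n) atTop
      (𝓝 (k : ℝ)) := by
    have h3 : Tendsto (fun n : ℕ => (k : ℝ) - (k * (k + 1) / 2 + e) / n) atTop (𝓝 ((k : ℝ) - 0)) :=
      tendsto_const_nhds.sub (tendsto_const_div_atTop_nhds_zero_nat _)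
    rw [sub_zero] at h3
    refine h3.congr' ?_
    filter_upwards [exponent_eventually k e hk, eventually_gt_atTop 0] with n hn hn0
    have : (n : ℝ) ≠ 0 := by exact_mod_cast hn0.ne'
    rw [hn]
    field_simp
  have h4 := (h2.mul h1)
  have h5 : Tendsto (fun n : ℕ => Real.exp (((n.choose 2 - (n - k).choose 2 - e : ℕ) : ℝ) / n *
      ((n : ℝ) * Real.log (1 + (-c) / n)))) atTop (𝓝 (Real.exp (k * (-c)))) :=
    (Real.continuous_exp.tendsto _).comp h4
  have h6 : (k : ℝ) * (-c) = -(c * k) := by ring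
  rw [h6] at h5
  refine h5.congr' ?_
  have hlarge : ∀ᶠ n : ℕ in atTop, c < (n : ℝ) :=
    tendsto_natCast_atTop_atTop.eventually_gt_atTop c
  filter_upwards [hlarge, eventually_gt_atTop 0] with n hn hn0
  have hnR : (0 : ℝ) < n := by exact_mod_cast hn0
  have hpos : 0 < 1 - c / n := by
    rw [sub_pos, div_lt_one hnR]; exact hn
  have e1 : 1 + -c / (n : ℝ) = 1 - c / n := by ring
  rw [e1]
  have e2 : ((n.choose 2 - (n - k).choose 2 - e : ℕ) : ℝ) / n * ((n : ℝ) * Real.log (1 - c / n)) =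
      Real.log ((1 - c / n) ^ (n.choose 2 - (n - k).choose 2 - e)) := by
    rw [Real.log_pow]
    field_simp
  rw [e2, Real.exp_log (pow_pos hpos _)]

lemma connected_card_le {k : ℕ} {H : SimpleGraph (Fin k)} (h : H.Connected) :
    k ≤ H.edgeSet.ncard + 1 := by
  have := h.card_vert_le_card_edgeSet_add_one
  rwa [Nat.card_eq_fintype_card, Fintype.card_fin, Nat.card_coe_set_eq] at this

/-- **Limit of the expected density of components of type `τ`.** -/
lemma tendsto_mean_cnt (c : ℝ) (pr : ℕ → ℝ) (hpr : ∀ᶠ n : ℕ in atTop, pr n = c / n)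
    (τ : Σ k : ℕ, SimpleGraph (Fin k)) :
    Tendsto (fun n : ℕ => bern (allEdges n) (pr n) (fun S => (cnt (gr S) τ : ℝ)) / n) atTop
      (𝓝 (dens c τ)) := by
  classical
  obtain ⟨k, H⟩ := τ
  unfold dens
  by_cases hconn : H.Connected
  · have hk : 0 < k := by
      obtain ⟨i⟩ := hconn.nonempty
      exact i.pos
    have hle := connected_card_le hconn
    obtain ⟨d, hd⟩ := Nat.exists_eq_add_of_le hle
    set e := H.edgeSet.ncard with he
    have h1 : Tendsto (fun n : ℕ => ((n.choose k : ℝ) / (n : ℝ) ^ k) * (c ^ e * (1 / (n : ℝ)) ^ d) *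
        (1 - c / n) ^ (n.choose 2 - (n - k).choose 2 - e)) atTop
        (𝓝 ((1 / (k.factorial : ℝ)) * (c ^ e * 0 ^ d) * Real.exp (-(c * k)))) := by
      refine ((tendsto_choose_div_pow k).mul (tendsto_const_nhds.mul ?_)).mul (tendsto_pow_exp c k e hk)
      exact tendsto_one_div_atTop_nhds_zero_nat.pow d
    have hlim : (1 / (k.factorial : ℝ)) * (c ^ e * 0 ^ d) * Real.exp (-(c * k)) =
        if H.Connected ∧ e + 1 = k then c ^ e * Real.exp (-(c * k)) / (k.factorial : ℝ) else 0 := by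
      by_cases hd0 : d = 0
      · rw [if_pos ⟨hconn, by omega⟩, hd0, pow_zero]
        ring
      · rw [if_neg (by rintro ⟨_, h⟩; omega), zero_pow hd0]
        ring
    change Tendsto _ atTop (𝓝 (if H.Connected ∧ e + 1 = k then
      c ^ e * Real.exp (-(c * k)) / (k.factorial : ℝ) else 0))
    rw [← hlim]
    refine h1.congr' ?_
    filter_upwards [hpr, eventually_gt_atTop 0] with n hn hn0
    have hnR : (n : ℝ) ≠ 0 := by exact_mod_cast hn0.ne'
    rw [mean_cnt, if_pos hconn, hn, ← he]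
    have hpow : (n : ℝ) ^ k * (n : ℝ) ^ d = (n : ℝ) ^ e * n := by
      rw [← pow_add, ← hd, pow_succ]
    rw [div_pow c (n : ℝ) e, one_div, inv_pow]
    generalize (1 - c / (n : ℝ)) ^ (n.choose 2 - (n - k).choose 2 - e) = X
    field_simp
    linear_combination (-((n.choose k : ℝ) * c ^ e * X)) * hpow
  · rw [if_neg (fun h => hconn h.1)]
    refine tendsto_const_nhds.congr fun n => ?_
    rw [mean_cnt, if_neg hconn, zero_div]

end Pool.Agent.Work.MP_c348a7_pr
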