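import Pool.Agent.Work.MP_c348a7_pr.AlmostSure

/-!
# Almost sure LD-convergence of `G(n, c/n)` for `c ≤ 1`
-/

namespace Pool.Agent.Work.MP_c348a7_pr

open Filter Topology MeasureTheory
open scoped ENNReal

theorem ae_ldConvergent {c : ℝ} (hc0 : 0 < c) (hc1 : c ≤ 1) :
    ∀ᵐ G ∂(seqLaw c), LDConvergent (fun n => n) G := by
  have h1 : ∀ᵐ G ∂(seqLaw c), ∀ τ : Σ k : ℕ, SimpleGraph (Fin k), Tendsto (fun n : ℕ =>
      ((cnt (G n) τ : ℝ) - bern (allEdges n) (edgeProb c n : ℝ) (fun S => (cnt (gr S) τ : ℝ))) / n)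
      atTop (𝓝 0) := by
    rw [ae_all_iff]
    intro τ
    exact ae_tendsto hc0 (fun n G => (cnt G τ : ℝ)) 2 (by norm_num)
      (fun n S e he => cnt_lipschitz τ S e he)
  have h2 : ∀ᵐ G ∂(seqLaw c), ∀ K : ℕ, Tendsto (fun n : ℕ =>
      ((big (G n) K : ℝ) - bern (allEdges n) (edgeProb c n : ℝ) (fun S => (big (gr S) K : ℝ))) / n)
      atTop (𝓝 0) := by
    rw [ae_all_iff]
    intro K
    exact ae_tendsto hc0 (fun n G => (big G K : ℝ)) (2 + 2 * K ^ 2) (by positivity)
      (fun n S e he => big_lipschitz K S e he)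
  filter_upwards [h1, h2] with G hG1 hG2
  refine ldConvergent_of_stats (fun n => n) tendsto_id G (dens c) ?_ ?_
  · intro τ
    have h3 := (hG1 τ).add (tendsto_mean_cnt c _ (edgeProb_eventually hc0) τ)
    rw [zero_add] at h3
    refine h3.congr fun n => ?_
    ring
  · intro ε hε
    obtain ⟨K, hK⟩ := exists_tail_le hc0 hc1 (show 0 < ε / (8 * c) by positivity)
    refine ⟨2 * K, ?_⟩
    have h3 := hG2 (2 * K)
    have h4 := tendsto_mean_far c _ (edgeProb_eventually hc0) K
    have h5 : ∀ᶠ n : ℕ in atTop, bern (allEdges n) (edgeProb c n : ℝ)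
        (fun S => (far (gr S) K : ℝ)) / n ≤ ε / (4 * c) := by
      refine (h4.eventually_lt_const ?_).mono fun n hn => hn.le
      refine lt_of_le_of_lt hK ?_
      rw [div_lt_div_iff₀ (by positivity) (by positivity)]
      nlinarith
    have h6 : ∀ᶠ n : ℕ in atTop, ((big (G n) (2 * K) : ℝ) - bern (allEdges n) (edgeProb c n : ℝ)
        (fun S => (big (gr S) (2 * K) : ℝ))) / n ≤ ε / 2 :=
      (h3.eventually_lt_const (show (0 : ℝ) < ε / 2 by positivity)).mono fun n hn => hn.le
    filter_upwards [h5, h6, edgeProb_eventually hc0, eventually_gt_atTop 0] with n h5 h6 h7 h8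
    have hnR : (0 : ℝ) < n := by exact_mod_cast h8
    have h9 := mean_big_le (n := n) (edgeProb c n).2.1 (edgeProb c n).2.2 (2 * K)
    have h10 : 2 * K / 2 = K := by omega
    rw [h10, h7] at h9
    rw [h7] at h5 h6
    have h11 : (n : ℝ) * (c / n) = c := by field_simp
    rw [h11] at h9
    rw [div_le_iff₀ hnR] at h5 h6
    have h12 : 2 * c * (ε / (4 * c) * n) = ε / 2 * n := by field_simp; ring
    have h13 : 2 * c * bern (allEdges n) (c / n) (fun S => (far (gr S) K : ℝ)) ≤
        2 * c * (ε / (4 * c) * n) := by gcongr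
    linarith

end Pool.Agent.Work.MP_c348a7_pr
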