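import Pool.Agent.Work.MP_c348a7_pr.Graphs

/-!
# The expected number of components of a given type
-/

namespace Pool.Agent.Work.MP_c348a7_pr

open Finset

lemma mem_of_reachable {n : ℕ} {G : SimpleGraph (Fin n)} {A : Finset (Fin n)}
    (hcl : ∀ x ∈ A, ∀ y, G.Adj x y → y ∈ A) {x y : Fin n} (hx : x ∈ A) (h : G.Reachable x y) :
    y ∈ A := by
  obtain ⟨w⟩ := h
  induction w with
  | nil => exact hx
  | cons hab _ ih => exact ih (hcl _ hx _ hab)

lemma closed_of_mem_comps {n : ℕ} {G : SimpleGraph (Fin n)} {A : Finset (Fin n)}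
    (hA : A ∈ comps G) : ∀ x ∈ A, ∀ y, G.Adj x y → y ∈ A := by
  intro x hx y hxy
  rw [← comp_eq_of_mem_comps hA hx, mem_comp]
  exact hxy.reachable

/-- reachability inside a closed set is seen by the relabelled induced graph -/
lemma reachable_comap {n k : ℕ} {G : SimpleGraph (Fin n)} {A : Finset (Fin n)} (hA : A.card = k)
    (hcl : ∀ x ∈ A, ∀ y, G.Adj x y → y ∈ A) {x y : Fin n} (h : G.Reachable x y) :
    ∀ i, A.orderEmbOfFin hA i = x → ∃ j, A.orderEmbOfFin hA j = y ∧
      (G.comap (A.orderEmbOfFin hA)).Reachable i j := by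
  obtain ⟨w⟩ := h
  induction w with
  | nil => intro i hi; exact ⟨i, hi, SimpleGraph.Reachable.refl _⟩
  | @cons a b c hab _ ih =>
    intro i hi
    have ha : a ∈ A := hi ▸ Finset.orderEmbOfFin_mem _ _ _
    have hb : b ∈ A := hcl a ha b hab
    obtain ⟨j, hj⟩ : ∃ j, A.orderEmbOfFin hA j = b := by
      have : b ∈ Set.range (A.orderEmbOfFin hA) := by
        rw [Finset.range_orderEmbOfFin]; exact hb
      exact this
    obtain ⟨l, hl, hr⟩ := ih j hj
    refine ⟨l, hl, ?_⟩
    have hij : (G.comap (A.orderEmbOfFin hA)).Adj i j := by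
      rw [SimpleGraph.comap_adj, hi, hj]; exact hab
    exact hij.reachable.trans hr

open Classical in
/-- possible edges that touch `A` -/
noncomputable def touch {n : ℕ} (A : Finset (Fin n)) : Finset (Sym2 (Fin n)) :=
  (allEdges n).filter (fun e => ∃ x ∈ A, x ∈ e)

open Classical in
/-- the edges of `H`, placed on `A` in increasing order -/
noncomputable def place {n k : ℕ} (H : SimpleGraph (Fin k)) (A : Finset (Fin n)) (hA : A.card = k) :
    Finset (Sym2 (Fin n)) :=
  H.edgeFinset.image (Sym2.map (A.orderEmbOfFin hA))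

lemma mem_place {n k : ℕ} {H : SimpleGraph (Fin k)} {A : Finset (Fin n)} {hA : A.card = k}
    {x y : Fin n} : s(x, y) ∈ place H A hA ↔
      ∃ i j, A.orderEmbOfFin hA i = x ∧ A.orderEmbOfFin hA j = y ∧ H.Adj i j := by
  classical
  unfold place
  rw [Finset.mem_image]
  constructor
  · rintro ⟨e, he, hxy⟩
    induction e using Sym2.ind with
    | _ i j =>
      rw [SimpleGraph.mem_edgeFinset, SimpleGraph.mem_edgeSet] at he
      rw [Sym2.map_mk, Sym2.eq_iff] at hxy
      rcases hxy with ⟨h1, h2⟩ | ⟨h1, h2⟩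
      · exact ⟨i, j, h1, h2, he⟩
      · exact ⟨j, i, h2, h1, he.symm⟩
  · rintro ⟨i, j, rfl, rfl, hij⟩
    refine ⟨s(i, j), ?_, ?_⟩
    · rw [SimpleGraph.mem_edgeFinset, SimpleGraph.mem_edgeSet]; exact hij
    · rw [Sym2.map_mk]

lemma card_place {n k : ℕ} (H : SimpleGraph (Fin k)) (A : Finset (Fin n)) (hA : A.card = k) :
    (place H A hA).card = H.edgeSet.ncard := by
  classical
  unfold place
  rw [Finset.card_image_of_injective _ (Sym2.map.injective (A.orderEmbOfFin hA).injective),
    ← Set.ncard_coe_finset, SimpleGraph.coe_edgeFinset]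

lemma place_subset_touch {n k : ℕ} (H : SimpleGraph (Fin k)) (A : Finset (Fin n)) (hA : A.card = k) :
    place H A hA ⊆ touch A := by
  classical
  intro e he
  induction e using Sym2.ind with
  | _ x y =>
    obtain ⟨i, j, rfl, rfl, hij⟩ := mem_place.mp he
    unfold touch
    rw [Finset.mem_filter, mem_allEdges, Sym2.mk_isDiag_iff]
    refine ⟨fun h => ?_, A.orderEmbOfFin hA i, Finset.orderEmbOfFin_mem _ _ _, by simp⟩
    exact hij.ne ((A.orderEmbOfFin hA).injective h)

lemma touch_subset {n : ℕ} (A : Finset (Fin n)) : touch A ⊆ allEdges n := Finset.filter_subset _ _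

lemma card_touch {n : ℕ} (A : Finset (Fin n)) :
    (touch A).card = n.choose 2 - (n - A.card).choose 2 := by
  classical
  have h1 : allEdges n \ touch A = (Aᶜ).offDiag.image (fun p => s(p.1, p.2)) := by
    ext e
    induction e using Sym2.ind with
    | _ x y =>
      unfold touch
      rw [Finset.mem_sdiff, Finset.mem_filter, mem_allEdges, Sym2.mk_isDiag_iff, Finset.mem_image]
      constructor
      · rintro ⟨h1, h2⟩
        refine ⟨(x, y), ?_, rfl⟩
        rw [Finset.mem_offDiag, Finset.mem_compl, Finset.mem_compl]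
        refine ⟨fun hx => h2 ⟨h1, x, hx, by simp⟩, fun hy => h2 ⟨h1, y, hy, by simp⟩, h1⟩
      · rintro ⟨⟨a, b⟩, hab, heq⟩
        rw [Finset.mem_offDiag, Finset.mem_compl, Finset.mem_compl] at hab
        obtain ⟨ha, hb, hne⟩ := hab
        dsimp only at ha hb hne heq
        rw [Sym2.eq_iff] at heq
        rcases heq with ⟨rfl, rfl⟩ | ⟨rfl, rfl⟩
        · refine ⟨hne, ?_⟩
          rintro ⟨_, z, hz, hz'⟩
          rw [Sym2.mem_iff] at hz'
          rcases hz' with rfl | rfl
          · exact ha hz
          · exact hb hz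
        · refine ⟨hne.symm, ?_⟩
          rintro ⟨_, z, hz, hz'⟩
          rw [Sym2.mem_iff] at hz'
          rcases hz' with rfl | rfl
          · exact hb hz
          · exact ha hz
  have h2 : (allEdges n \ touch A).card = (n - A.card).choose 2 := by
    rw [h1]
    have h3 := Sym2.card_image_offDiag (Aᶜ)
    rw [Finset.card_compl, Fintype.card_fin] at h3
    exact h3
  have h4 := Finset.card_sdiff_add_card_eq_card (touch_subset A)
  rw [h2, card_allEdges] at h4
  omega

lemma comps_typ_iff {n k : ℕ} {S : Finset (Sym2 (Fin n))} [DecidableEq (Sym2 (Fin n))]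
    (H : SimpleGraph (Fin k))
    (A : Finset (Fin n)) (hA : A.card = k) :
    (A ∈ comps (gr S) ∧ typ (gr S) A = ⟨k, H⟩) ↔ (H.Connected ∧ S ∩ touch A = place H A hA) := by
  classical
  constructor
  · rintro ⟨hAc, ht⟩
    rw [typ_eq _ _ hA] at ht
    have hH : (gr S).comap (A.orderEmbOfFin hA) = H := eq_of_heq (Sigma.mk.inj_iff.mp ht).2
    have hcl := closed_of_mem_comps hAc
    refine ⟨?_, ?_⟩
    · obtain ⟨x, _, hx⟩ := Finset.mem_image.mp hAc
      have hne : A.Nonempty := ⟨x, hx ▸ self_mem_comp _ _⟩
      have hk : 0 < k := by rw [← hA]; exact hne.card_pos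
      have : Nonempty (Fin k) := ⟨⟨0, hk⟩⟩
      refine ⟨fun i j => ?_⟩
      have hr : (gr S).Reachable (A.orderEmbOfFin hA i) (A.orderEmbOfFin hA j) := by
        have h1 := comp_eq_of_mem_comps hAc (Finset.orderEmbOfFin_mem A hA i)
        have h2 : A.orderEmbOfFin hA j ∈ comp (gr S) (A.orderEmbOfFin hA i) := by
          rw [h1]; exact Finset.orderEmbOfFin_mem A hA j
        exact mem_comp.mp h2
      obtain ⟨j', hj', hr'⟩ := reachable_comap hA hcl hr i rfl
      rw [(A.orderEmbOfFin hA).injective hj', hH] at hr'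
      exact hr'
    · ext e
      induction e using Sym2.ind with
      | _ x y =>
        rw [Finset.mem_inter, mem_place]
        constructor
        · rintro ⟨h1, h2⟩
          unfold touch at h2
          rw [Finset.mem_filter, mem_allEdges, Sym2.mk_isDiag_iff] at h2
          obtain ⟨hne, z, hz, hz'⟩ := h2
          have hadj : (gr S).Adj x y := gr_adj.mpr ⟨h1, hne⟩
          have hxy : x ∈ A ∧ y ∈ A := by
            rw [Sym2.mem_iff] at hz'
            rcases hz' with rfl | rfl
            · exact ⟨hz, hcl _ hz _ hadj⟩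
            · exact ⟨hcl _ hz _ hadj.symm, hz⟩
          obtain ⟨i, hi⟩ : ∃ i, A.orderEmbOfFin hA i = x := by
            have : x ∈ Set.range (A.orderEmbOfFin hA) := by
              rw [Finset.range_orderEmbOfFin]; exact hxy.1
            exact this
          obtain ⟨j, hj⟩ : ∃ j, A.orderEmbOfFin hA j = y := by
            have : y ∈ Set.range (A.orderEmbOfFin hA) := by
              rw [Finset.range_orderEmbOfFin]; exact hxy.2
            exact this
          refine ⟨i, j, hi, hj, ?_⟩
          rw [← hH, SimpleGraph.comap_adj, hi, hj]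
          exact hadj
        · rintro ⟨i, j, rfl, rfl, hij⟩
          rw [← hH, SimpleGraph.comap_adj, gr_adj] at hij
          refine ⟨hij.1, ?_⟩
          unfold touch
          rw [Finset.mem_filter, mem_allEdges, Sym2.mk_isDiag_iff]
          exact ⟨hij.2, A.orderEmbOfFin hA i, Finset.orderEmbOfFin_mem _ _ _, by simp⟩
  · rintro ⟨hconn, hST⟩
    have hmem : ∀ x y, x ∈ A → (gr S).Adj x y →
        ∃ i j, A.orderEmbOfFin hA i = x ∧ A.orderEmbOfFin hA j = y ∧ H.Adj i j := by
      intro x y hx hxy
      rw [gr_adj] at hxy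
      rw [← mem_place (hA := hA), ← hST, Finset.mem_inter]
      refine ⟨hxy.1, ?_⟩
      unfold touch
      rw [Finset.mem_filter, mem_allEdges, Sym2.mk_isDiag_iff]
      exact ⟨hxy.2, x, hx, by simp⟩
    have hcl : ∀ x ∈ A, ∀ y, (gr S).Adj x y → y ∈ A := by
      intro x hx y hxy
      obtain ⟨i, j, _, rfl, _⟩ := hmem x y hx hxy
      exact Finset.orderEmbOfFin_mem _ _ _
    have hH : (gr S).comap (A.orderEmbOfFin hA) = H := by
      ext i j
      rw [SimpleGraph.comap_adj]
      constructor
      · intro h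
        obtain ⟨i', j', hi, hj, hij⟩ := hmem _ _ (Finset.orderEmbOfFin_mem _ _ _) h
        rw [(A.orderEmbOfFin hA).injective hi, (A.orderEmbOfFin hA).injective hj] at hij
        exact hij
      · intro h
        rw [gr_adj]
        have h1 : s(A.orderEmbOfFin hA i, A.orderEmbOfFin hA j) ∈ S ∩ touch A := by
          rw [hST, mem_place]
          exact ⟨i, j, rfl, rfl, h⟩
        exact ⟨(Finset.mem_inter.mp h1).1, fun h2 => h.ne ((A.orderEmbOfFin hA).injective h2)⟩
    refine ⟨?_, ?_⟩
    · obtain ⟨i₀⟩ := hconn.nonempty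
      have : comp (gr S) (A.orderEmbOfFin hA i₀) = A := by
        ext y
        rw [mem_comp]
        constructor
        · intro h
          exact mem_of_reachable hcl (Finset.orderEmbOfFin_mem _ _ _) h
        · intro hy
          obtain ⟨j, hj⟩ : ∃ j, A.orderEmbOfFin hA j = y := by
            have : y ∈ Set.range (A.orderEmbOfFin hA) := by
              rw [Finset.range_orderEmbOfFin]; exact hy
            exact this
          rw [← hj]
          have hr : H.Reachable i₀ j := hconn.preconnected i₀ j
          rw [← hH] at hr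
          exact hr.map (SimpleGraph.Hom.comap _ _)
      rw [← this]
      exact comp_mem_comps _ _
    · rw [typ_eq _ _ hA, hH]

open Classical in
/-- **The expected number of components of a given type.** -/
lemma mean_cnt (n k : ℕ) (H : SimpleGraph (Fin k)) (p : ℝ) :
    bern (allEdges n) p (fun S => (cnt (gr S) ⟨k, H⟩ : ℝ)) =
      if H.Connected then (n.choose k : ℝ) * (p ^ H.edgeSet.ncard *
        (1 - p) ^ (n.choose 2 - (n - k).choose 2 - H.edgeSet.ncard)) else 0 := by
  have h1 : ∀ S : Finset (Sym2 (Fin n)), (cnt (gr S) ⟨k, H⟩ : ℝ) =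
      ∑ A ∈ Finset.powersetCard k Finset.univ,
        if A ∈ comps (gr S) ∧ typ (gr S) A = ⟨k, H⟩ then (1 : ℝ) else 0 := by
    intro S
    unfold cnt
    rw [← Finset.sum_filter, Finset.sum_const, nsmul_eq_mul, mul_one]
    congr 2
    ext A
    rw [Finset.mem_filter, Finset.mem_filter, Finset.mem_powersetCard]
    constructor
    · rintro ⟨h1, h2⟩
      refine ⟨⟨Finset.subset_univ _, ?_⟩, h1, h2⟩
      exact congrArg Sigma.fst h2
    · rintro ⟨_, h1, h2⟩
      exact ⟨h1, h2⟩
  simp only [h1]
  rw [bern_sum]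
  have h2 : ∀ A ∈ Finset.powersetCard k (Finset.univ : Finset (Fin n)),
      bern (allEdges n) p (fun S => if A ∈ comps (gr S) ∧ typ (gr S) A = ⟨k, H⟩ then (1 : ℝ) else 0) =
      if H.Connected then (p ^ H.edgeSet.ncard *
        (1 - p) ^ (n.choose 2 - (n - k).choose 2 - H.edgeSet.ncard)) else 0 := by
    intro A hA
    have hAk : A.card = k := (Finset.mem_powersetCard.mp hA).2
    split_ifs with hconn
    · have h3 : bern (allEdges n) p
          (fun S => if A ∈ comps (gr S) ∧ typ (gr S) A = ⟨k, H⟩ then (1 : ℝ) else 0) =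
          bern (allEdges n) p (fun S => (fun S' => if S' = place H A hAk then (1 : ℝ) else 0)
            (S ∩ touch A)) := by
        refine bern_congr fun S _ => ?_
        refine if_congr ?_ rfl rfl
        rw [comps_typ_iff H A hAk]
        exact ⟨fun h => h.2, fun h => ⟨hconn, h⟩⟩
      rw [h3]
      refine (bern_inter (touch_subset A) p
        (fun S' => if S' = place H A hAk then (1 : ℝ) else 0)).trans ?_
      rw [bern_single (place_subset_touch H A hAk), card_place, card_touch, hAk]
    · refine (bern_congr fun S _ => ?_).trans (bern_const _ _ 0)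
      refine if_neg ?_
      rw [comps_typ_iff H A hAk]
      exact fun h => hconn h.1
  rw [Finset.sum_congr rfl h2, Finset.sum_const, Finset.card_powersetCard, Finset.card_univ,
    Fintype.card_fin, nsmul_eq_mul]
  split_ifs <;> simp

end Pool.Agent.Work.MP_c348a7_pr
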