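import Pool.Agent.Work.MP_c348a7_pr.Criterion
import Mathlib.Combinatorics.SimpleGraph.Hasse

/-!
# Sequences of graphs close to paths are LD-convergent
-/

namespace Pool.Agent.Work.MP_c348a7_pr

open Filter Topology
open scoped NNReal

open Classical in
/-- number of ordered pairs on which `G`, relabelled by `e`, differs from the path graph -/
noncomputable def pathEdit {N : ℕ} (G : SimpleGraph (Fin N)) (e : Equiv.Perm (Fin N)) : ℕ :=
  (Finset.univ.filter (fun p : Fin N × Fin N =>
    ¬ (G.Adj (e p.1) (e p.2) ↔ (SimpleGraph.pathGraph N).Adj p.1 p.2))).card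

/-- consecutive blocks of length `M` -/
def blk {N q M : ℕ} (h : q * M ≤ N) : Fin q × Fin M ↪ Fin N :=
  finProdFinEquiv.toEmbedding.trans (Fin.castLEEmb h)

lemma blk_val {N q M : ℕ} (h : q * M ≤ N) (i : Fin q) (x : Fin M) :
    (blk h (i, x) : ℕ) = x + M * i := by
  simp [blk, finProdFinEquiv]

/-- blocks relabelled -/
def blkRel {N q M : ℕ} (h : q * M ≤ N) (e : Equiv.Perm (Fin N)) (e' : Equiv.Perm (Fin M)) :
    Fin q × Fin M ↪ Fin N :=
  ((Equiv.prodCongr (Equiv.refl _) e'.symm).toEmbedding.trans (blk h)).trans e.toEmbedding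

lemma blkRel_apply {N q M : ℕ} (h : q * M ≤ N) (e : Equiv.Perm (Fin N)) (e' : Equiv.Perm (Fin M))
    (i : Fin q) (x : Fin M) : blkRel h e e' (i, x) = e (blk h (i, e'.symm x)) := rfl

/-- the next vertex -/
def nxt {N : ℕ} (a : Fin N) : Fin N := if h : a.val + 1 < N then ⟨a.val + 1, h⟩ else a

open Classical in
lemma card_pathPairs_le {N : ℕ} (T : Finset (Fin N)) (e : Equiv.Perm (Fin N)) :
    (Finset.univ.filter (fun p : Fin N × Fin N => (SimpleGraph.pathGraph N).Adj (e p.1) (e p.2) ∧
      (min (e p.1) (e p.2)) ∈ T)).card ≤ 2 * T.card := by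
  have hsub : (Finset.univ.filter (fun p : Fin N × Fin N => (SimpleGraph.pathGraph N).Adj (e p.1) (e p.2) ∧
      (min (e p.1) (e p.2)) ∈ T)) ⊆ T.image (fun a => (e.symm a, e.symm (nxt a))) ∪
        T.image (fun a => (e.symm (nxt a), e.symm a)) := by
    rintro ⟨x, y⟩ hp
    rw [Finset.mem_filter] at hp
    obtain ⟨-, hadj, hT⟩ := hp
    dsimp only at hadj hT
    rw [SimpleGraph.pathGraph_adj] at hadj
    rw [Finset.mem_union, Finset.mem_image, Finset.mem_image]
    rcases hadj with h | h
    · left
      have hle : e x ≤ e y := by rw [Fin.le_def]; omega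
      rw [min_eq_left hle] at hT
      refine ⟨e x, hT, ?_⟩
      have : nxt (e x) = e y := by
        unfold nxt
        have h2 := (e y).isLt
        rw [dif_pos (by omega)]
        apply Fin.ext
        exact h
      rw [this]
      simp
    · right
      have hle : e y ≤ e x := by rw [Fin.le_def]; omega
      rw [min_eq_right hle] at hT
      refine ⟨e y, hT, ?_⟩
      have : nxt (e y) = e x := by
        unfold nxt
        have h2 := (e x).isLt
        rw [dif_pos (by omega)]
        apply Fin.ext
        exact h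
      rw [this]
      simp
  refine (Finset.card_le_card hsub).trans ((Finset.card_union_le _ _).trans ?_)
  rw [two_mul]
  exact Nat.add_le_add Finset.card_image_le Finset.card_image_le

open Classical in
lemma defect_blkRel_le {N q M : ℕ} (hM : 0 < M) (h : q * M ≤ N) (G : SimpleGraph (Fin N))
    (H : SimpleGraph (Fin M)) (e : Equiv.Perm (Fin N)) (e' : Equiv.Perm (Fin M)) :
    defect G H (blkRel h e e') ≤ pathEdit G e + q * pathEdit H e' + 2 * (q + (N - q * M)) := by
  set T : Finset (Fin N) := Finset.univ.filter (fun a : Fin N => q * M ≤ a.val ∨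
    ∃ j < q, a.val = j * M + (M - 1)) with hT
  have hTcard : T.card ≤ q + (N - q * M) := by
    have h1 : T.map Fin.valEmbedding ⊆ (Finset.range q).image (fun j => j * M + (M - 1)) ∪
        Finset.Ico (q * M) N := by
      intro a ha
      rw [Finset.mem_map] at ha
      obtain ⟨b, hb, rfl⟩ := ha
      rw [hT, Finset.mem_filter] at hb
      rw [Finset.mem_union, Finset.mem_image, Finset.mem_Ico]
      rcases hb.2 with h2 | ⟨j, hj, h2⟩
      · exact Or.inr ⟨h2, b.isLt⟩
      · exact Or.inl ⟨j, Finset.mem_range.mpr hj, h2.symm⟩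
    calc T.card = (T.map Fin.valEmbedding).card := (Finset.card_map _).symm
      _ ≤ _ := Finset.card_le_card h1
      _ ≤ _ := Finset.card_union_le _ _
      _ ≤ q + (N - q * M) := by
        refine Nat.add_le_add (Finset.card_image_le.trans (by simp)) (by simp)
  set B1 : Finset (Fin N × Fin N) := (Finset.univ.filter (fun p : Fin N × Fin N =>
    ¬ (G.Adj (e p.1) (e p.2) ↔ (SimpleGraph.pathGraph N).Adj p.1 p.2))).image
      (fun p => (e p.1, e p.2)) with hB1
  set B2 : Finset (Fin N × Fin N) := ((Finset.univ : Finset (Fin q)) ×ˢ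
    (Finset.univ.filter (fun p : Fin M × Fin M =>
    ¬ (H.Adj (e' p.1) (e' p.2) ↔ (SimpleGraph.pathGraph M).Adj p.1 p.2)))).image
      (fun a => (e (blk h (a.1, a.2.1)), e (blk h (a.1, a.2.2)))) with hB2
  set B3 : Finset (Fin N × Fin N) := Finset.univ.filter (fun p : Fin N × Fin N =>
    (SimpleGraph.pathGraph N).Adj (e.symm p.1) (e.symm p.2) ∧
      (min (e.symm p.1) (e.symm p.2)) ∈ T) with hB3
  have hcards : (B1 ∪ B2 ∪ B3).card ≤ pathEdit G e + q * pathEdit H e' + 2 * (q + (N - q * M)) := by
    refine (Finset.card_union_le _ _).trans (Nat.add_le_add ((Finset.card_union_le _ _).trans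
      (Nat.add_le_add Finset.card_image_le ?_)) ?_)
    · refine Finset.card_image_le.trans ?_
      rw [Finset.card_product, Finset.card_univ, Fintype.card_fin]
      exact le_of_eq rfl
    · refine (card_pathPairs_le T e.symm).trans ?_
      exact Nat.mul_le_mul_left 2 hTcard
  -- the key equivalence
  have hkey : ∀ p : Fin N × Fin N, p ∉ B1 ∪ B2 ∪ B3 →
      (p ∈ adjPairs G ↔ p ∈ blockPairs H (blkRel h e e')) := by
    rintro ⟨x, y⟩ hp
    rw [Finset.mem_union, Finset.mem_union, not_or, not_or] at hp
    obtain ⟨⟨hp1, hp2⟩, hp3⟩ := hp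
    obtain ⟨a, rfl⟩ := e.surjective x
    obtain ⟨b, rfl⟩ := e.surjective y
    have h1 : G.Adj (e a) (e b) ↔ (SimpleGraph.pathGraph N).Adj a b := by
      by_contra hcon
      exact hp1 (Finset.mem_image.mpr ⟨(a, b), Finset.mem_filter.mpr ⟨Finset.mem_univ _, hcon⟩, rfl⟩)
    have h2 : ∀ i u v, a = blk h (i, u) → b = blk h (i, v) →
        (H.Adj (e' u) (e' v) ↔ (SimpleGraph.pathGraph M).Adj u v) := by
      intro i u v ha hb
      by_contra hcon
      exact hp2 (Finset.mem_image.mpr ⟨(i, (u, v)), Finset.mem_product.mpr ⟨Finset.mem_univ _,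
        Finset.mem_filter.mpr ⟨Finset.mem_univ _, hcon⟩⟩, by simp only [ha, hb]⟩)
    have h3 : ¬ ((SimpleGraph.pathGraph N).Adj a b ∧ min a b ∈ T) := by
      intro hcon
      refine hp3 (Finset.mem_filter.mpr ⟨Finset.mem_univ _, ?_⟩)
      simpa using hcon
    have hG : (e a, e b) ∈ adjPairs G ↔ G.Adj (e a) (e b) := by simp [adjPairs]
    have hH : (e a, e b) ∈ blockPairs H (blkRel h e e') ↔
        ∃ i u v, H.Adj (e' u) (e' v) ∧ a = blk h (i, u) ∧ b = blk h (i, v) := by
      unfold blockPairs
      rw [Finset.mem_image]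
      constructor
      · rintro ⟨⟨i, x, y⟩, hm, heq⟩
        rw [Finset.mem_product] at hm
        have hxy : H.Adj x y := (Finset.mem_filter.mp hm.2).2
        simp only [blkRel_apply, Prod.mk.injEq, EmbeddingLike.apply_eq_iff_eq] at heq
        refine ⟨i, e'.symm x, e'.symm y, ?_, heq.1.symm, heq.2.symm⟩
        simpa using hxy
      · rintro ⟨i, u, v, huv, rfl, rfl⟩
        refine ⟨(i, (e' u, e' v)), Finset.mem_product.mpr ⟨Finset.mem_univ _,
          Finset.mem_filter.mpr ⟨Finset.mem_univ _, huv⟩⟩, ?_⟩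
        simp [blkRel_apply]
    rw [hG, hH, h1]
    constructor
    · intro hadj
      have hmin : min a b ∉ T := fun hm => h3 ⟨hadj, hm⟩
      rw [SimpleGraph.pathGraph_adj] at hadj
      -- the smaller one is below q * M and not last in its block
      have hcase : ∀ c d : Fin N, c.val + 1 = d.val → c ∉ T →
          ∃ i u v, c = blk h (i, u) ∧ d = blk h (i, v) ∧ (SimpleGraph.pathGraph M).Adj u v := by
        intro c d hcd hc
        rw [hT, Finset.mem_filter, not_and] at hc
        have hc' := hc (Finset.mem_univ _)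
        rw [not_or, not_le] at hc'
        obtain ⟨hc1, hc2⟩ := hc'
        have hdiv : c.val / M < q := by
          rw [Nat.div_lt_iff_lt_mul hM]; exact hc1
        have hmod := Nat.mod_lt c.val hM
        have hdm := Nat.div_add_mod c.val M
        have hne : c.val % M ≠ M - 1 := by
          intro heq
          refine hc2 ⟨c.val / M, hdiv, ?_⟩
          rw [← heq, mul_comm]; exact hdm.symm
        refine ⟨⟨c.val / M, hdiv⟩, ⟨c.val % M, hmod⟩, ⟨c.val % M + 1, by omega⟩, ?_, ?_, ?_⟩
        · apply Fin.ext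
          rw [blk_val]
          simp only
          omega
        · apply Fin.ext
          rw [blk_val]
          simp only
          omega
        · rw [SimpleGraph.pathGraph_adj]
          left; rfl
      rcases hadj with hab | hab
      · have hle : a ≤ b := by rw [Fin.le_def]; omega
        rw [min_eq_left hle] at hmin
        obtain ⟨i, u, v, ha, hb, huv⟩ := hcase a b hab hmin
        exact ⟨i, u, v, (h2 i u v ha hb).mpr huv, ha, hb⟩
      · have hle : b ≤ a := by rw [Fin.le_def]; omega
        rw [min_eq_right hle] at hmin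
        obtain ⟨i, u, v, hb, ha, huv⟩ := hcase b a hab hmin
        exact ⟨i, v, u, (h2 i v u ha hb).mpr huv.symm, ha, hb⟩
    · rintro ⟨i, u, v, huv, ha, hb⟩
      have h4 := (h2 i u v ha hb).mp huv
      rw [SimpleGraph.pathGraph_adj] at h4 ⊢
      rw [ha, hb, blk_val, blk_val]
      omega
  have hsub : (adjPairs G \ blockPairs H (blkRel h e e')) ∪
      (blockPairs H (blkRel h e e') \ adjPairs G) ⊆ B1 ∪ B2 ∪ B3 := by
    intro p hp
    by_contra hcon
    have := hkey p hcon
    rw [Finset.mem_union, Finset.mem_sdiff, Finset.mem_sdiff] at hp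
    tauto
  have hdisj : Disjoint (adjPairs G \ blockPairs H (blkRel h e e'))
      (blockPairs H (blkRel h e e') \ adjPairs G) := disjoint_sdiff_sdiff
  unfold defect
  rw [← Finset.card_union_of_disjoint hdisj]
  exact (Finset.card_le_card hsub).trans hcards

open Classical in
lemma card_adjPairs_le_pathEdit {N : ℕ} (G : SimpleGraph (Fin N)) (e : Equiv.Perm (Fin N)) :
    (adjPairs G).card ≤ pathEdit G e + 2 * N := by
  have hsub : adjPairs G ⊆ ((Finset.univ.filter (fun p : Fin N × Fin N =>
    ¬ (G.Adj (e p.1) (e p.2) ↔ (SimpleGraph.pathGraph N).Adj p.1 p.2))).image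
      (fun p => (e p.1, e p.2))) ∪ Finset.univ.filter (fun p : Fin N × Fin N =>
    (SimpleGraph.pathGraph N).Adj (e.symm p.1) (e.symm p.2) ∧
      (min (e.symm p.1) (e.symm p.2)) ∈ (Finset.univ : Finset (Fin N))) := by
    rintro ⟨x, y⟩ hp
    have hxy : G.Adj x y := (Finset.mem_filter.mp hp).2
    rw [Finset.mem_union]
    by_cases hP : (SimpleGraph.pathGraph N).Adj (e.symm x) (e.symm y)
    · right
      exact Finset.mem_filter.mpr ⟨Finset.mem_univ _, hP, Finset.mem_univ _⟩
    · left
      refine Finset.mem_image.mpr ⟨(e.symm x, e.symm y), Finset.mem_filter.mpr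
        ⟨Finset.mem_univ _, ?_⟩, by simp⟩
      simp only [Equiv.apply_symm_apply]
      tauto
  refine (Finset.card_le_card hsub).trans ((Finset.card_union_le _ _).trans
    (Nat.add_le_add Finset.card_image_le ?_))
  refine (card_pathPairs_le Finset.univ e.symm).trans ?_
  rw [Finset.card_univ, Fintype.card_fin]

/-- **Graphs close to paths.**  If the graphs `G n` can be relabelled so that they differ from paths
on `o(N n)` pairs, the sequence is LD-convergent. -/
theorem ldConvergent_of_path (N : ℕ → ℕ) (hN : Tendsto N atTop atTop)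
    (G : ∀ n, SimpleGraph (Fin (N n))) (e : ∀ n, Equiv.Perm (Fin (N n)))
    (h : ∀ ε : ℝ, 0 < ε → ∀ᶠ n in atTop, (pathEdit (G n) (e n) : ℝ) ≤ ε * N n) :
    LDConvergent N G := by
  refine ldConvergent_of_selfSimilar N hN G 3 ?_ ?_
  · filter_upwards [h 1 one_pos] with n hn
    have h3 : ((adjPairs (G n)).card : ℝ) ≤ pathEdit (G n) (e n) + 2 * N n := by
      exact_mod_cast card_adjPairs_le_pathEdit (G n) (e n)
    push_cast
    linarith
  · intro ε hε
    have hm0 : ∀ᶠ m in atTop, (8 / ε : ℝ) ≤ N m := by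
      exact (tendsto_natCast_atTop_atTop.comp hN).eventually_ge_atTop _
    filter_upwards [h (ε / 8) (by positivity), hN.eventually_gt_atTop 0, hm0] with m hm hMpos hm8
    have hMR : (0 : ℝ) < N m := by exact_mod_cast hMpos
    have hlarge : ∀ᶠ n in atTop, (N m : ℝ) ≤ (ε / 8) * N n := by
      have : Tendsto (fun n => (ε / 8) * (N n : ℝ)) atTop atTop :=
        Tendsto.const_mul_atTop (by positivity) (tendsto_natCast_atTop_atTop.comp hN)
      exact this.eventually_ge_atTop _
    filter_upwards [h (ε / 8) (by positivity), hN.eventually_gt_atTop 0, hlarge] with n hn hNpos hnl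
    have hNR : (0 : ℝ) < N n := by exact_mod_cast hNpos
    obtain ⟨q, hq⟩ : ∃ q, q = N n / N m := ⟨_, rfl⟩
    have hqle : q * N m ≤ N n := by rw [hq]; exact Nat.div_mul_le_self _ _
    have hqR : (q : ℝ) * N m ≤ N n := by exact_mod_cast hqle
    have hrem : N n - q * N m ≤ N m := by
      have h6 := Nat.div_add_mod (N n) (N m)
      have h7 := Nat.mod_lt (N n) hMpos
      rw [hq, mul_comm]
      omega
    have hremR : (N n : ℝ) - q * N m ≤ N m := by
      have : ((N n - q * N m : ℕ) : ℝ) ≤ N m := by exact_mod_cast hrem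
      rw [Nat.cast_sub hqle] at this
      push_cast at this
      exact this
    refine ⟨q, blkRel hqle (e n) (e m), ?_, ?_⟩
    · calc (N n : ℝ) - q * N m ≤ N m := hremR
        _ ≤ (ε / 8) * N n := hnl
        _ ≤ ε * N n := by nlinarith
    · have h1 := defect_blkRel_le hMpos hqle (G n) (G m) (e n) (e m)
      have h2 : (defect (G n) (G m) (blkRel hqle (e n) (e m)) : ℝ) ≤
          pathEdit (G n) (e n) + q * pathEdit (G m) (e m) + 2 * (q + ((N n - q * N m : ℕ) : ℝ)) := by
        exact_mod_cast h1
      rw [Nat.cast_sub hqle] at h2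
      push_cast at h2
      have h3 : (q : ℝ) * pathEdit (G m) (e m) ≤ ε / 8 * N n := by
        calc (q : ℝ) * pathEdit (G m) (e m) ≤ q * (ε / 8 * N m) := by gcongr
          _ = ε / 8 * (q * N m) := by ring
          _ ≤ ε / 8 * N n := by gcongr
      have h4 : (q : ℝ) ≤ ε / 8 * N n := by
        have h5 : (q : ℝ) * (8 / ε) ≤ N n := (by gcongr : (q : ℝ) * (8 / ε) ≤ q * N m).trans hqR
        rw [mul_div_assoc'] at h5
        rw [div_le_iff₀ hε] at h5
        linarith
      have hpos : 0 ≤ ε * N n := by positivity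
      linarith

end Pool.Agent.Work.MP_c348a7_pr
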