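import Pool.Agent.Work.MP_c348a7_pr.TwoRegCount
import Pool.Agent.Work.MP_c348a7_pr.Stats
import Pool.Agent.Work.MP_c348a7_pr.Graphs
import Mathlib.Probability.Distributions.Uniform
import Mathlib.Probability.ProductMeasure
import Mathlib.Analysis.SpecificLimits.Normed

/-!
# Random regular graphs of degree at most two
-/

namespace Pool.Agent.Work.MP_c348a7_pr

open Filter Topology MeasureTheory
open scoped ENNReal NNReal

open Classical in
/-- the `Δ`-regular graphs on `N` labelled vertices -/
noncomputable def regularGraphs (N Δ : ℕ) : Finset (SimpleGraph (Fin N)) :=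
  Finset.univ.filter (fun G => ∀ v, (G.neighborSet v).ncard = Δ)

/-- the law of the uniformly random `Δ`-regular graph on `N` labelled vertices -/
noncomputable def uniformRegular (N Δ : ℕ) (h : (regularGraphs N Δ).Nonempty) :
    Measure (SimpleGraph (Fin N)) :=
  (PMF.uniformOfFinset (regularGraphs N Δ) h).toMeasure

instance (N Δ : ℕ) (h : (regularGraphs N Δ).Nonempty) :
    IsProbabilityMeasure (uniformRegular N Δ h) := by
  unfold uniformRegular; infer_instance

lemma mem_regularGraphs {N Δ : ℕ} {G : SimpleGraph (Fin N)} :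
    G ∈ regularGraphs N Δ ↔ ∀ v, (G.neighborSet v).ncard = Δ := by
  simp [regularGraphs]

lemma uniformRegular_apply (N Δ : ℕ) (h : (regularGraphs N Δ).Nonempty)
    (p : SimpleGraph (Fin N) → Prop) [DecidablePred p] : uniformRegular N Δ h {G | p G} =
      (((regularGraphs N Δ).filter p).card : ℝ≥0∞) / (regularGraphs N Δ).card := by
  classical
  have := measurableSingletonClass_simpleGraph N
  unfold uniformRegular
  rw [PMF.toMeasure_uniformOfFinset_apply _ _ (Set.toFinite _).measurableSet]
  have h1 : ∀ inst : DecidablePred (fun G => G ∈ {G : SimpleGraph (Fin N) | p G}),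
      @Finset.filter _ (fun G => G ∈ {G : SimpleGraph (Fin N) | p G}) inst (regularGraphs N Δ) =
      (regularGraphs N Δ).filter p := by
    intro inst
    ext G
    simp only [Finset.mem_filter, Set.mem_ofPred_eq]
  rw [h1]

lemma uniformRegular_compl (N Δ : ℕ) (h : (regularGraphs N Δ).Nonempty) :
    uniformRegular N Δ h {G | G ∉ regularGraphs N Δ} = 0 := by
  classical
  rw [uniformRegular_apply]
  have h2 : (regularGraphs N Δ).filter (fun G => G ∉ regularGraphs N Δ) = ∅ := by
    rw [Finset.filter_eq_empty_iff]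
    intro G hG hG'
    exact hG' hG
  rw [h2]
  simp

lemma uniformRegular_two_le (N : ℕ) (hN : 3 ≤ N) (h : (regularGraphs N 2).Nonempty) (k : ℕ) :
    uniformRegular N 2 h {G | k ≤ nComp G} ≤ ENNReal.ofReal (2 * N * (1 / 2) ^ k) := by
  classical
  rw [uniformRegular_apply]
  have h1 := card_nComp_le hN k
  have hs : twoReg (Fin N) = regularGraphs N 2 := by
    ext G
    rw [mem_regularGraphs, mem_twoReg]
  rw [hs] at h1
  have hpos : 0 < (regularGraphs N 2).card := Finset.card_pos.mpr h
  generalize ((regularGraphs N 2).filter (fun G => k ≤ nComp G)).card = a at h1 ⊢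
  generalize (regularGraphs N 2).card = b at h1 hpos ⊢
  have hposR : (0 : ℝ) < b := by exact_mod_cast hpos
  have h3 : (a : ℝ) * 2 ^ k ≤ 2 * N * b := by exact_mod_cast h1
  have h4 : (a : ℝ) / b ≤ 2 * N * (1 / 2) ^ k := by
    rw [div_le_iff₀ hposR]
    have h5 : (0 : ℝ) < 2 ^ k := by positivity
    rw [← mul_le_mul_iff_left₀ h5]
    calc _ ≤ 2 * (N : ℝ) * b := h3
      _ = 2 * N * (1 / 2) ^ k * b * 2 ^ k := by
        rw [one_div, inv_pow]
        field_simp
  refine le_trans (le_of_eq ?_) (ENNReal.ofReal_le_ofReal h4)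
  rw [ENNReal.ofReal_div_of_pos hposR, ENNReal.ofReal_natCast, ENNReal.ofReal_natCast]

/-! ### Degrees zero and one -/

lemma comp_regular_le_one {N Δ : ℕ} (hΔ : Δ ≤ 1) (G : SimpleGraph (Fin N))
    (hG : ∀ v, (G.neighborSet v).ncard = Δ) (x : Fin N) :
    (comp G x).card = Δ + 1 ∧ ∀ u ∈ comp G x, ∀ v ∈ comp G x, u ≠ v → G.Adj u v := by
  classical
  have hclosed : ∀ y, G.Reachable x y → y = x ∨ G.Adj x y := by
    rintro y ⟨p⟩
    induction p with
    | nil => left; rfl
    | @cons u v w h p ih =>
      rcases ih with rfl | hw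
      · right; exact h
      · left
        by_contra hne
        have hsub : ({u, w} : Set (Fin N)) ⊆ G.neighborSet v := by
          intro z hz
          rcases hz with rfl | rfl
          · exact h.symm
          · exact hw
        have h2 := Set.ncard_le_ncard hsub (Set.toFinite _)
        rw [hG v, Set.ncard_pair (Ne.symm hne)] at h2
        omega
  have hcomp : comp G x = insert x ((Set.toFinite (G.neighborSet x)).toFinset) := by
    ext y
    rw [mem_comp, Finset.mem_insert, Set.Finite.mem_toFinset, SimpleGraph.mem_neighborSet]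
    constructor
    · exact hclosed y
    · rintro (rfl | h)
      · exact SimpleGraph.Reachable.refl _
      · exact h.reachable
  constructor
  · rw [hcomp, Finset.card_insert_of_notMem, ← Set.ncard_eq_toFinset_card, hG]
    rw [Set.Finite.mem_toFinset]
    exact G.irrefl
  · intro u hu v hv huv
    rw [hcomp, Finset.mem_insert, Set.Finite.mem_toFinset, SimpleGraph.mem_neighborSet] at hu hv
    rcases hu with rfl | hu <;> rcases hv with rfl | hv
    · exact absurd rfl huv
    · exact hv
    · exact hu.symm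
    · exfalso
      have hsub : ({u, v} : Set (Fin N)) ⊆ G.neighborSet x := by
        intro z hz
        rcases hz with rfl | rfl
        · exact hu
        · exact hv
      have h2 := Set.ncard_le_ncard hsub (Set.toFinite _)
      rw [hG x, Set.ncard_pair huv] at h2
      omega

lemma typ_regular_le_one {N Δ : ℕ} (hΔ : Δ ≤ 1) (G : SimpleGraph (Fin N))
    (hG : ∀ v, (G.neighborSet v).ncard = Δ) {A : Finset (Fin N)} (hA : A ∈ comps G) :
    A.card = Δ + 1 ∧ typ G A = ⟨Δ + 1, ⊤⟩ := by
  classical
  obtain ⟨x, _, rfl⟩ := Finset.mem_image.mp hA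
  obtain ⟨h1, h2⟩ := comp_regular_le_one hΔ G hG x
  refine ⟨h1, ?_⟩
  rw [typ_eq G _ h1]
  congr 1
  ext i j
  rw [SimpleGraph.comap_adj, SimpleGraph.top_adj]
  constructor
  · intro h hij
    rw [hij] at h
    exact G.irrefl h
  · intro hij
    exact h2 _ (Finset.orderEmbOfFin_mem _ _ _) _ (Finset.orderEmbOfFin_mem _ _ _)
      (fun h => hij ((Finset.orderEmbOfFin _ _).injective h))

lemma cnt_regular_le_one {N Δ : ℕ} (hΔ : Δ ≤ 1) (G : SimpleGraph (Fin N))
    (hG : ∀ v, (G.neighborSet v).ncard = Δ) :
    (cnt G ⟨Δ + 1, ⊤⟩) * (Δ + 1) = N ∧ ∀ τ, τ ≠ ⟨Δ + 1, ⊤⟩ → cnt G τ = 0 := by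
  classical
  constructor
  · have h2 : cnt G ⟨Δ + 1, ⊤⟩ = (comps G).card := by
      unfold cnt
      congr 1
      exact Finset.filter_true_of_mem fun A hA => (typ_regular_le_one hΔ G hG hA).2
    rw [h2]
    have h3 : (Finset.univ : Finset (Fin N)).card = ∑ A ∈ comps G,
        (Finset.univ.filter (fun x => comp G x = A)).card :=
      Finset.card_eq_sum_card_fiberwise (f := comp G) (t := comps G)
        (fun x _ => comp_mem_comps G x)
    rw [Finset.card_univ, Fintype.card_fin] at h3
    refine Eq.trans ?_ h3.symm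
    rw [Finset.sum_congr rfl (g := fun _ => Δ + 1), Finset.sum_const, smul_eq_mul]
    intro A hA
    rw [← (typ_regular_le_one hΔ G hG hA).1]
    congr 1
    ext x
    rw [Finset.mem_filter]
    constructor
    · rintro ⟨_, h⟩
      rw [← h]; exact self_mem_comp G x
    · intro h
      exact ⟨Finset.mem_univ _, comp_eq_of_mem_comps hA h⟩
  · intro τ hτ
    unfold cnt
    rw [Finset.card_eq_zero, Finset.filter_eq_empty_iff]
    intro A hA h
    exact hτ (h.symm.trans (typ_regular_le_one hΔ G hG hA).2)

/-- empty graphs and perfect matchings -/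
lemma ldConvergent_regular_le_one {Δ : ℕ} (hΔ : Δ ≤ 1) (N : ℕ → ℕ) (hN : Tendsto N atTop atTop)
    (G : ∀ n, SimpleGraph (Fin (N n))) (hG : ∀ n, G n ∈ regularGraphs (N n) Δ) :
    LDConvergent N G := by
  classical
  refine ldConvergent_of_stats N hN G (fun τ => if τ = ⟨Δ + 1, ⊤⟩ then 1 / ((Δ : ℝ) + 1) else 0) ?_ ?_
  · intro τ
    by_cases hτ : τ = ⟨Δ + 1, ⊤⟩
    · subst hτ
      rw [if_pos rfl]
      refine tendsto_const_nhds.congr' ?_
      filter_upwards [hN.eventually_gt_atTop 0] with n hn
      have h1 := (cnt_regular_le_one hΔ (G n) (mem_regularGraphs.mp (hG n))).1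
      have h2 : (cnt (G n) ⟨Δ + 1, ⊤⟩ : ℝ) * (Δ + 1) = N n := by exact_mod_cast h1
      have hNR : (0 : ℝ) < N n := by exact_mod_cast hn
      rw [eq_div_iff hNR.ne', ← h2]
      field_simp
    · rw [if_neg hτ]
      refine tendsto_const_nhds.congr fun n => ?_
      rw [(cnt_regular_le_one hΔ (G n) (mem_regularGraphs.mp (hG n))).2 τ hτ]
      simp
  · intro ε hε
    refine ⟨Δ + 1, Eventually.of_forall fun n => ?_⟩
    have h1 : big (G n) (Δ + 1) = 0 := by
      unfold big
      rw [Finset.card_eq_zero, Finset.filter_eq_empty_iff]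
      intro p _ h
      have := (comp_regular_le_one hΔ (G n) (mem_regularGraphs.mp (hG n)) p.1).1
      omega
    rw [h1]
    push_cast
    positivity

/-! ### Degree two -/

lemma ldConvergent_two_regular (N : ℕ → ℕ) (hN : Tendsto N atTop atTop)
    (G : ∀ n, SimpleGraph (Fin (N n))) (hG : ∀ n, G n ∈ regularGraphs (N n) 2)
    (h : ∀ j : ℕ, ∀ᶠ n in atTop, ¬ ((1 / ((j : ℝ) + 1)) * N n ≤ nComp (G n))) :
    LDConvergent N G := by
  have h1 : ∀ n, ∃ e : Equiv.Perm (Fin (N n)), pathEdit (G n) e ≤ 4 * nComp (G n) :=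
    fun n => exists_pathEdit_le (G n) (mem_regularGraphs.mp (hG n))
  choose e he using h1
  refine ldConvergent_of_path N hN G e ?_
  intro ε hε
  obtain ⟨j, hj⟩ := exists_nat_one_div_lt (show 0 < ε / 4 by positivity)
  filter_upwards [h j] with n hn
  rw [not_le] at hn
  have h2 : (pathEdit (G n) (e n) : ℝ) ≤ 4 * nComp (G n) := by exact_mod_cast he n
  have h3 : (1 / ((j : ℝ) + 1)) * N n ≤ ε / 4 * N n := by gcongr
  linarith

theorem ae_ldConvergent_regular {Δ : ℕ} (hΔ : Δ ≤ 2) (N : ℕ → ℕ) (hN : StrictMono N)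
    (hne : ∀ n, (regularGraphs (N n) Δ).Nonempty) :
    ∀ᵐ G ∂(Measure.infinitePi fun n : ℕ => uniformRegular (N n) Δ (hne n)), LDConvergent N G := by
  classical
  have hmeas : ∀ (n : ℕ) (S : Set (SimpleGraph (Fin (N n)))),
      (Measure.infinitePi fun n : ℕ => uniformRegular (N n) Δ (hne n)) {G | G n ∈ S} =
      uniformRegular (N n) Δ (hne n) S := by
    intro n S
    have := measurableSingletonClass_simpleGraph (N n)
    have h1 := (measurePreserving_eval_infinitePi
      (fun n : ℕ => uniformRegular (N n) Δ (hne n)) n).measure_preimage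
      (s := S) (Set.toFinite _).measurableSet.nullMeasurableSet
    rw [← h1]
    rfl
  have hreg : ∀ᵐ G ∂(Measure.infinitePi fun n : ℕ => uniformRegular (N n) Δ (hne n)),
      ∀ n, G n ∈ regularGraphs (N n) Δ := by
    rw [ae_all_iff]
    intro n
    rw [ae_iff]
    exact (hmeas n {G | G ∉ regularGraphs (N n) Δ}).trans (uniformRegular_compl _ _ _)
  rcases Nat.lt_or_ge Δ 2 with hlt | hge
  · filter_upwards [hreg] with G hG
    exact ldConvergent_regular_le_one (by omega) N hN.tendsto_atTop G hG
  · obtain rfl : Δ = 2 := le_antisymm hΔ hge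
    have key : ∀ j : ℕ, ∀ᵐ G ∂(Measure.infinitePi fun n : ℕ => uniformRegular (N n) 2 (hne n)),
        ∀ᶠ n : ℕ in atTop, ¬ ((1 / ((j : ℝ) + 1)) * N n ≤ nComp (G n)) := by
      intro j
      set ε : ℝ := 1 / ((j : ℝ) + 1) with hε
      have hε0 : 0 < ε := by positivity
      set r : ℝ := (1 / 2 : ℝ) ^ ε with hr
      have hr0 : 0 < r := by positivity
      have hr1 : r < 1 := Real.rpow_lt_one (by norm_num) (by norm_num) hε0
      have hsummable : Summable (fun x : ℕ => 2 * ((x : ℝ) * r ^ x)) := by
        refine Summable.mul_left 2 ?_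
        have := summable_pow_mul_geometric_of_norm_lt_one 1 (r := r)
          (by rw [Real.norm_eq_abs, abs_of_pos hr0]; exact hr1)
        simpa using this
      have hbound : ∀ n : ℕ, 3 ≤ N n → uniformRegular (N n) 2 (hne n) {G | ε * N n ≤ nComp G} ≤
          ENNReal.ofReal (2 * ((N n : ℝ) * r ^ (N n))) := by
        intro n hn
        have h1 : {G : SimpleGraph (Fin (N n)) | ε * N n ≤ nComp G} ⊆
            {G | ⌈ε * N n⌉₊ ≤ nComp G} := by
          intro G hG
          exact Nat.ceil_le.mpr hG
        refine (measure_mono h1).trans ((uniformRegular_two_le (N n) hn (hne n) _).trans ?_)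
        refine ENNReal.ofReal_le_ofReal ?_
        have h2 : (1 / 2 : ℝ) ^ ⌈ε * N n⌉₊ ≤ r ^ (N n) := by
          rw [hr, ← Real.rpow_natCast, ← Real.rpow_natCast, ← Real.rpow_mul (by norm_num)]
          refine Real.rpow_le_rpow_of_exponent_ge (by norm_num) (by norm_num) ?_
          exact Nat.le_ceil _
        calc 2 * (N n : ℝ) * (1 / 2) ^ ⌈ε * N n⌉₊ ≤ 2 * (N n : ℝ) * r ^ (N n) := by gcongr
          _ = 2 * ((N n : ℝ) * r ^ (N n)) := by ring
      have hsum : (∑' n : ℕ, (Measure.infinitePi fun n : ℕ => uniformRegular (N n) 2 (hne n))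
          {G | ε * N n ≤ nComp (G n)}) ≠ ∞ := by
        have hle : ∀ n : ℕ, (Measure.infinitePi fun n : ℕ => uniformRegular (N n) 2 (hne n))
            {G | ε * N n ≤ nComp (G n)} ≤
            ENNReal.ofReal (2 * ((N n : ℝ) * r ^ (N n))) + (if n < 3 then 1 else 0) := by
          intro n
          refine (hmeas n {G | ε * N n ≤ nComp G}).le.trans ?_
          by_cases hn : n < 3
          · rw [if_pos hn]
            exact prob_le_one.trans le_add_self
          · rw [if_neg hn, add_zero]
            exact hbound n ((not_lt.mp hn).trans hN.le_apply)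
        refine ne_top_of_le_ne_top ?_ (ENNReal.tsum_le_tsum hle)
        rw [ENNReal.tsum_add]
        refine ENNReal.add_ne_top.mpr ⟨?_, ?_⟩
        · have hs2 : Summable (fun n : ℕ => 2 * ((N n : ℝ) * r ^ (N n))) :=
            hsummable.comp_injective hN.injective
          rw [← ENNReal.ofReal_tsum_of_nonneg (fun n => by positivity) hs2]
          exact ENNReal.ofReal_ne_top
        · rw [tsum_eq_sum (s := Finset.range 3)]
          · refine ENNReal.sum_ne_top.mpr fun n _ => ?_
            split_ifs <;> simp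
          · intro n hn
            rw [Finset.mem_range] at hn
            exact if_neg hn
      exact ae_eventually_notMem hsum
    rw [← ae_all_iff] at key
    filter_upwards [key, hreg] with G hG1 hG2
    exact ldConvergent_two_regular N hN.tendsto_atTop G hG2 hG1

end Pool.Agent.Work.MP_c348a7_pr
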