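import Pool.Agent.Work.MP_c348a7_pr.Graphs

/-!
# Expected numbers of vertices and edges in large components
-/

namespace Pool.Agent.Work.MP_c348a7_pr

open Finset

/-- the number of vertices in components with more than `K` vertices -/
noncomputable def far {N : ℕ} (G : SimpleGraph (Fin N)) (K : ℕ) : ℕ :=
  (Finset.univ.filter (fun x => K < (comp G x).card)).card

/-- the vertices in small components, counted by types -/
lemma sum_cnt {N : ℕ} (G : SimpleGraph (Fin N)) (K : ℕ) :
    ∑ τ ∈ types K, τ.1 * cnt G τ + far G K = N := by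
  classical
  have h1 : far G K + (Finset.univ.filter (fun x => ¬ K < (comp G x).card)).card = N := by
    unfold far
    rw [Finset.card_filter_add_card_filter_not, Finset.card_univ, Fintype.card_fin]
  have h2 : (Finset.univ.filter (fun x => ¬ K < (comp G x).card)).card =
      ∑ A ∈ (comps G).filter (fun A => A.card ≤ K), A.card := by
    rw [Finset.card_eq_sum_card_fiberwise (f := comp G)
      (t := (comps G).filter (fun A => A.card ≤ K))]
    · refine Finset.sum_congr rfl fun A hA => ?_
      rw [Finset.mem_filter] at hA
      congr 1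
      ext x
      rw [Finset.mem_filter, Finset.mem_filter]
      constructor
      · rintro ⟨_, rfl⟩
        exact self_mem_comp G x
      · intro hx
        have h3 := comp_eq_of_mem_comps hA.1 hx
        exact ⟨⟨Finset.mem_univ _, by rw [h3]; omega⟩, h3⟩
    · intro x hx
      rw [Finset.mem_coe, Finset.mem_filter] at hx
      exact Finset.mem_coe.mpr (Finset.mem_filter.mpr ⟨comp_mem_comps G x, not_lt.mp hx.2⟩)
  have h3 : ∑ A ∈ (comps G).filter (fun A => A.card ≤ K), A.card =
      ∑ τ ∈ types K, τ.1 * cnt G τ := by
    rw [← Finset.sum_fiberwise_of_maps_to (g := typ G) (t := types K)]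
    · refine Finset.sum_congr rfl fun τ hτ => ?_
      unfold cnt
      rw [mul_comm, ← smul_eq_mul, ← Finset.sum_const]
      refine Finset.sum_congr ?_ ?_
      · ext A
        rw [Finset.mem_filter, Finset.mem_filter, Finset.mem_filter]
        constructor
        · rintro ⟨⟨h1, _⟩, h2⟩
          exact ⟨h1, h2⟩
        · rintro ⟨h1, h2⟩
          refine ⟨⟨h1, ?_⟩, h2⟩
          have : A.card = τ.1 := congrArg Sigma.fst h2
          rw [this]; exact mem_types.mp hτ
      · intro A hA
        rw [Finset.mem_filter] at hA
        exact congrArg Sigma.fst hA.2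
    · intro A hA
      rw [Finset.mem_filter] at hA
      exact mem_types.mpr hA.2
  rw [← h3, ← h2, add_comm]
  exact h1

/-- `x` reaches `y` through a first step, the rest avoiding `x` -/
lemma first_step {n : ℕ} {S : Finset (Sym2 (Fin n))} [DecidableEq (Fin n)] {x y : Fin n}
    (hxy : x ≠ y) (h : (gr S).Reachable x y) :
    ∃ u, x ≠ u ∧ s(x, u) ∈ S ∧ (gr (S.filter (fun e => x ∉ e))).Reachable u y := by
  obtain ⟨w, hw⟩ := h.exists_isPath
  cases w with
  | nil => exact absurd rfl hxy
  | @cons _ u _ hab q =>
    rw [SimpleGraph.Walk.cons_isPath_iff] at hw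
    refine ⟨u, (gr_adj.mp hab).2, (gr_adj.mp hab).1, ?_⟩
    refine ⟨q.transfer _ ?_⟩
    intro e he
    induction e using Sym2.ind with
    | _ a b =>
      have h1 : (gr S).Adj a b := q.adj_of_mem_edges he
      rw [SimpleGraph.mem_edgeSet, gr_adj, Finset.mem_filter]
      refine ⟨⟨(gr_adj.mp h1).1, ?_⟩, (gr_adj.mp h1).2⟩
      intro hx
      rw [Sym2.mem_iff] at hx
      rcases hx with rfl | rfl
      · exact hw.2 (q.fst_mem_support_of_mem_edges he)
      · exact hw.2 (q.snd_mem_support_of_mem_edges he)

open Classical in
/-- **Susceptibility bound**: in the subcritical regime the expected size of the component of a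
vertex is bounded. -/
lemma susceptibility {n : ℕ} {p : ℝ} (hp0 : 0 ≤ p) (hp1 : p ≤ 1) (hnp : n * p < 1) :
    bern (allEdges n) p (fun S => ∑ x : Fin n, ((comp (gr S) x).card : ℝ)) ≤ n / (1 - n * p) := by
  set r : Fin n → Fin n → ℝ := fun x y =>
    bern (allEdges n) p (fun S => if (gr S).Reachable x y then 1 else 0) with hr
  have hr0 : ∀ x y, 0 ≤ r x y := fun x y => bern_nonneg hp0 hp1 fun S _ => by split_ifs <;> norm_num
  have hrec : ∀ x y, r x y ≤ (if x = y then 1 else 0) + ∑ u, p * r u y := by
    intro x y
    have hpt : ∀ S ⊆ allEdges n, (if (gr S).Reachable x y then (1 : ℝ) else 0) ≤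
        (if x = y then 1 else 0) + ∑ u, (if x ≠ u then (if s(x, u) ∈ S then
          (if (gr (S.filter (fun e => x ∉ e))).Reachable u y then 1 else 0) else 0) else 0) := by
      intro S _
      have hnn : ∀ u ∈ (Finset.univ : Finset (Fin n)), (0 : ℝ) ≤ (if x ≠ u then (if s(x, u) ∈ S then
          (if (gr (S.filter (fun e => x ∉ e))).Reachable u y then 1 else 0) else 0) else 0) := by
        intro u _
        split_ifs <;> norm_num
      by_cases hxy : x = y
      · rw [if_pos hxy]
        have := Finset.sum_nonneg hnn
        split_ifs <;> linarith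
      · rw [if_neg hxy, zero_add]
        by_cases hreach : (gr S).Reachable x y
        · rw [if_pos hreach]
          obtain ⟨u, hu1, hu2, hu3⟩ := first_step hxy hreach
          refine le_trans ?_ (Finset.single_le_sum hnn (Finset.mem_univ u))
          rw [if_pos hu1, if_pos hu2, if_pos hu3]
        · rw [if_neg hreach]
          exact Finset.sum_nonneg hnn
    refine (bern_mono hp0 hp1 hpt).trans ?_
    rw [bern_add, bern_const, bern_sum]
    refine add_le_add_right (Finset.sum_le_sum fun u _ => ?_) _
    by_cases hxu : x = u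
    · simp only [hxu, ne_eq, not_true_eq_false, if_false]
      rw [bern_const]
      exact mul_nonneg hp0 (hr0 u y)
    · simp only [ne_eq, hxu, not_false_eq_true, if_true]
      have he : s(x, u) ∈ allEdges n := by
        rw [mem_allEdges, Sym2.mk_isDiag_iff]; exact hxu
      refine (le_of_eq (bern_mem he p (fun S =>
        if (gr (S.filter (fun e => x ∉ e))).Reachable u y then (1 : ℝ) else 0))).trans ?_
      refine mul_le_mul_of_nonneg_left (bern_mono hp0 hp1 fun S _ => ?_) hp0
      have h1 : (insert s(x, u) S).filter (fun e => x ∉ e) ⊆ S := by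
        intro e he'
        rw [Finset.mem_filter, Finset.mem_insert] at he'
        rcases he'.1 with rfl | h
        · exact absurd (by simp) he'.2
        · exact h
      by_cases h2 : (gr ((insert s(x, u) S).filter (fun e => x ∉ e))).Reachable u y
      · rw [if_pos h2, if_pos]
        refine h2.mono ?_
        intro a b hab
        rw [gr_adj] at hab ⊢
        exact ⟨h1 hab.1, hab.2⟩
      · rw [if_neg h2]
        split_ifs <;> norm_num
  have hsum : bern (allEdges n) p (fun S => ∑ x : Fin n, ((comp (gr S) x).card : ℝ)) =
      ∑ x, ∑ y, r x y := by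
    rw [bern_sum]
    refine Finset.sum_congr rfl fun x _ => ?_
    rw [hr, ← bern_sum]
    refine bern_congr fun S _ => ?_
    rw [← Finset.sum_filter, Finset.sum_const, nsmul_eq_mul, mul_one]
    rfl
  rw [hsum]
  set R : ℝ := ∑ x, ∑ y, r x y with hR
  have hRle : R ≤ n + n * p * R := by
    calc R ≤ ∑ x : Fin n, ∑ y : Fin n, ((if x = y then (1 : ℝ) else 0) + ∑ u, p * r u y) :=
          Finset.sum_le_sum fun x _ => Finset.sum_le_sum fun y _ => hrec x y
      _ = n + n * p * R := by
          simp only [Finset.sum_add_distrib, Finset.sum_ite_eq, Finset.mem_univ, if_true,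
            Finset.sum_const, Finset.card_univ, Fintype.card_fin, nsmul_eq_mul, mul_one]
          rw [Finset.sum_comm]
          simp only [← Finset.mul_sum]
          ring
  rw [le_div_iff₀ (by linarith)]
  linarith

lemma far_mul_le {N : ℕ} (G : SimpleGraph (Fin N)) (K : ℕ) :
    far G K * K ≤ ∑ x : Fin N, (comp G x).card := by
  unfold far
  calc (Finset.univ.filter (fun x => K < (comp G x).card)).card * K
      = ∑ x ∈ Finset.univ.filter (fun x => K < (comp G x).card), K := by
        rw [Finset.sum_const, smul_eq_mul]
    _ ≤ ∑ x ∈ Finset.univ.filter (fun x => K < (comp G x).card), (comp G x).card :=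
        Finset.sum_le_sum fun x hx => (Finset.mem_filter.mp hx).2.le
    _ ≤ ∑ x : Fin N, (comp G x).card :=
        Finset.sum_le_sum_of_subset (Finset.subset_univ _)

open Classical in
/-- **Edges in large components.** -/
lemma mean_big_le {n : ℕ} {p : ℝ} (hp0 : 0 ≤ p) (hp1 : p ≤ 1) (K : ℕ) :
    bern (allEdges n) p (fun S => (big (gr S) K : ℝ)) ≤
      2 * (n * p) * bern (allEdges n) p (fun S => (far (gr S) (K / 2) : ℝ)) := by
  set f : Fin n → ℝ := fun x =>
    bern (allEdges n) p (fun S => if K / 2 < (comp (gr S) x).card then 1 else 0) with hf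
  have hf0 : ∀ x, 0 ≤ f x := fun x => bern_nonneg hp0 hp1 fun S _ => by split_ifs <;> norm_num
  have hfar : bern (allEdges n) p (fun S => (far (gr S) (K / 2) : ℝ)) = ∑ x, f x := by
    rw [hf, ← bern_sum]
    refine bern_congr fun S _ => ?_
    unfold far
    rw [← Finset.sum_filter, Finset.sum_const, nsmul_eq_mul, mul_one]
  have hbig : ∀ S : Finset (Sym2 (Fin n)), (big (gr S) K : ℝ) =
      ∑ x : Fin n, ∑ y : Fin n, (if (gr S).Adj x y ∧ K < (comp (gr S) x).card then (1 : ℝ) else 0) := by
    intro S
    unfold big adjPairs
    rw [← Finset.sum_product' Finset.univ Finset.univ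
      (fun x y => (if (gr S).Adj x y ∧ K < (comp (gr S) x).card then (1 : ℝ) else 0)),
      ← Finset.sum_filter, Finset.sum_const, nsmul_eq_mul, mul_one, Finset.filter_filter]
    rfl
  simp only [hbig]
  rw [bern_sum]
  have hterm : ∀ x y : Fin n, bern (allEdges n) p (fun S =>
      (if (gr S).Adj x y ∧ K < (comp (gr S) x).card then (1 : ℝ) else 0)) ≤ p * (f x + f y) := by
    intro x y
    by_cases hxy : x = y
    · subst hxy
      have : bern (allEdges n) p (fun S =>
        (if (gr S).Adj x x ∧ K < (comp (gr S) x).card then (1 : ℝ) else 0)) = 0 := by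
        refine (bern_congr fun S _ => ?_).trans (bern_const _ _ 0)
        exact if_neg (fun h => h.1.ne rfl)
      rw [this]
      have := hf0 x
      positivity
    · have he : s(x, y) ∈ allEdges n := by
        rw [mem_allEdges, Sym2.mk_isDiag_iff]; exact hxy
      have h1 : bern (allEdges n) p (fun S =>
          (if (gr S).Adj x y ∧ K < (comp (gr S) x).card then (1 : ℝ) else 0)) =
          bern (allEdges n) p (fun S => if s(x, y) ∈ S then
            (if K < (comp (gr S) x).card then (1 : ℝ) else 0) else 0) := by
        refine bern_congr fun S _ => ?_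
        by_cases h : s(x, y) ∈ S
        · rw [if_pos h]
          refine if_congr ?_ rfl rfl
          rw [gr_adj]
          exact ⟨fun hh => hh.2, fun hh => ⟨⟨h, hxy⟩, hh⟩⟩
        · rw [if_neg h, if_neg]
          rw [gr_adj]
          exact fun hh => h hh.1.1
      rw [h1, bern_mem he p (fun S => if K < (comp (gr S) x).card then (1 : ℝ) else 0)]
      refine mul_le_mul_of_nonneg_left ?_ hp0
      rw [hf, ← bern_add]
      refine bern_mono hp0 hp1 fun S _ => ?_
      have hadd : Added (gr S) (gr (insert s(x, y) S)) x y := added_gr hxy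
      have hsub : comp (gr (insert s(x, y) S)) x ⊆ comp (gr S) x ∪ comp (gr S) y := by
        intro z hz
        rw [Finset.mem_union]
        exact hadd.comp_union (Or.inl (self_mem_comp _ _)) hz
      have hcard := (Finset.card_le_card hsub).trans (Finset.card_union_le _ _)
      by_cases hK : K < (comp (gr (insert s(x, y) S)) x).card
      · rw [if_pos hK]
        by_cases hx : K / 2 < (comp (gr S) x).card
        · rw [if_pos hx]
          split_ifs <;> norm_num
        · have hy : K / 2 < (comp (gr S) y).card := by omega
          rw [if_pos hy]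
          split_ifs <;> norm_num
      · rw [if_neg hK]
        split_ifs <;> norm_num
  calc ∑ x : Fin n, bern (allEdges n) p (fun S => ∑ y : Fin n,
        (if (gr S).Adj x y ∧ K < (comp (gr S) x).card then (1 : ℝ) else 0))
      = ∑ x : Fin n, ∑ y : Fin n, bern (allEdges n) p (fun S =>
        (if (gr S).Adj x y ∧ K < (comp (gr S) x).card then (1 : ℝ) else 0)) :=
        Finset.sum_congr rfl fun x _ => bern_sum _ _ _ _
    _ ≤ ∑ x : Fin n, ∑ y : Fin n, p * (f x + f y) :=
        Finset.sum_le_sum fun x _ => Finset.sum_le_sum fun y _ => hterm x y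
    _ = 2 * (n * p) * ∑ x, f x := by
        simp only [mul_add, Finset.sum_add_distrib, Finset.sum_const, Finset.card_univ,
          Fintype.card_fin, nsmul_eq_mul, ← Finset.mul_sum]
        ring
    _ = 2 * (n * p) * bern (allEdges n) p (fun S => (far (gr S) (K / 2) : ℝ)) := by rw [hfar]

end Pool.Agent.Work.MP_c348a7_pr
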