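import Pool.Agent.Work.MP_c348a7_pr.Limit
import Pool.Agent.Work.MP_c348a7_pr.Tails

/-!
# For `c ≤ 1` almost all vertices lie in bounded components
-/

namespace Pool.Agent.Work.MP_c348a7_pr

open Filter Topology

/-- the limiting fraction of vertices in components with more than `K` vertices -/
noncomputable def tail (c : ℝ) (K : ℕ) : ℝ := 1 - ∑ τ ∈ types K, (τ.1 : ℝ) * dens c τ

lemma dens_nonneg {c : ℝ} (hc : 0 ≤ c) (τ : Σ k : ℕ, SimpleGraph (Fin k)) : 0 ≤ dens c τ := by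
  unfold dens
  split_ifs
  · positivity
  · exact le_rfl

lemma mean_far (n : ℕ) (p : ℝ) (K : ℕ) :
    bern (allEdges n) p (fun S => (far (gr S) K : ℝ)) =
      n - ∑ τ ∈ types K, (τ.1 : ℝ) * bern (allEdges n) p (fun S => (cnt (gr S) τ : ℝ)) := by
  have h1 : ∀ S : Finset (Sym2 (Fin n)), (far (gr S) K : ℝ) =
      n + ∑ τ ∈ types K, (-(τ.1 : ℝ)) * (cnt (gr S) τ : ℝ) := by
    intro S
    have := sum_cnt (gr S) K
    have h2 : (∑ τ ∈ types K, (τ.1 : ℝ) * (cnt (gr S) τ : ℝ)) + far (gr S) K = n := by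
      exact_mod_cast this
    simp only [neg_mul, Finset.sum_neg_distrib]
    linarith
  simp only [h1]
  rw [bern_add, bern_const, bern_sum, sub_eq_add_neg, ← Finset.sum_neg_distrib]
  congr 1
  refine Finset.sum_congr rfl fun τ _ => ?_
  rw [bern_mul]
  ring

lemma tendsto_mean_far (c : ℝ) (pr : ℕ → ℝ) (hpr : ∀ᶠ n : ℕ in atTop, pr n = c / n) (K : ℕ) :
    Tendsto (fun n : ℕ => bern (allEdges n) (pr n) (fun S => (far (gr S) K : ℝ)) / n) atTop
      (𝓝 (tail c K)) := by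
  have h1 : Tendsto (fun n : ℕ => 1 - ∑ τ ∈ types K, (τ.1 : ℝ) *
      (bern (allEdges n) (pr n) (fun S => (cnt (gr S) τ : ℝ)) / n)) atTop (𝓝 (tail c K)) := by
    refine tendsto_const_nhds.sub (tendsto_finsetSum _ fun τ _ => ?_)
    exact (tendsto_mean_cnt c pr hpr τ).const_mul _
  refine h1.congr' ?_
  filter_upwards [eventually_gt_atTop 0] with n hn
  have hnR : (n : ℝ) ≠ 0 := by exact_mod_cast hn.ne'
  rw [mean_far, sub_div, div_self hnR, Finset.sum_div]
  congr 1
  exact Finset.sum_congr rfl fun τ _ => by ring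

lemma tail_nonneg {c : ℝ} (hc : 0 < c) (K : ℕ) : 0 ≤ tail c K := by
  have hpr : ∀ᶠ n : ℕ in atTop, (fun n : ℕ => c / (n : ℝ)) n = c / n := Eventually.of_forall fun _ => rfl
  refine ge_of_tendsto (tendsto_mean_far c _ hpr K) ?_
  have hlarge : ∀ᶠ n : ℕ in atTop, c < (n : ℝ) := tendsto_natCast_atTop_atTop.eventually_gt_atTop c
  filter_upwards [hlarge] with n hn
  have hnR : (0 : ℝ) < n := hc.trans hn
  refine div_nonneg (bern_nonneg ?_ ?_ fun S _ => Nat.cast_nonneg _) hnR.le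
  · positivity
  · exact (div_le_one hnR).mpr hn.le

/-- the subcritical tail bound -/
lemma tail_le {c : ℝ} (hc0 : 0 < c) (hc1 : c < 1) {K : ℕ} (hK : 0 < K) :
    tail c K ≤ 1 / ((1 - c) * K) := by
  have hpr : ∀ᶠ n : ℕ in atTop, (fun n : ℕ => c / (n : ℝ)) n = c / n := Eventually.of_forall fun _ => rfl
  refine le_of_tendsto (tendsto_mean_far c _ hpr K) ?_
  have hlarge : ∀ᶠ n : ℕ in atTop, c < (n : ℝ) := tendsto_natCast_atTop_atTop.eventually_gt_atTop c
  filter_upwards [hlarge] with n hn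
  have hnR : (0 : ℝ) < n := hc0.trans hn
  have hKR : (0 : ℝ) < K := by exact_mod_cast hK
  have hp0 : 0 ≤ c / (n : ℝ) := by positivity
  have hp1 : c / (n : ℝ) ≤ 1 := (div_le_one hnR).mpr hn.le
  have hnp : (n : ℝ) * (c / n) = c := by field_simp
  have h1 := susceptibility (n := n) hp0 hp1 (by rw [hnp]; exact hc1)
  rw [hnp] at h1
  have h2 : bern (allEdges n) (c / n) (fun S => (far (gr S) K : ℝ)) * K ≤ n / (1 - c) := by
    refine le_trans ?_ h1
    rw [mul_comm, ← bern_mul]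
    refine bern_mono hp0 hp1 fun S _ => ?_
    have := far_mul_le (gr S) K
    have h3 : (far (gr S) K : ℝ) * K ≤ ∑ x : Fin n, ((comp (gr S) x).card : ℝ) := by
      exact_mod_cast this
    linarith
  have h1c : 0 < 1 - c := by linarith
  rw [div_le_div_iff₀ hnR (by positivity)]
  rw [le_div_iff₀ h1c] at h2
  linarith

/-- comparison of the densities at `c` and at `1` -/
lemma dens_one_ge {c : ℝ} (hc0 : 0 < c) (τ : Σ k : ℕ, SimpleGraph (Fin k)) :
    c * dens c τ ≤ dens 1 τ := by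
  unfold dens
  split_ifs with h
  · obtain ⟨_, h2⟩ := h
    rw [one_pow, one_mul, ← mul_div_assoc]
    gcongr
    rw [← mul_assoc, ← pow_succ', h2]
    have h3 : c * Real.exp (-c) ≤ Real.exp (-1) := by
      have h4 : c ≤ Real.exp (c - 1) := by
        have := Real.add_one_le_exp (c - 1)
        linarith
      calc c * Real.exp (-c) ≤ Real.exp (c - 1) * Real.exp (-c) := by gcongr
        _ = Real.exp (-1) := by rw [← Real.exp_add]; ring_nf
    have e1 : Real.exp (-(c * τ.1)) = Real.exp (-c) ^ τ.1 := by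
      rw [← Real.exp_nat_mul]; ring_nf
    have e2 : Real.exp (-(τ.1 : ℝ)) = Real.exp (-1) ^ τ.1 := by
      rw [← Real.exp_nat_mul]; ring_nf
    rw [one_mul, e1, e2, ← mul_pow]
    gcongr
  · simp

/-- **Tightness of the component sizes for `c ≤ 1`.** -/
lemma exists_tail_le {c : ℝ} (hc0 : 0 < c) (hc1 : c ≤ 1) {ε : ℝ} (hε : 0 < ε) :
    ∃ K : ℕ, tail c K ≤ ε := by
  have hsub : ∀ a : ℝ, 0 < a → a < 1 → ∀ δ : ℝ, 0 < δ → ∃ K : ℕ, tail a K ≤ δ := by
    intro a ha0 ha1 δ hδ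
    obtain ⟨K, hK⟩ := exists_nat_gt (1 / ((1 - a) * δ))
    have h1a : 0 < 1 - a := by linarith
    have hKR : (0 : ℝ) < K := lt_trans (by positivity) hK
    have hK0 : 0 < K := by exact_mod_cast hKR
    refine ⟨K, (tail_le ha0 ha1 hK0).trans ?_⟩
    rw [div_le_iff₀ (by positivity)]
    rw [div_lt_iff₀ (by positivity)] at hK
    nlinarith
  rcases lt_or_eq_of_le hc1 with h | h
  · exact hsub c hc0 h ε hε
  · subst h
    set a : ℝ := max (1 / 2) (1 - ε / 2) with ha
    have ha0 : 0 < a := lt_of_lt_of_le (by norm_num) (le_max_left _ _)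
    have ha1 : a < 1 := max_lt (by norm_num) (by linarith)
    have ha2 : 1 - a ≤ ε / 2 := by
      have := le_max_right (1 / 2 : ℝ) (1 - ε / 2)
      rw [← ha] at this
      linarith
    obtain ⟨K, hK⟩ := hsub a ha0 ha1 (ε / 2) (by linarith)
    refine ⟨K, ?_⟩
    have h1 : a * ∑ τ ∈ types K, (τ.1 : ℝ) * dens a τ ≤ ∑ τ ∈ types K, (τ.1 : ℝ) * dens 1 τ := by
      rw [Finset.mul_sum]
      refine Finset.sum_le_sum fun τ _ => ?_
      have := dens_one_ge ha0 τ
      calc a * ((τ.1 : ℝ) * dens a τ) = (τ.1 : ℝ) * (a * dens a τ) := by ring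
        _ ≤ (τ.1 : ℝ) * dens 1 τ := by gcongr
    have h2 : tail 1 K ≤ 1 - a * (1 - tail a K) := by
      unfold tail
      have : 1 - (1 - ∑ τ ∈ types K, (τ.1 : ℝ) * dens a τ) = ∑ τ ∈ types K, (τ.1 : ℝ) * dens a τ := by
        ring
      rw [this]
      linarith
    have h3 := tail_nonneg ha0 K
    nlinarith

end Pool.Agent.Work.MP_c348a7_pr
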