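import Mathlib.Combinatorics.SimpleGraph.Matching
import Mathlib.Combinatorics.SimpleGraph.CycleGraph
import Mathlib.Combinatorics.SimpleGraph.Finite
import Pool.Agent.Work.MP_c348a7_pr.PathLD

/-!
# 2-regular graphs: cycles, orientations, orderings
-/

namespace Pool.Agent.Work.MP_c348a7_pr

lemma finRotate_val {n : ℕ} (i : Fin n) :
    (finRotate n i : ℕ) = if i.val + 1 = n then 0 else i.val + 1 := by
  rcases n with _ | n
  · exact i.elim0
  · rw [coe_finRotate]
    by_cases h : i = Fin.last n
    · subst h
      simp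
    · rw [if_neg h, if_neg]
      intro h2
      apply h
      apply Fin.ext
      simp only [Fin.val_last]
      omega

/-- A finite 2-regular graph is a disjoint union of cycles. -/
lemma exists_sigma {V : Type*} [Finite V] (G : SimpleGraph V)
    (hG : ∀ v, (G.neighborSet v).ncard = 2) :
    ∃ (n : G.ConnectedComponent → ℕ) (E : (Σ c, Fin (n c)) ≃ V),
      (∀ c, 3 ≤ n c) ∧ (∀ c k, G.connectedComponentMk (E ⟨c, k⟩) = c) ∧
      ∀ c (k : Fin (n c)), G.Adj (E ⟨c, k⟩) (E ⟨c, finRotate _ k⟩) := by
  have hcyc : G.IsCycles := fun v _ => hG v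
  have hne : ∀ v, (G.neighborSet v).Nonempty :=
    fun v => Set.nonempty_of_ncard_ne_zero (by rw [hG v]; norm_num)
  have hex : ∀ c : G.ConnectedComponent, ∃ v, ∃ p : G.Walk v v, p.IsCycle ∧
      p.toSubgraph.verts = c.supp := by
    intro c
    obtain ⟨v, hv⟩ := c.nonempty_supp
    exact ⟨v, hcyc.exists_cycle_toSubgraph_verts_eq_connectedComponentSupp hv (hne v)⟩
  choose r p hp hs using hex
  have hmem : ∀ c (k : ℕ), G.connectedComponentMk ((p c).getVert k) = c := by
    intro c k
    have h1 : (p c).getVert k ∈ (p c).toSubgraph.verts := by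
      rw [SimpleGraph.Walk.mem_verts_toSubgraph]
      exact (p c).getVert_mem_support k
    rw [hs c] at h1
    exact h1
  have h3 : ∀ c, 3 ≤ (p c).length := fun c => (hp c).three_le_length
  set f : (Σ c, Fin ((p c).length)) → V := fun x => (p x.1).getVert x.2 with hf
  have hinj : Function.Injective f := by
    rintro ⟨c, k⟩ ⟨d, l⟩ h
    have hcd : c = d := by
      rw [← hmem c k, ← hmem d l]
      exact congrArg _ h
    subst hcd
    have h4 : (k : ℕ) = l := by
      refine (hp c).getVert_injOn' ?_ ?_ h
      · have := k.isLt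
        rw [Set.mem_ofPred_eq]; omega
      · have := l.isLt
        rw [Set.mem_ofPred_eq]; omega
    rw [Fin.ext h4]
  have hsurj : Function.Surjective f := by
    intro x
    set c := G.connectedComponentMk x with hc
    have hx : x ∈ (p c).toSubgraph.verts := by
      rw [hs c]; rfl
    rw [SimpleGraph.Walk.mem_verts_toSubgraph, SimpleGraph.Walk.mem_support_iff_exists_getVert] at hx
    obtain ⟨k, hk, hkl⟩ := hx
    rcases Nat.lt_or_ge k (p c).length with h | h
    · exact ⟨⟨c, ⟨k, h⟩⟩, hk⟩
    · have hk' : k = (p c).length := le_antisymm hkl h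
      refine ⟨⟨c, ⟨0, by have := h3 c; omega⟩⟩, ?_⟩
      rw [hk', SimpleGraph.Walk.getVert_length] at hk
      simp only [hf, SimpleGraph.Walk.getVert_zero]
      exact hk
  refine ⟨fun c => (p c).length, Equiv.ofBijective f ⟨hinj, hsurj⟩, h3, ?_, ?_⟩
  · intro c k
    exact hmem c k
  · intro c k
    change G.Adj ((p c).getVert k) ((p c).getVert (finRotate _ k))
    rw [finRotate_val]
    split_ifs with h
    · have h5 := (p c).adj_getVert_succ k.isLt
      rw [h, SimpleGraph.Walk.getVert_length] at h5
      rw [SimpleGraph.Walk.getVert_zero]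
      exact h5
    · exact (p c).adj_getVert_succ k.isLt

/-- **Orientation** of a finite 2-regular graph. -/
lemma exists_orientation {V : Type*} [Finite V] (G : SimpleGraph V)
    (hG : ∀ v, (G.neighborSet v).ncard = 2) :
    ∃ σ : Equiv.Perm V, ∀ x, σ x ≠ σ.symm x ∧ ∀ y, G.Adj x y ↔ y = σ x ∨ y = σ.symm x := by
  obtain ⟨n, E, h3, hcomp, hadj⟩ := exists_sigma G hG
  set σ : Equiv.Perm V := E.symm.trans ((Equiv.sigmaCongrRight fun c => finRotate (n c)).trans E)
    with hσ
  have hσE : ∀ c k, σ (E ⟨c, k⟩) = E ⟨c, finRotate _ k⟩ := by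
    intro c k
    simp [hσ]
  have hA : ∀ x, G.Adj x (σ x) := by
    intro x
    obtain ⟨⟨c, k⟩, rfl⟩ := E.surjective x
    rw [hσE]
    exact hadj c k
  have hA' : ∀ x, G.Adj x (σ.symm x) := by
    intro x
    have := hA (σ.symm x)
    rw [Equiv.apply_symm_apply] at this
    exact this.symm
  have hne : ∀ x, σ x ≠ σ.symm x := by
    intro x h
    have h1 : σ (σ x) = x := by rw [h, Equiv.apply_symm_apply]
    obtain ⟨⟨c, k⟩, rfl⟩ := E.surjective x
    rw [hσE, hσE] at h1
    have h2 : finRotate (n c) (finRotate (n c) k) = k := by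
      have := E.injective h1
      simpa using this
    have h4 := congrArg Fin.val h2
    rw [finRotate_val, finRotate_val] at h4
    have := h3 c
    have := k.isLt
    split_ifs at h4 <;> omega
  refine ⟨σ, fun x => ⟨hne x, fun y => ?_⟩⟩
  have hsub : ({σ x, σ.symm x} : Set V) ⊆ G.neighborSet x := by
    intro y hy
    rcases hy with rfl | rfl
    · exact hA x
    · exact hA' x
  have heq : ({σ x, σ.symm x} : Set V) = G.neighborSet x := by
    refine Set.eq_of_subset_of_ncard_le hsub ?_
    rw [hG x, Set.ncard_pair (hne x)]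
  rw [← SimpleGraph.mem_neighborSet, ← heq]
  simp

section counting

variable {V : Type*} [Fintype V] [DecidableEq V]

open Classical in
/-- all 2-regular graphs on `V` -/
noncomputable def twoReg (V : Type*) [Fintype V] : Finset (SimpleGraph V) :=
  Finset.univ.filter (fun G => ∀ v, (G.neighborSet v).ncard = 2)

lemma mem_twoReg {G : SimpleGraph V} : G ∈ twoReg V ↔ ∀ v, (G.neighborSet v).ncard = 2 := by
  simp [twoReg]

/-- the number of connected components -/
noncomputable def nComp (G : SimpleGraph V) : ℕ := Nat.card G.ConnectedComponent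

open Classical in
/-- an orientation of a 2-regular graph with the orientation of some components reversed -/
lemma exists_orientations (G : SimpleGraph V) (hG : ∀ v, (G.neighborSet v).ncard = 2) :
    ∃ F : Finset G.ConnectedComponent → Equiv.Perm V, Function.Injective F ∧
      ∀ S x y, G.Adj x y ↔ y = F S x ∨ y = (F S).symm x := by
  obtain ⟨σ, hσ⟩ := exists_orientation G hG
  have hc1 : ∀ x, G.connectedComponentMk (σ x) = G.connectedComponentMk x := by
    intro x
    have : G.Adj x (σ x) := ((hσ x).2 _).mpr (Or.inl rfl)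
    exact SimpleGraph.ConnectedComponent.sound this.symm.reachable
  have hc2 : ∀ x, G.connectedComponentMk (σ.symm x) = G.connectedComponentMk x := by
    intro x
    have : G.Adj x (σ.symm x) := ((hσ x).2 _).mpr (Or.inr rfl)
    exact SimpleGraph.ConnectedComponent.sound this.symm.reachable
  let F : Finset G.ConnectedComponent → Equiv.Perm V := fun S =>
    { toFun := fun x => if G.connectedComponentMk x ∈ S then σ x else σ.symm x
      invFun := fun x => if G.connectedComponentMk x ∈ S then σ.symm x else σ x
      left_inv := by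
        intro x
        by_cases h : G.connectedComponentMk x ∈ S
        · simp [h, hc1]
        · simp [h, hc2]
      right_inv := by
        intro x
        by_cases h : G.connectedComponentMk x ∈ S
        · simp [h, hc2]
        · simp [h, hc1] }
  have hF : ∀ S x, F S x = if G.connectedComponentMk x ∈ S then σ x else σ.symm x := fun _ _ => rfl
  have hF' : ∀ S x, (F S).symm x = if G.connectedComponentMk x ∈ S then σ.symm x else σ x :=
    fun _ _ => rfl
  refine ⟨F, ?_, ?_⟩
  · intro S T hST
    ext c
    obtain ⟨x, rfl⟩ := c.exists_rep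
    change G.connectedComponentMk x ∈ S ↔ G.connectedComponentMk x ∈ T
    have h1 : F S x = F T x := by rw [hST]
    rw [hF, hF] at h1
    have h2 := (hσ x).1
    by_cases hS : G.connectedComponentMk x ∈ S <;> by_cases hT : G.connectedComponentMk x ∈ T
    · tauto
    · rw [if_pos hS, if_neg hT] at h1
      exact absurd h1 h2
    · rw [if_neg hS, if_pos hT] at h1
      exact absurd h1.symm h2
    · tauto
  · intro S x y
    rw [(hσ x).2 y, hF, hF']
    by_cases h : G.connectedComponentMk x ∈ S
    · rw [if_pos h, if_pos h]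
    · rw [if_neg h, if_neg h]
      exact or_comm

/-- `∑ 2 ^ (number of cycles) ≤ n!` over all 2-regular graphs -/
lemma sum_two_pow_le : ∑ G ∈ twoReg V, 2 ^ nComp G ≤ (Fintype.card V).factorial := by
  classical
  have h1 : ∀ G : SimpleGraph V, ∃ F : Finset G.ConnectedComponent → Equiv.Perm V,
      G ∈ twoReg V → (Function.Injective F ∧
      ∀ S x y, G.Adj x y ↔ y = F S x ∨ y = (F S).symm x) := by
    intro G
    by_cases hG : G ∈ twoReg V
    · obtain ⟨F, hF⟩ := exists_orientations G (mem_twoReg.mp hG)
      exact ⟨F, fun _ => hF⟩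
    · exact ⟨fun _ => 1, fun h => absurd h hG⟩
  choose F hF using h1
  have h2 : ∀ G ∈ twoReg V, 2 ^ nComp G = (Finset.univ : Finset (Finset G.ConnectedComponent)).card := by
    intro G _
    rw [Finset.card_univ, Fintype.card_finset, nComp, Nat.card_eq_fintype_card]
  rw [Finset.sum_congr rfl h2, ← Finset.card_sigma, ← Fintype.card_perm, ← Finset.card_univ (α := Equiv.Perm V)]
  refine Finset.card_le_card_of_injOn (fun x => F x.1 x.2) (fun _ _ => Finset.mem_coe.mpr (Finset.mem_univ _)) ?_
  rintro ⟨G, S⟩ hG ⟨H, T⟩ hH h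
  have hG' : G ∈ twoReg V := (Finset.mem_sigma.mp hG).1
  have hH' : H ∈ twoReg V := (Finset.mem_sigma.mp hH).1
  dsimp only at h
  have hGH : G = H := by
    ext x y
    rw [(hF G hG').2 S x y, (hF H hH').2 T x y, h]
  subst hGH
  rw [(hF G hG').1 h]

end counting

end Pool.Agent.Work.MP_c348a7_pr
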