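import Pool.Agent.Work.MP_c348a7_pr.TwoRegOrder

/-!
# Many 2-regular graphs, few with many components
-/

namespace Pool.Agent.Work.MP_c348a7_pr

open Classical in
/-- the Hamiltonian cycle given by an enumeration of the vertices -/
noncomputable def hamCycle {m : ℕ} (e : Equiv.Perm (Fin (m + 3))) : SimpleGraph (Fin (m + 3)) :=
  (SimpleGraph.cycleGraph (m + 3)).comap e

lemma cyc_adj {m : ℕ} (u v : Fin (m + 3)) : (SimpleGraph.cycleGraph (m + 3)).Adj u v ↔
    v = finRotate _ u ∨ u = finRotate _ v := by
  rw [SimpleGraph.cycleGraph_adj, finRotate_apply, finRotate_apply, sub_eq_iff_eq_add,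
    sub_eq_iff_eq_add, or_comm, add_comm 1 u, add_comm 1 v]

lemma hamCycle_mem {m : ℕ} (e : Equiv.Perm (Fin (m + 3))) : hamCycle e ∈ twoReg (Fin (m + 3)) := by
  rw [mem_twoReg]
  intro v
  have h1 : (hamCycle e).neighborSet v = {e.symm (finRotate _ (e v)), e.symm ((finRotate _).symm (e v))} := by
    ext w
    simp only [hamCycle, SimpleGraph.mem_neighborSet, SimpleGraph.comap_adj, cyc_adj,
      Set.mem_insert_iff, Set.mem_singleton_iff]
    rw [Equiv.eq_symm_apply, Equiv.eq_symm_apply, Equiv.eq_symm_apply]
    constructor
    · rintro (h | h)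
      · exact Or.inl h
      · exact Or.inr h.symm
    · rintro (h | h)
      · exact Or.inl h
      · exact Or.inr h.symm
  rw [h1, Set.ncard_pair]
  intro h
  have h2 := e.symm.injective h
  rw [Equiv.eq_symm_apply] at h2
  have h3 := congrArg Fin.val h2
  rw [finRotate_val, finRotate_val] at h3
  have h4 := (e v).isLt
  split_ifs at h3 <;> omega

lemma hamCycle_injOn {m : ℕ} (e e' : Equiv.Perm (Fin (m + 3))) (h : hamCycle e = hamCycle e')
    (h0 : e.symm 0 = e'.symm 0) (h1 : e.symm 1 = e'.symm 1) : e = e' := by
  have key : ∀ k : ℕ, ∀ hk : k < m + 3, e.symm ⟨k, hk⟩ = e'.symm ⟨k, hk⟩ := by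
    intro k
    induction k using Nat.strong_induction_on with
    | _ k ih =>
      intro hk
      rcases k with _ | _ | k
      · exact h0
      · exact h1
      · have ha := ih (k + 1) (by omega) (by omega)
        have hb := ih k (by omega) (by omega)
        set w := e'.symm ⟨k + 1 + 1, hk⟩ with hw
        set a := e.symm ⟨k + 1, by omega⟩ with haa
        have hadj : (hamCycle e').Adj a w := by
          unfold hamCycle
          rw [SimpleGraph.comap_adj, ha, hw, Equiv.apply_symm_apply, Equiv.apply_symm_apply, cyc_adj]
          left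
          apply Fin.ext
          rw [finRotate_val, if_neg]
          simp only
          omega
        rw [← h] at hadj
        unfold hamCycle at hadj
        rw [SimpleGraph.comap_adj, haa, Equiv.apply_symm_apply, cyc_adj] at hadj
        rw [Equiv.symm_apply_eq]
        rcases hadj with h2 | h2
        · rw [h2]
          apply Fin.ext
          rw [finRotate_val, if_neg]
          simp only
          omega
        · exfalso
          have h3 := congrArg Fin.val h2
          rw [finRotate_val] at h3
          simp only at h3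
          have h4 : e w = ⟨k, by omega⟩ := by
            apply Fin.ext
            simp only
            split_ifs at h3
            omega
          have h5 : w = e'.symm ⟨k, by omega⟩ := by
            rw [← hb, ← h4, Equiv.symm_apply_apply]
          rw [hw] at h5
          have h6 := e'.symm.injective h5
          have h7 := congrArg Fin.val h6
          simp only at h7
          omega
  apply Equiv.symm_bijective.injective
  ext k
  have := key k.val k.isLt
  exact congrArg Fin.val this

/-- there are at least `(n - 1)! / 2` two-regular graphs -/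
lemma factorial_le {m : ℕ} :
    (m + 3).factorial ≤ 2 * (m + 3) * (twoReg (Fin (m + 3))).card := by
  classical
  have h1 : (Finset.univ : Finset (Equiv.Perm (Fin (m + 3)))).card =
      ∑ G ∈ twoReg (Fin (m + 3)), (Finset.univ.filter (fun e : Equiv.Perm (Fin (m + 3)) =>
        hamCycle e = G)).card := by
    refine Finset.card_eq_sum_card_fiberwise (f := hamCycle) (t := twoReg (Fin (m + 3))) ?_
    intro e _
    exact hamCycle_mem e
  have h2 : ∀ G ∈ twoReg (Fin (m + 3)), (Finset.univ.filter (fun e : Equiv.Perm (Fin (m + 3)) =>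
        hamCycle e = G)).card ≤ 2 * (m + 3) := by
    intro G hG
    refine le_trans ?_ (card_adj_le G (mem_twoReg.mp hG) (Equiv.refl _))
    refine Finset.card_le_card_of_injOn (fun e => (e.symm 0, e.symm 1)) ?_ ?_
    · intro e he
      have he' : hamCycle e = G := (Finset.mem_filter.mp he).2
      refine Finset.mem_coe.mpr (Finset.mem_filter.mpr ⟨Finset.mem_univ _, ?_⟩)
      dsimp only [Equiv.refl_apply]
      rw [← he']
      unfold hamCycle
      rw [SimpleGraph.comap_adj, Equiv.apply_symm_apply, Equiv.apply_symm_apply, cyc_adj]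
      left
      apply Fin.ext
      rw [finRotate_val]
      simp
    · intro e he e' he' hee
      have h3 : hamCycle e = G := (Finset.mem_filter.mp he).2
      have h4 : hamCycle e' = G := (Finset.mem_filter.mp he').2
      rw [Prod.mk.injEq] at hee
      exact hamCycle_injOn e e' (h3.trans h4.symm) hee.1 hee.2
  rw [Finset.card_univ, Fintype.card_perm, Fintype.card_fin] at h1
  rw [h1]
  calc ∑ G ∈ twoReg (Fin (m + 3)), (Finset.univ.filter (fun e : Equiv.Perm (Fin (m + 3)) =>
        hamCycle e = G)).card ≤ ∑ G ∈ twoReg (Fin (m + 3)), 2 * (m + 3) := Finset.sum_le_sum h2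
    _ = 2 * (m + 3) * (twoReg (Fin (m + 3))).card := by
      rw [Finset.sum_const, smul_eq_mul, mul_comm]

open Classical in
/-- few 2-regular graphs have many components -/
lemma card_nComp_le {N : ℕ} (hN : 3 ≤ N) (k : ℕ) :
    ((twoReg (Fin N)).filter (fun G => k ≤ nComp G)).card * 2 ^ k ≤
      2 * N * (twoReg (Fin N)).card := by
  obtain ⟨m, rfl⟩ : ∃ m, N = m + 3 := ⟨N - 3, by omega⟩
  refine le_trans ?_ factorial_le
  have h1 := sum_two_pow_le (V := Fin (m + 3))
  rw [Fintype.card_fin] at h1
  refine le_trans ?_ h1
  calc ((twoReg (Fin (m + 3))).filter (fun G => k ≤ nComp G)).card * 2 ^ k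
      = ∑ G ∈ (twoReg (Fin (m + 3))).filter (fun G => k ≤ nComp G), 2 ^ k := by
        rw [Finset.sum_const, smul_eq_mul]
    _ ≤ ∑ G ∈ (twoReg (Fin (m + 3))).filter (fun G => k ≤ nComp G), 2 ^ nComp G := by
        refine Finset.sum_le_sum fun G hG => ?_
        exact Nat.pow_le_pow_right (by norm_num) (Finset.mem_filter.mp hG).2
    _ ≤ ∑ G ∈ twoReg (Fin (m + 3)), 2 ^ nComp G :=
        Finset.sum_le_sum_of_subset (Finset.filter_subset _ _)

end Pool.Agent.Work.MP_c348a7_pr
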