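import Pool.Agent.Work.MP_c348a7_pr.TwoReg

/-!
# Ordering the vertices of a 2-regular graph along its cycles
-/

namespace Pool.Agent.Work.MP_c348a7_pr

lemma nxt_val {N : ℕ} (a : Fin N) (h : a.val + 1 < N) : (nxt a).val = a.val + 1 := by
  unfold nxt
  rw [dif_pos h]

/-- the vertices can be ordered so that all but few consecutive vertices are adjacent -/
lemma exists_order_aux {N : ℕ} (G : SimpleGraph (Fin N))
    (hG : ∀ v, (G.neighborSet v).ncard = 2) :
    ∃ (e : Equiv.Perm (Fin N)) (T : Finset (Fin N)), T.card ≤ nComp G ∧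
      ∀ a ∉ T, a.val + 1 < N ∧ G.Adj (e a) (e (nxt a)) := by
  classical
  obtain ⟨n, E, h3, hcomp, hadj⟩ := exists_sigma G hG
  set c₀ := Fintype.card G.ConnectedComponent with hc₀
  set g : Fin c₀ ≃ G.ConnectedComponent := (Fintype.equivFin G.ConnectedComponent).symm with hg
  set E1 : (Σ i : Fin c₀, Fin (n (g i))) ≃ Σ c, Fin (n c) :=
    Equiv.sigmaCongrLeft (β := fun c => Fin (n c)) g with hE1
  have hE1v : ∀ i (k : Fin (n (g i))), E1 ⟨i, k⟩ = ⟨g i, k⟩ := fun i k => rfl
  set E2 : (Σ i : Fin c₀, Fin (n (g i))) ≃ Fin (∑ i : Fin c₀, n (g i)) := finSigmaFinEquiv with hE2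
  have hN : (∑ i : Fin c₀, n (g i)) = N := by
    have := Fintype.card_congr (E2.symm.trans (E1.trans E))
    simpa using this
  set e : Equiv.Perm (Fin N) := (finCongr hN).symm.trans (E2.symm.trans (E1.trans E)) with he
  -- positions
  set pos : Fin N → (Σ i : Fin c₀, Fin (n (g i))) := fun a => E2.symm ((finCongr hN).symm a) with hpos
  have hposinj : Function.Injective pos := fun a b h => by
    simpa [hpos] using h
  have hepos : ∀ a, e a = E ⟨g (pos a).1, (pos a).2⟩ := by
    intro a
    rfl
  set T : Finset (Fin N) := Finset.univ.filter (fun a => (pos a).2.val + 1 = n (g (pos a).1)) with hT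
  refine ⟨e, T, ?_, ?_⟩
  · have h1 : T.card ≤ (Finset.univ : Finset (Fin c₀)).card := by
      refine Finset.card_le_card_of_injOn (fun a => (pos a).1) (fun _ _ => Finset.mem_coe.mpr (Finset.mem_univ _)) ?_
      intro a ha b hb hab
      have ha' : (pos a).2.val + 1 = n (g (pos a).1) := (Finset.mem_filter.mp ha).2
      have hb' : (pos b).2.val + 1 = n (g (pos b).1) := (Finset.mem_filter.mp hb).2
      apply hposinj
      dsimp only at hab
      revert ha' hb' hab
      generalize pos a = x
      generalize pos b = y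
      rcases x with ⟨i, k⟩
      rcases y with ⟨j, l⟩
      intro hab ha' hb'
      dsimp only at ha' hb' hab
      subst hab
      have : k = l := Fin.ext (by omega)
      rw [this]
    rw [Finset.card_univ, Fintype.card_fin] at h1
    unfold nComp
    rw [Nat.card_eq_fintype_card]
    exact h1
  · intro a ha
    have ha' : ¬ ((pos a).2.val + 1 = n (g (pos a).1)) := fun h =>
      ha (Finset.mem_filter.mpr ⟨Finset.mem_univ _, h⟩)
    have hlt : (pos a).2.val + 1 < n (g (pos a).1) := by
      have := (pos a).2.isLt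
      omega
    -- the next position
    set b : Fin N := finCongr hN (E2 ⟨(pos a).1, ⟨(pos a).2.val + 1, hlt⟩⟩) with hb
    have hbval : b.val = a.val + 1 := by
      have h1 : a = finCongr hN (E2 (pos a)) := by simp [hpos]
      have h2 : (E2 ⟨(pos a).1, ⟨(pos a).2.val + 1, hlt⟩⟩ : ℕ) = (E2 (pos a) : ℕ) + 1 := by
        rw [hE2, finSigmaFinEquiv_apply, finSigmaFinEquiv_apply]
        dsimp only
        omega
      have h3' : a.val = (E2 (pos a) : ℕ) := by
        conv_lhs => rw [h1]
        rfl
      rw [h3', ← h2]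
      rfl
    have hlt2 : a.val + 1 < N := by
      rw [← hbval]; exact b.isLt
    refine ⟨hlt2, ?_⟩
    have hnxt : nxt a = b := Fin.ext (by rw [nxt_val a hlt2, hbval])
    rw [hnxt, hepos a]
    have hposb : e b = E ⟨g (pos a).1, ⟨(pos a).2.val + 1, hlt⟩⟩ := by
      simp [he, hb, hE1v]
    rw [hposb]
    have h4 := hadj (g (pos a).1) (pos a).2
    have h5 : finRotate _ (pos a).2 = ⟨(pos a).2.val + 1, hlt⟩ := by
      apply Fin.ext
      rw [finRotate_val, if_neg ha']
    rw [h5] at h4
    exact h4

open Classical in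
lemma card_adj_le {N : ℕ} (G : SimpleGraph (Fin N))
    (hG : ∀ v, (G.neighborSet v).ncard = 2) (e : Equiv.Perm (Fin N)) :
    (Finset.univ.filter (fun p : Fin N × Fin N => G.Adj (e p.1) (e p.2))).card ≤ 2 * N := by
  have hsub : (Finset.univ.filter (fun p : Fin N × Fin N => G.Adj (e p.1) (e p.2))) ⊆
      Finset.univ.biUnion (fun a => ((Set.toFinite (G.neighborSet (e a))).toFinset).image
        (fun w => (a, e.symm w))) := by
    rintro ⟨a, b⟩ hp
    have hab : G.Adj (e a) (e b) := (Finset.mem_filter.mp hp).2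
    rw [Finset.mem_biUnion]
    refine ⟨a, Finset.mem_univ _, Finset.mem_image.mpr ⟨e b, ?_, by simp⟩⟩
    rw [Set.Finite.mem_toFinset]
    exact hab
  refine (Finset.card_le_card hsub).trans (Finset.card_biUnion_le.trans ?_)
  calc ∑ a : Fin N, (((Set.toFinite (G.neighborSet (e a))).toFinset).image
        (fun w => (a, e.symm w))).card ≤ ∑ a : Fin N, 2 := by
        refine Finset.sum_le_sum fun a _ => Finset.card_image_le.trans ?_
        rw [← Set.ncard_eq_toFinset_card, hG]
    _ = 2 * N := by rw [Finset.sum_const, Finset.card_univ, Fintype.card_fin, smul_eq_mul, mul_comm]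

/-- **Ordering along the cycles**: a 2-regular graph differs from a path on at most four times as
many ordered pairs as it has components. -/
lemma exists_pathEdit_le {N : ℕ} (G : SimpleGraph (Fin N))
    (hG : ∀ v, (G.neighborSet v).ncard = 2) :
    ∃ e : Equiv.Perm (Fin N), pathEdit G e ≤ 4 * nComp G := by
  classical
  obtain ⟨e, T, hT, he⟩ := exists_order_aux G hG
  refine ⟨e, ?_⟩
  set P : Finset (Fin N × Fin N) := Finset.univ.filter (fun p =>
    (SimpleGraph.pathGraph N).Adj p.1 p.2) with hP
  set A : Finset (Fin N × Fin N) := Finset.univ.filter (fun p => G.Adj (e p.1) (e p.2)) with hA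
  have h1 : pathEdit G e ≤ (P \ A).card + (A \ P).card := by
    unfold pathEdit
    refine le_trans (Finset.card_le_card ?_) (Finset.card_union_le _ _)
    intro p hp
    have hp' := (Finset.mem_filter.mp hp).2
    rw [Finset.mem_union, Finset.mem_sdiff, Finset.mem_sdiff, hP, hA, Finset.mem_filter,
      Finset.mem_filter]
    have := Finset.mem_univ p
    tauto
  have h2 : (P \ A).card ≤ 2 * T.card := by
    refine le_trans (Finset.card_le_card ?_) (card_pathPairs_le T (Equiv.refl _))
    rintro ⟨a, b⟩ hp
    rw [Finset.mem_sdiff] at hp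
    have hab : (SimpleGraph.pathGraph N).Adj a b := (Finset.mem_filter.mp hp.1).2
    have hnA : ¬ G.Adj (e a) (e b) := fun h => hp.2 (Finset.mem_filter.mpr ⟨Finset.mem_univ _, h⟩)
    refine Finset.mem_filter.mpr ⟨Finset.mem_univ _, hab, ?_⟩
    dsimp only [Equiv.refl_apply]
    rw [SimpleGraph.pathGraph_adj] at hab
    by_contra hm
    rcases hab with h | h
    · have hle : a ≤ b := by rw [Fin.le_def]; omega
      rw [min_eq_left hle] at hm
      obtain ⟨h5, h6⟩ := he a hm
      have : nxt a = b := Fin.ext (by rw [nxt_val a h5, h])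
      rw [this] at h6
      exact hnA h6
    · have hle : b ≤ a := by rw [Fin.le_def]; omega
      rw [min_eq_right hle] at hm
      obtain ⟨h5, h6⟩ := he b hm
      have : nxt b = a := Fin.ext (by rw [nxt_val b h5, h])
      rw [this] at h6
      exact hnA h6.symm
  have h3 : (A \ P).card + 2 * (N - T.card) ≤ 2 * N := by
    have hsub : (Tᶜ.image (fun a => (a, nxt a))) ∪ (Tᶜ.image (fun a => (nxt a, a))) ⊆ A ∩ P := by
      intro p hp
      rw [Finset.mem_union, Finset.mem_image, Finset.mem_image] at hp
      rw [Finset.mem_inter, hA, hP, Finset.mem_filter, Finset.mem_filter]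
      rcases hp with ⟨a, ha, rfl⟩ | ⟨a, ha, rfl⟩
      · obtain ⟨h5, h6⟩ := he a (Finset.mem_compl.mp ha)
        refine ⟨⟨Finset.mem_univ _, h6⟩, Finset.mem_univ _, ?_⟩
        rw [SimpleGraph.pathGraph_adj]
        left
        exact (nxt_val a h5).symm
      · obtain ⟨h5, h6⟩ := he a (Finset.mem_compl.mp ha)
        refine ⟨⟨Finset.mem_univ _, h6.symm⟩, Finset.mem_univ _, ?_⟩
        rw [SimpleGraph.pathGraph_adj]
        right
        exact (nxt_val a h5).symm
    have hdisj : Disjoint (Tᶜ.image (fun a => (a, nxt a))) (Tᶜ.image (fun a => (nxt a, a))) := by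
      rw [Finset.disjoint_left]
      intro p hp1 hp2
      rw [Finset.mem_image] at hp1 hp2
      obtain ⟨a, ha, rfl⟩ := hp1
      obtain ⟨b, hb, hab⟩ := hp2
      have h5 := (he a (Finset.mem_compl.mp ha)).1
      have h6 := (he b (Finset.mem_compl.mp hb)).1
      have h7 := nxt_val a h5
      have h8 := nxt_val b h6
      rw [Prod.mk.injEq] at hab
      have h9 := congrArg Fin.val hab.1
      have h10 := congrArg Fin.val hab.2
      omega
    have hc1 : (Tᶜ.image (fun a => (a, nxt a))).card = Tᶜ.card :=
      Finset.card_image_of_injective _ fun a b h => (Prod.mk.inj h).1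
    have hc2 : (Tᶜ.image (fun a => (nxt a, a))).card = Tᶜ.card :=
      Finset.card_image_of_injective _ fun a b h => (Prod.mk.inj h).2
    have hc3 := Finset.card_le_card hsub
    rw [Finset.card_union_of_disjoint hdisj, hc1, hc2, Finset.card_compl, Fintype.card_fin] at hc3
    have hc4 : (A \ P).card + (A ∩ P).card = A.card := Finset.card_sdiff_add_card_inter A P
    have hc5 : A.card ≤ 2 * N := card_adj_le G hG e
    omega
  have h4 : T.card ≤ N := (Finset.card_le_univ T).trans (le_of_eq (Fintype.card_fin N))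
  omega

end Pool.Agent.Work.MP_c348a7_pr
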